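import Mathlib

set_option autoImplicit false

open scoped UpperHalfPlane

namespace Pool.Agent.Lib.MP_6d95fe_co

/-- Minkowski space of signature `(2,1)`. -/
abbrev V : Type := ℝ × ℝ × ℝ

/-- The Lorentz form. -/
def B (x y : V) : ℝ := -(x.1 * y.1) + x.2.1 * y.2.1 + x.2.2 * y.2.2

/-- The upper sheet of the hyperboloid. -/
def Hyp (x : V) : Prop := B x x = -1 ∧ 0 < x.1

theorem B_comm (x y : V) : B x y = B y x := by unfold B; ring

theorem B_add_left (x y z : V) : B (x + y) z = B x z + B y z := by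
  simp only [B, Prod.fst_add, Prod.snd_add]; ring

theorem B_add_right (x y z : V) : B x (y + z) = B x y + B x z := by
  simp only [B, Prod.fst_add, Prod.snd_add]; ring

theorem B_sub_left (x y z : V) : B (x - y) z = B x z - B y z := by
  simp only [B, Prod.fst_sub, Prod.snd_sub]; ring

theorem B_sub_right (x y z : V) : B x (y - z) = B x y - B x z := by
  simp only [B, Prod.fst_sub, Prod.snd_sub]; ring

theorem B_smul_left (c : ℝ) (x y : V) : B (c • x) y = c * B x y := by
  simp only [B, Prod.smul_fst, Prod.smul_snd, smul_eq_mul]; ring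

theorem B_smul_right (c : ℝ) (x y : V) : B x (c • y) = c * B x y := by
  simp only [B, Prod.smul_fst, Prod.smul_snd, smul_eq_mul]; ring

theorem B_neg_right (x y : V) : B x (-y) = -B x y := by
  simp only [B, Prod.fst_neg, Prod.snd_neg]; ring

theorem B_neg_left (x y : V) : B (-x) y = -B x y := by
  simp only [B, Prod.fst_neg, Prod.snd_neg]; ring

theorem eq_zero_of_B {d : V} (h : ∀ y, B d y = 0) : d = 0 := by
  have h1 := h (1, 0, 0)
  have h2 := h (0, 1, 0)
  have h3 := h (0, 0, 1)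
  simp only [B] at h1 h2 h3
  refine Prod.ext ?_ (Prod.ext ?_ ?_) <;> simp <;> linarith

/-- The hyperboloid coordinates of a point of the upper half plane. -/
noncomputable def phi (z : ℍ) : V :=
  ((z.re ^ 2 + z.im ^ 2 + 1) / (2 * z.im), z.re / z.im, (z.re ^ 2 + z.im ^ 2 - 1) / (2 * z.im))

theorem B_phi (z w : ℍ) : B (phi z) (phi w) = -Real.cosh (dist z w) := by
  rw [UpperHalfPlane.cosh_dist']
  have hz := z.im_pos.ne'
  have hw := w.im_pos.ne'
  simp only [B, phi]
  field_simp
  ring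

theorem hyp_phi (z : ℍ) : Hyp (phi z) := by
  refine ⟨by rw [B_phi]; simp, ?_⟩
  have := z.im_pos
  simp only [phi]
  positivity

theorem eq_of_cosh_dist {z w : ℍ} (h : Real.cosh (dist z w) = 1) : z = w := by
  have : dist z w = 0 := by
    by_contra hne
    have := Real.one_lt_cosh.mpr hne
    linarith
  exact dist_eq_zero.mp this

theorem phi_inj {z w : ℍ} (h : phi z = phi w) : z = w := by
  apply eq_of_cosh_dist
  have h1 := B_phi z w
  rw [← h, (hyp_phi z).1] at h1
  linarith

theorem phi_surj {x : V} (hx : Hyp x) : ∃ z, phi z = x := by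
  obtain ⟨h1, h2⟩ := hx
  obtain ⟨a, b, c⟩ := x
  simp only [B] at h1 h2
  have h3 : 0 < a - c := by nlinarith [sq_nonneg b, sq_nonneg (a + c), sq_nonneg (a - c)]
  refine ⟨⟨⟨b / (a - c), 1 / (a - c)⟩, by positivity⟩, ?_⟩
  have h4 : a - c ≠ 0 := h3.ne'
  simp only [phi, UpperHalfPlane.mk_re, UpperHalfPlane.mk_im]
  refine Prod.ext ?_ (Prod.ext ?_ ?_)
  · simp only; field_simp; nlinarith
  · simp only; field_simp
  · simp only; field_simp; nlinarith

theorem dist_eq_of_cosh {a b c d : ℍ} (h : Real.cosh (dist a b) = Real.cosh (dist c d)) :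
    dist a b = dist c d := by
  have h1 := Real.cosh_le_cosh.mp h.le
  have h2 := Real.cosh_le_cosh.mp h.ge
  rw [abs_of_nonneg dist_nonneg, abs_of_nonneg dist_nonneg] at h1 h2
  exact le_antisymm h1 h2

theorem dist_le_iff_cosh {a b c d : ℍ} :
    dist a b ≤ dist c d ↔ Real.cosh (dist a b) ≤ Real.cosh (dist c d) := by
  rw [Real.cosh_le_cosh, abs_of_nonneg dist_nonneg, abs_of_nonneg dist_nonneg]

/-- A Lorentz map of the hyperboloid gives an isometry of the hyperbolic plane. -/
theorem exists_isom (L : V → V) (hB : ∀ x y, B (L x) (L y) = B x y)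
    (hH : ∀ x, Hyp x → Hyp (L x)) (hs : ∀ y, Hyp y → ∃ x, Hyp x ∧ L x = y) :
    ∃ g : ℍ ≃ᵢ ℍ, ∀ z, phi (g z) = L (phi z) := by
  choose g hg using fun z : ℍ => phi_surj (hH _ (hyp_phi z))
  have hiso : Isometry g := by
    refine Isometry.of_dist_eq fun z w => dist_eq_of_cosh ?_
    have h1 := B_phi (g z) (g w)
    rw [hg, hg, hB, B_phi] at h1
    linarith
  have hsurj : Function.Surjective g := by
    intro w
    obtain ⟨x, hx, hxw⟩ := hs _ (hyp_phi w)
    obtain ⟨z, rfl⟩ := phi_surj hx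
    exact ⟨z, phi_inj (by rw [hg, hxw])⟩
  exact ⟨⟨Equiv.ofBijective g ⟨hiso.injective, hsurj⟩, hiso⟩, hg⟩

/-- Reverse Cauchy-Schwarz inequality. -/
theorem rev_cs {y w : V} (hy : Hyp y) {k : ℝ} (hk : 0 < k) (hw : B w w = -k ^ 2)
    (hw0 : 0 < w.1) : B y w ≤ -k := by
  have h1 : Hyp (k⁻¹ • w) := by
    refine ⟨?_, ?_⟩
    · rw [B_smul_left, B_smul_right, hw]; field_simp
    · simp only [Prod.smul_fst, smul_eq_mul]; positivity
  obtain ⟨a, ha⟩ := phi_surj hy
  obtain ⟨b, hb⟩ := phi_surj h1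
  have h2 := B_phi a b
  rw [ha, hb, B_smul_right] at h2
  have h3 := Real.one_le_cosh (dist a b)
  have h4 : B y w = -(k * Real.cosh (dist a b)) := by
    field_simp at h2
    linarith
  nlinarith

/-- A unit timelike vector having negative product with a point of the hyperboloid is on it. -/
theorem hyp_of_neg {x y : V} (hx : Hyp x) (hy : B y y = -1) (h : B y x < 0) : Hyp y := by
  refine ⟨hy, ?_⟩
  by_contra hneg
  have h0 : y.1 ≠ 0 := by
    intro h0
    simp only [B, h0] at hy
    nlinarith [sq_nonneg y.2.1, sq_nonneg y.2.2]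
  have h1 : 0 < (-y).1 := by
    simp only [Prod.fst_neg]
    have := lt_of_le_of_ne (not_lt.mp hneg) h0
    linarith
  have h2 := rev_cs hx one_pos (w := -y) (by rw [B_neg_left, B_neg_right, hy]; ring) h1
  rw [B_neg_right, B_comm] at h2
  linarith

/-- An orthonormal frame. -/
structure Frame (e0 e1 e2 : V) : Prop where
  h00 : B e0 e0 = -1
  h11 : B e1 e1 = 1
  h22 : B e2 e2 = 1
  h01 : B e0 e1 = 0
  h02 : B e0 e2 = 0
  h12 : B e1 e2 = 0

theorem Frame.complete {e0 e1 e2 : V} (h : Frame e0 e1 e2) (x y : V) :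
    B x y = -(B x e0 * B y e0) + B x e1 * B y e1 + B x e2 * B y e2 := by
  obtain ⟨h00, h11, h22, h01, h02, h12⟩ := h
  obtain ⟨a0, a1, a2⟩ := e0
  obtain ⟨b0, b1, b2⟩ := e1
  obtain ⟨c0, c1, c2⟩ := e2
  simp only [B] at h00 h11 h22 h01 h02 h12 ⊢
  have hMN : !![-a0, a1, a2; -b0, b1, b2; -c0, c1, c2] *
      !![-a0, b0, c0; -a1, b1, c1; -a2, b2, c2] = (1 : Matrix (Fin 3) (Fin 3) ℝ) := by
    ext i j
    fin_cases i <;> fin_cases j <;> simp [Matrix.mul_apply, Fin.sum_univ_three] <;> linarith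
  have hNM := mul_eq_one_comm.mp hMN
  have e00 := congrFun (congrFun hNM 0) 0
  have e01 := congrFun (congrFun hNM 0) 1
  have e02 := congrFun (congrFun hNM 0) 2
  have e11 := congrFun (congrFun hNM 1) 1
  have e12 := congrFun (congrFun hNM 1) 2
  have e22 := congrFun (congrFun hNM 2) 2
  simp [Matrix.mul_apply, Fin.sum_univ_three] at e00 e01 e02 e11 e12 e22
  obtain ⟨x0, x1, x2⟩ := x
  obtain ⟨y0, y1, y2⟩ := y
  simp only
  linear_combination (x0 * y0) * e00 + (x0 * y1 + x1 * y0) * e01 + (x0 * y2 + x2 * y0) * e02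
    - (x1 * y1) * e11 - (x1 * y2 + x2 * y1) * e12 - (x2 * y2) * e22

/-- Two frames with future time vectors are related by an isometry. -/
theorem exists_isom_of_frames {e0 e1 e2 d0 d1 d2 : V} (he : Frame e0 e1 e2) (hd : Frame d0 d1 d2)
    (he0 : 0 < e0.1) (hd0 : 0 < d0.1) :
    ∃ g : ℍ ≃ᵢ ℍ, ∀ z, B (phi (g z)) d0 = B (phi z) e0 ∧ B (phi (g z)) d1 = B (phi z) e1 ∧
      B (phi (g z)) d2 = B (phi z) e2 := by
  have key : ∀ {e0 e1 e2 d0 d1 d2 : V}, Frame d0 d1 d2 → ∀ x : V,
      B (-(B x e0) • d0 + B x e1 • d1 + B x e2 • d2) d0 = B x e0 ∧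
      B (-(B x e0) • d0 + B x e1 • d1 + B x e2 • d2) d1 = B x e1 ∧
      B (-(B x e0) • d0 + B x e1 • d1 + B x e2 • d2) d2 = B x e2 := by
    intro e0 e1 e2 d0 d1 d2 hd x
    simp only [B_add_left, B_smul_left, hd.h00, hd.h11, hd.h22, hd.h01, hd.h02, hd.h12,
      B_comm d1 d0, B_comm d2 d0, B_comm d2 d1]
    refine ⟨by ring, by ring, by ring⟩
  have key2 : ∀ {e0 e1 e2 d0 d1 d2 : V}, Frame e0 e1 e2 → Frame d0 d1 d2 → ∀ x y : V,
      B (-(B x e0) • d0 + B x e1 • d1 + B x e2 • d2)
        (-(B y e0) • d0 + B y e1 • d1 + B y e2 • d2) = B x y := by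
    intro e0 e1 e2 d0 d1 d2 he hd x y
    rw [hd.complete, (key hd x).1, (key hd x).2.1, (key hd x).2.2, (key hd y).1,
      (key hd y).2.1, (key hd y).2.2, ← he.complete]
  have key3 : ∀ {e0 e1 e2 d0 d1 d2 : V}, Frame e0 e1 e2 → Frame d0 d1 d2 → 0 < e0.1 → 0 < d0.1 →
      ∀ x : V, Hyp x → Hyp (-(B x e0) • d0 + B x e1 • d1 + B x e2 • d2) := by
    intro e0 e1 e2 d0 d1 d2 he hd he0 hd0 x hx
    refine hyp_of_neg ⟨hd.h00, hd0⟩ (by rw [key2 he hd, hx.1]) ?_
    rw [(key hd x).1]
    have := rev_cs hx one_pos (w := e0) (by rw [he.h00]; ring) he0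
    linarith
  obtain ⟨g, hg⟩ := exists_isom (fun x => -(B x e0) • d0 + B x e1 • d1 + B x e2 • d2)
    (key2 he hd) (key3 he hd he0 hd0) (fun y hy => by
      refine ⟨-(B y d0) • e0 + B y d1 • e1 + B y d2 • e2, key3 hd he hd0 he0 y hy, ?_⟩
      simp only [(key he y).1, (key he y).2.1, (key he y).2.2]
      rw [← sub_eq_zero]
      refine eq_zero_of_B fun u => ?_
      rw [B_sub_left, hd.complete y u]
      simp only [B_add_left, B_smul_left, B_comm u]
      ring)
  exact ⟨g, fun z => by rw [hg]; exact key hd _⟩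

/-- Two walls at a common perpendicular wall. -/
structure Triple (u v w : V) : Prop where
  hu : B u u = 1
  hv : B v v = 1
  hw : B w w = 1
  huv : B u v = 0
  hvw : B v w = 0
  huw : B u w < -1
  hpos : 0 < u.1 + w.1

theorem Triple.frame {u v w : V} (h : Triple u v w) :
    Frame ((√(-2 - 2 * B u w))⁻¹ • (u + w)) v ((√(2 - 2 * B u w))⁻¹ • (u - w)) := by
  have h1 : 0 < -2 - 2 * B u w := by linarith [h.huw]
  have h2 : 0 < 2 - 2 * B u w := by linarith [h.huw]
  have s1 := Real.sq_sqrt h1.le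
  have s2 := Real.sq_sqrt h2.le
  have p1 := (Real.sqrt_pos.mpr h1).ne'
  have p2 := (Real.sqrt_pos.mpr h2).ne'
  generalize √(-2 - 2 * B u w) = r1 at s1 p1 ⊢
  generalize √(2 - 2 * B u w) = r2 at s2 p2 ⊢
  constructor
  · simp only [B_smul_left, B_smul_right, B_add_left, B_add_right, h.hu, h.hw, B_comm w u]
    field_simp; linarith
  · exact h.hv
  · simp only [B_smul_left, B_smul_right, B_sub_left, B_sub_right, h.hu, h.hw, B_comm w u]
    field_simp; linarith
  · simp only [B_smul_left, B_add_left, h.huv, B_comm w v, h.hvw]; ring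
  · simp only [B_smul_left, B_smul_right, B_add_left, B_sub_right, h.hu, h.hw, B_comm w u]; ring
  · simp only [B_smul_right, B_sub_right, h.hvw, B_comm v u, h.huv]; ring

theorem Triple.rigid {u v w : V} (h : Triple u v w) {z y : ℍ}
    (h1 : B (phi z) u = B (phi y) u) (h2 : B (phi z) v = B (phi y) v)
    (h3 : B (phi z) w = B (phi y) w) : z = y := by
  apply phi_inj
  rw [← sub_eq_zero]
  refine eq_zero_of_B fun t => ?_
  rw [h.frame.complete]
  simp only [B_smul_right, B_sub_left, B_add_right, B_sub_right, h1, h2, h3]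
  ring

theorem Triple.exists_isom {u v w u' v' w' : V} (h : Triple u v w) (h' : Triple u' v' w')
    (hG : B u' w' = B u w) :
    ∃ g : ℍ ≃ᵢ ℍ, ∀ z, B (phi (g z)) u' = B (phi z) u ∧ B (phi (g z)) v' = B (phi z) v ∧
      B (phi (g z)) w' = B (phi z) w := by
  have h1 : 0 < -2 - 2 * B u w := by linarith [h.huw]
  have h2 : 0 < 2 - 2 * B u w := by linarith [h.huw]
  have p1 := Real.sqrt_pos.mpr h1
  have p2 := Real.sqrt_pos.mpr h2
  have f' := h'.frame
  rw [hG] at f'
  obtain ⟨g, hg⟩ := exists_isom_of_frames h.frame f'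
    (by simp only [Prod.smul_fst, Prod.fst_add, smul_eq_mul]; have := h.hpos; positivity)
    (by simp only [Prod.smul_fst, Prod.fst_add, smul_eq_mul]; have := h'.hpos; positivity)
  refine ⟨g, fun z => ?_⟩
  obtain ⟨a0, a1, a2⟩ := hg z
  simp only [B_smul_right, B_add_right, B_sub_right] at a0 a2
  have b0 := mul_left_cancel₀ (inv_ne_zero p1.ne') a0
  have b2 := mul_left_cancel₀ (inv_ne_zero p2.ne') a2
  exact ⟨by linarith, a1, by linarith⟩

/-- The length of the middle edge. -/
theorem Triple.length {u v w : V} (h : Triple u v w) {y z : ℍ}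
    (h1 : B (phi y) u = 0) (h2 : B (phi y) v = 0) (h3 : B (phi z) v = 0) (h4 : B (phi z) w = 0) :
    Real.cosh (dist y z) = -B u w := by
  have fr : Frame (phi y) u v := ⟨(hyp_phi y).1, h.hu, h.hv, h1, h2, h.huv⟩
  have c1 := fr.complete (phi z) (phi z)
  have c2 := fr.complete w w
  have c3 := fr.complete (phi z) w
  rw [(hyp_phi z).1, h3] at c1
  rw [h.hw, B_comm w v, h.hvw, B_comm w u] at c2
  rw [h4, h3, B_comm w u] at c3
  have hc := B_phi z y
  rw [dist_comm] at hc
  have hpos := Real.one_le_cosh (dist y z)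
  have hG := h.huw
  set a := B (phi z) (phi y)
  set b := B (phi z) u
  set c := B w (phi y)
  set G := B u w
  have e1 : a * c = b * G := by linarith
  have e2 : (a - G) * (a + G) = 0 := by
    have : (a * c) ^ 2 = (b * G) ^ 2 := by rw [e1]
    nlinarith
  rcases mul_eq_zero.mp e2 with e | e
  · linarith
  · linarith

theorem vertex_unique {u v : V} (hu : B u u = 1) (hv : B v v = 1) (huv : B u v = 0) {y z : ℍ}
    (h1 : B (phi y) u = 0) (h2 : B (phi y) v = 0) (h3 : B (phi z) u = 0) (h4 : B (phi z) v = 0) :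
    y = z := by
  have fr : Frame (phi y) u v := ⟨(hyp_phi y).1, hu, hv, h1, h2, huv⟩
  have c1 := fr.complete (phi z) (phi z)
  rw [(hyp_phi z).1, h3, h4, B_phi] at c1
  have hpos := Real.one_le_cosh (dist z y)
  exact (eq_of_cosh_dist (by nlinarith)).symm

theorem vertex_exists {u v : V} (hu : B u u = 1) (hv : B v v = 1) (huv : B u v = 0) :
    ∃ y : ℍ, B (phi y) u = 0 ∧ B (phi y) v = 0 := by
  obtain ⟨a0, a1, a2⟩ := u
  obtain ⟨b0, b1, b2⟩ := v
  simp only [B] at hu hv huv
  have hp : B (a1 * b2 - a2 * b1, a0 * b2 - a2 * b0, a1 * b0 - a0 * b1)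
      (a1 * b2 - a2 * b1, a0 * b2 - a2 * b0, a1 * b0 - a0 * b1) = -1 := by
    simp only [B]
    linear_combination (-(-(b0 * b0) + b1 * b1 + b2 * b2)) * hu - hv +
      (-(a0 * b0) + a1 * b1 + a2 * b2) * huv
  set p : V := (a1 * b2 - a2 * b1, a0 * b2 - a2 * b0, a1 * b0 - a0 * b1) with hpdef
  have hpu : B p (a0, a1, a2) = 0 := by simp only [hpdef, B]; ring
  have hpv : B p (b0, b1, b2) = 0 := by simp only [hpdef, B]; ring
  have h0 : p.1 ≠ 0 := by
    intro h0
    simp only [B, h0] at hp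
    nlinarith [sq_nonneg p.2.1, sq_nonneg p.2.2]
  rcases lt_or_gt_of_ne h0 with h | h
  · obtain ⟨y, hy⟩ := phi_surj (x := -p)
      ⟨by rw [B_neg_left, B_neg_right, hp]; ring, by simp only [Prod.fst_neg]; linarith⟩
    exact ⟨y, by rw [hy, B_neg_left, hpu]; ring, by rw [hy, B_neg_left, hpv]; ring⟩
  · obtain ⟨y, hy⟩ := phi_surj (x := p) ⟨hp, h⟩
    exact ⟨y, by rw [hy, hpu], by rw [hy, hpv]⟩

/-- The reflection in a wall. -/
theorem exists_refl {v : V} (hv : B v v = 1) :
    ∃ g : ℍ ≃ᵢ ℍ, ∀ z, phi (g z) = phi z - (2 * B (phi z) v) • v := by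
  have hB : ∀ x y : V, B (x - (2 * B x v) • v) (y - (2 * B y v) • v) = B x y := by
    intro x y
    simp only [B_sub_left, B_sub_right, B_smul_left, B_smul_right, hv, B_comm v y]
    ring
  have hH : ∀ x : V, Hyp x → Hyp (x - (2 * B x v) • v) := by
    intro x hx
    refine hyp_of_neg hx (by rw [hB, hx.1]) ?_
    simp only [B_sub_left, B_smul_left, hx.1, B_comm v x]
    nlinarith [sq_nonneg (B x v)]
  refine exists_isom (fun x => x - (2 * B x v) • v) hB hH fun y hy => ⟨_, hH y hy, ?_⟩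
  simp only [B_sub_left, B_smul_left, hv]
  rw [sub_sub, ← add_smul]
  have : 2 * B y v + 2 * (B y v - 2 * B y v * 1) = 0 := by ring
  rw [this, zero_smul, sub_zero]

/-- A wall is the bisector of two points. -/
theorem exists_bisector {v : V} (hv : B v v = 1) {o : ℍ} (ho : B (phi o) v < 0) :
    ∃ a b : ℍ, a ≠ b ∧ ∀ z, (dist z a ≤ dist z b ↔ B (phi z) v ≤ 0) ∧
      (dist z a = dist z b ↔ B (phi z) v = 0) := by
  obtain ⟨g, hg⟩ := exists_refl hv
  have key : ∀ z, Real.cosh (dist z (g o)) =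
      Real.cosh (dist z o) + 2 * B (phi o) v * B (phi z) v := by
    intro z
    have h1 := B_phi z (g o)
    rw [hg, B_sub_right, B_smul_right, B_phi] at h1
    linarith
  refine ⟨o, g o, fun h => ?_, fun z => ⟨?_, ?_, ?_⟩⟩
  · have := key o
    rw [← h] at this
    nlinarith
  · rw [dist_le_iff_cosh, key]
    constructor
    · intro h; nlinarith
    · intro h; nlinarith
  · intro h
    have := key z
    rw [← h] at this
    have h2 : B (phi o) v * B (phi z) v = 0 := by linarith
    exact (mul_eq_zero.mp h2).resolve_left ho.ne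
  · intro h
    apply dist_eq_of_cosh
    rw [key, h]; ring

theorem interior_wall {v : V} (hv : B v v = 1) : interior {z : ℍ | B (phi z) v = 0} = ∅ := by
  rw [Set.eq_empty_iff_forall_notMem]
  intro z hz
  have hz0 : B (phi z) v = 0 := (interior_subset hz : z ∈ {z : ℍ | B (phi z) v = 0})
  obtain ⟨e, he, hball⟩ := Metric.isOpen_iff.mp isOpen_interior z hz
  have hs := Real.cosh_sq (e / 2)
  have hx : B (Real.cosh (e / 2) • phi z + Real.sinh (e / 2) • v) (phi z) = -Real.cosh (e / 2) := by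
    rw [B_add_left, B_smul_left, B_smul_left, (hyp_phi z).1, B_comm v, hz0]; ring
  obtain ⟨y, hy⟩ := phi_surj (x := Real.cosh (e / 2) • phi z + Real.sinh (e / 2) • v)
    (hyp_of_neg (hyp_phi z) (by
      simp only [B_add_left, B_add_right, B_smul_left, B_smul_right, (hyp_phi z).1, hv,
        B_comm v (phi z), hz0]
      linarith) (by rw [hx]; have := Real.cosh_pos (e / 2); linarith))
  have hd : dist y z < e := by
    have h1 := B_phi y z
    rw [hy, hx] at h1
    have h2 : Real.cosh (dist y z) ≤ Real.cosh (e / 2) := by linarith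
    rw [Real.cosh_le_cosh, abs_of_nonneg dist_nonneg, abs_of_pos (by linarith)] at h2
    linarith
  have h3 : B (phi y) v = 0 := (interior_subset (hball hd) : y ∈ {z : ℍ | B (phi z) v = 0})
  rw [hy, B_add_left, B_smul_left, B_smul_left, hz0, hv] at h3
  have h4 := Real.sinh_pos_iff.mpr (by linarith : 0 < e / 2)
  linarith

theorem continuous_wall (v : V) : Continuous fun z : ℍ => B (phi z) v := by
  have h1 := UpperHalfPlane.continuous_re
  have h2 := UpperHalfPlane.continuous_im
  simp only [B, phi]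
  refine ((Continuous.neg (Continuous.mul (Continuous.div (by fun_prop) (by fun_prop) ?_)
    continuous_const)).add (Continuous.mul (Continuous.div h1 h2 ?_) continuous_const)).add
    (Continuous.mul (Continuous.div (by fun_prop) (by fun_prop) ?_) continuous_const)
  · intro z; have := z.im_pos; positivity
  · intro z; exact z.im_pos.ne'
  · intro z; have := z.im_pos; positivity

theorem sep_walls {u v : V} (hu : B u u = 1) (hv : B v v = 1) (huv : B u v < -1)
    (hpos : 0 < u.1 + v.1) : ∃ k : ℝ, 0 < k ∧ ∀ z : ℍ, B (phi z) u + B (phi z) v ≤ -k := by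
  have h1 : 0 < -2 - 2 * B u v := by linarith
  refine ⟨√(-2 - 2 * B u v), Real.sqrt_pos.mpr h1, fun z => ?_⟩
  rw [← B_add_right]
  refine rev_cs (hyp_phi z) (Real.sqrt_pos.mpr h1) ?_ (by simpa using hpos)
  rw [Real.sq_sqrt h1.le]
  simp only [B_add_left, B_add_right, hu, hv, B_comm v u]
  ring

end Pool.Agent.Lib.MP_6d95fe_co
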