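import Mathlib
import Pool.Agent.Lib.MP_6d95fe_co.Lorentz

set_option autoImplicit false

open scoped UpperHalfPlane

namespace Pool.Agent.Lib.MP_6d95fe_co

/-- Edge indices of the prototile. -/
abbrev Ix (r : ℕ) : Type := ZMod (2 ^ (r + 3))

/-- The type of an edge: its index modulo 8. -/
def ty {r : ℕ} : Ix r →+* ZMod 8 :=
  ZMod.castHom (show 8 ∣ 2 ^ (r + 3) from ⟨2 ^ r, by ring⟩) (ZMod 8)

/-- Active edges: the even ones. -/
def Act {r : ℕ} (i : Ix r) : Prop := ty i = 0 ∨ ty i = 2 ∨ ty i = 4 ∨ ty i = 6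

/-- The abstract description of the prototile by its wall functions. -/
structure Datum (r : ℕ) where
  f : Ix r → ℍ → ℝ
  k : ℝ
  k_pos : 0 < k
  o : ℍ
  L : Ix r → ℝ
  sep : ∀ i j, j ≠ i → j ≠ i + 1 → i ≠ j + 1 → ∀ z, f i z + f j z ≤ -k
  center : ∀ i, f i o < 0
  compact : IsCompact {z | ∀ i, f i z ≤ 0}
  cont : ∀ i, Continuous (f i)
  half : ∀ i, ∃ a b : ℍ, a ≠ b ∧ ∀ z, (dist z a ≤ dist z b ↔ f i z ≤ 0) ∧
    (dist z a = dist z b ↔ f i z = 0)
  half2 : ∀ i, ∃ a b : ℍ, a ≠ b ∧ ∀ z, (dist z a ≤ dist z b ↔ f i z + f (i + 1) z ≤ 0) ∧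
    (dist z a = dist z b ↔ f i z + f (i + 1) z = 0)
  thin : ∀ i, interior {z | f i z = 0} = ∅
  vertex : ∀ i, ∃ p, f i p = 0 ∧ f (i + 1) p = 0
  vertex_unique : ∀ i y z, f i y = 0 → f (i + 1) y = 0 → f i z = 0 → f (i + 1) z = 0 → y = z
  len : ∀ i y z, f (i - 1) y = 0 → f i y = 0 → f i z = 0 → f (i + 1) z = 0 →
    Real.cosh (dist y z) = L i
  rigid : ∀ i y z, f (i - 1) y = f (i - 1) z → f i y = f i z → f (i + 1) y = f (i + 1) z → y = z
  refl : ∀ i, ∃ g : ℍ ≃ᵢ ℍ,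
    (∀ z y, Real.cosh (dist (g z) y) = Real.cosh (dist z y) + 2 * f i z * f i y) ∧
    (∀ z, f (i - 1) (g z) = f (i - 1) z) ∧ ∀ z, f (i + 1) (g z) = f (i + 1) z
  turn : ∀ i j, Act i → Act j → ∃ g : ℍ ≃ᵢ ℍ, ∀ z,
    f (j - 1) (g z) = f (i + 1) z ∧ f j (g z) = -f i z ∧ f (j + 1) (g z) = f (i - 1) z
  rot : ∀ t : Ix r, ∃ g : ℍ ≃ᵢ ℍ, ∀ i z, f (i + 4 * t) (g z) = f i z
  L_act : ∀ i j, Act i → Act j → L i = L j
  L_ne : ∀ i j, (ty i = 1 ∨ ty i = 5) → (ty j = 3 ∨ ty j = 7) → L i ≠ L j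

/-! ### The concrete polygon -/

/-- The wall at angle `a` whose half visual angle has cosine `c`. -/
noncomputable def wall (a c : ℝ) : V :=
  (c / √(1 - c ^ 2), Real.cos a / √(1 - c ^ 2), Real.sin a / √(1 - c ^ 2))

theorem B_wall (a c a' c' : ℝ) :
    B (wall a c) (wall a' c') =
      (Real.cos (a - a') - c * c') / (√(1 - c ^ 2) * √(1 - c' ^ 2)) := by
  simp only [B, wall, Real.cos_sub]
  ring

theorem B_wall_self (a : ℝ) {c : ℝ} (h0 : 0 < c) (h1 : c < 1) : B (wall a c) (wall a c) = 1 := by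
  have h : 0 < 1 - c ^ 2 := by nlinarith
  rw [B_wall, sub_self, Real.cos_zero, Real.mul_self_sqrt h.le]
  field_simp

theorem wall_fst_pos (a : ℝ) {c : ℝ} (h0 : 0 < c) (h1 : c < 1) : 0 < (wall a c).1 := by
  have h : 0 < 1 - c ^ 2 := by nlinarith
  have := Real.sqrt_pos.mpr h
  simp only [wall]
  positivity

theorem B_wall_lt {a c a' c' b b' : ℝ} (h0 : 0 < c) (h1 : c < 1) (h0' : 0 < c') (h1' : c' < 1)
    (hb : 0 ≤ b) (hb2 : b ≤ Real.pi / 2) (hb' : 0 ≤ b') (hb2' : b' ≤ Real.pi / 2)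
    (hc : Real.cos b < c) (hc' : Real.cos b' < c')
    (h : Real.cos (a - a') ≤ Real.cos (b + b')) : B (wall a c) (wall a' c') < -1 := by
  have hs : 0 < 1 - c ^ 2 := by nlinarith
  have hs' : 0 < 1 - c' ^ 2 := by nlinarith
  have p := Real.sqrt_pos.mpr hs
  have p' := Real.sqrt_pos.mpr hs'
  have hcb : 0 ≤ Real.cos b := Real.cos_nonneg_of_neg_pi_div_two_le_of_le (by linarith) hb2
  have hcb' : 0 ≤ Real.cos b' := Real.cos_nonneg_of_neg_pi_div_two_le_of_le (by linarith) hb2'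
  have hsb : 0 ≤ Real.sin b := Real.sin_nonneg_of_nonneg_of_le_pi hb (by linarith [Real.pi_pos])
  have hsb' : 0 ≤ Real.sin b' :=
    Real.sin_nonneg_of_nonneg_of_le_pi hb' (by linarith [Real.pi_pos])
  have q : √(1 - c ^ 2) ≤ Real.sin b := by
    rw [Real.sqrt_le_left hsb]
    nlinarith [Real.sin_sq_add_cos_sq b]
  have q' : √(1 - c' ^ 2) ≤ Real.sin b' := by
    rw [Real.sqrt_le_left hsb']
    nlinarith [Real.sin_sq_add_cos_sq b']
  rw [B_wall, div_lt_iff₀ (by positivity)]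
  rw [Real.cos_add] at h
  have e1 : Real.cos b * Real.cos b' < c * c' := mul_lt_mul'' hc hc' hcb hcb'
  have e2 : √(1 - c ^ 2) * √(1 - c' ^ 2) ≤ Real.sin b * Real.sin b' :=
    mul_le_mul q q' p'.le hsb
  linarith

theorem B_phi_wall_I (a : ℝ) {c : ℝ} (h0 : 0 < c) (h1 : c < 1) :
    B (phi UpperHalfPlane.I) (wall a c) < 0 := by
  have := wall_fst_pos a h0 h1
  have e : phi UpperHalfPlane.I = (1, 0, 0) := by
    simp only [phi, UpperHalfPlane.I_re, UpperHalfPlane.I_im]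
    norm_num
  rw [e]
  simp only [B]
  linarith

/-- Position of the `k`-th wall, in units of the basic angle. -/
def pos (k : ℕ) : ℕ := 6 * (k / 4) + (if k % 4 = 3 then 4 else k % 4)

/-- The cosine of the half visual angle of the `k`-th wall. -/
noncomputable def cc (b : ℝ) (k : ℕ) : ℝ :=
  if k % 4 = 1 then Real.cos b / Real.cos (b / 2)
  else if k % 4 = 3 then Real.cos (2 * b) / Real.cos (b / 2) else Real.cos (b / 2)

/-- A bound for the half visual angle, in units of the basic angle. -/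
def bd (k : ℕ) : ℕ := if k % 4 = 3 then 2 else 1

section concrete

variable {b : ℝ} (hb : 0 < b) (hb6 : b ≤ Real.pi / 6)
include hb hb6

theorem cos_chain : 0 < Real.cos (2 * b) ∧ Real.cos (2 * b) < Real.cos b ∧
    Real.cos b < Real.cos (b / 2) ∧ Real.cos (b / 2) < 1 ∧ Real.cos (4 * b) < Real.cos (2 * b) := by
  have hpi := Real.pi_pos
  refine ⟨Real.cos_pos_of_mem_Ioo ⟨by linarith, by linarith⟩, ?_, ?_, ?_, ?_⟩
  · exact Real.cos_lt_cos_of_nonneg_of_le_pi (by linarith) (by linarith) (by linarith)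
  · exact Real.cos_lt_cos_of_nonneg_of_le_pi (by linarith) (by linarith) (by linarith)
  · rw [← Real.cos_zero]
    exact Real.cos_lt_cos_of_nonneg_of_le_pi le_rfl (by linarith) (by linarith)
  · exact Real.cos_lt_cos_of_nonneg_of_le_pi (by linarith) (by linarith) (by linarith)

theorem cc_facts (k : ℕ) : 0 < cc b k ∧ cc b k < 1 ∧ Real.cos (bd k * b) < cc b k := by
  obtain ⟨h1, h2, h3, h4, -⟩ := cos_chain hb hb6
  have h5 : 0 < Real.cos (b / 2) := by linarith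
  unfold cc bd
  by_cases e1 : k % 4 = 1
  · have e3 : k % 4 ≠ 3 := by omega
    simp only [e1, if_true]
    refine ⟨by apply div_pos <;> linarith, by rw [div_lt_one h5]; exact h3, ?_⟩
    norm_num
    rw [lt_div_iff₀ h5]
    nlinarith
  · by_cases e3 : k % 4 = 3
    · simp only [e3, if_true]
      norm_num
      refine ⟨by apply div_pos <;> linarith, by rw [div_lt_one h5]; linarith, ?_⟩
      rw [lt_div_iff₀ h5]
      nlinarith
    · simp only [e1, e3, if_false]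
      refine ⟨h5, h4, ?_⟩
      norm_num
      exact h3

theorem cc_adj (k : ℕ) : Real.cos ((pos (k + 1) : ℝ) * b - pos k * b) = cc b (k + 1) * cc b k := by
  obtain ⟨h1, h2, h3, h4, -⟩ := cos_chain hb hb6
  have h5 : Real.cos (b / 2) ≠ 0 := by linarith
  have h : k % 4 = 0 ∨ k % 4 = 1 ∨ k % 4 = 2 ∨ k % 4 = 3 := by omega
  rcases h with h | h | h | h
  · have e : pos (k + 1) = pos k + 1 := by unfold pos; split_ifs <;> omega
    have e' : (k + 1) % 4 = 1 := by omega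
    rw [e]
    simp only [cc, e', h]
    norm_num
    field_simp
    congr 1; ring
  · have e : pos (k + 1) = pos k + 1 := by unfold pos; split_ifs <;> omega
    have e' : (k + 1) % 4 = 2 := by omega
    rw [e]
    simp only [cc, e', h]
    norm_num
    field_simp
    congr 1; ring
  · have e : pos (k + 1) = pos k + 2 := by unfold pos; split_ifs <;> omega
    have e' : (k + 1) % 4 = 3 := by omega
    rw [e]
    simp only [cc, e', h]
    norm_num
    field_simp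
    congr 1; ring
  · have e : pos (k + 1) = pos k + 2 := by unfold pos; split_ifs <;> omega
    have e' : (k + 1) % 4 = 0 := by omega
    rw [e]
    simp only [cc, e', h]
    norm_num
    field_simp
    congr 1; ring

end concrete

/-- The `k`-th wall. -/
noncomputable def vN (b : ℝ) (k : ℕ) : V := wall (pos k * b) (cc b k)

/-- Rotation about the time axis. -/
noncomputable def rotV (a : ℝ) (x : V) : V :=
  (x.1, Real.cos a * x.2.1 - Real.sin a * x.2.2, Real.sin a * x.2.1 + Real.cos a * x.2.2)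

theorem B_rotV (a : ℝ) (x y : V) : B (rotV a x) (rotV a y) = B x y := by
  simp only [B, rotV]
  linear_combination (x.2.1 * y.2.1 + x.2.2 * y.2.2) * Real.sin_sq_add_cos_sq a

theorem rotV_wall (a a' c : ℝ) : rotV a (wall a' c) = wall (a' + a) c := by
  simp only [rotV, wall, Real.cos_add, Real.sin_add]
  refine Prod.ext rfl (Prod.ext ?_ ?_) <;> simp only <;> ring

theorem exists_rot (a : ℝ) : ∃ g : ℍ ≃ᵢ ℍ, ∀ z, phi (g z) = rotV a (phi z) := by
  have hH : ∀ a x, Hyp x → Hyp (rotV a x) := fun a x hx => ⟨by rw [B_rotV, hx.1], hx.2⟩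
  refine exists_isom (rotV a) (B_rotV a) (hH a) fun y hy => ⟨rotV (-a) y, hH _ y hy, ?_⟩
  simp only [rotV, Real.cos_neg, Real.sin_neg]
  refine Prod.ext rfl (Prod.ext ?_ ?_) <;> simp only
  · linear_combination y.2.1 * Real.sin_sq_add_cos_sq a
  · linear_combination y.2.2 * Real.sin_sq_add_cos_sq a

theorem vN_add (b : ℝ) (k t : ℕ) : vN b (k + 4 * t) = rotV (6 * t * b) (vN b k) := by
  have e1 : pos (k + 4 * t) = pos k + 6 * t := by unfold pos; split_ifs <;> omega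
  have e2 : cc b (k + 4 * t) = cc b k := by
    have : (k + 4 * t) % 4 = k % 4 := by omega
    simp only [cc, this]
  rw [vN, vN, rotV_wall, e1, e2]
  congr 1
  push_cast; ring

theorem vN_mod {b : ℝ} {N : ℕ} (hN : 6 * N * b = 2 * Real.pi) (k : ℕ) :
    vN b (k % (4 * N)) = vN b k := by
  conv_rhs => rw [← Nat.mod_add_div k (4 * N), mul_assoc, vN_add]
  have : (6 * ((N * (k / (4 * N)) : ℕ) : ℝ) * b) = ((k / (4 * N) : ℕ) : ℝ) * (2 * Real.pi) := by
    rw [← hN]; push_cast; ring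
  have hs : Real.sin (((k / (4 * N) : ℕ) : ℝ) * (2 * Real.pi)) = 0 := by
    have := Real.sin_add_nat_mul_two_pi 0 (k / (4 * N))
    rwa [zero_add, Real.sin_zero] at this
  rw [this]
  simp only [rotV, Real.cos_nat_mul_two_pi, hs]
  simp

theorem bound_aux {c c1 c2 R S t1 t2 y0 : ℝ} (hc0 : 0 < c) (hc1 : c < 1) (hR : 0 ≤ R)
    (hy0 : 0 < y0) (s1 : 0 ≤ t1) (s2 : 0 ≤ t2) (sS : 0 < S) (a0 : 0 < c1) (b0 : 0 < c2)
    (hc1' : c1 ≤ c) (hc2' : c2 ≤ c) (hS : R * S ≤ y0 * (c1 * t2 + c2 * t1))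
    (hid : S ^ 2 = t1 ^ 2 + t2 ^ 2 + 2 * t1 * t2 * (c2 * c1)) (hRR : y0 ^ 2 = 1 + R ^ 2) :
    y0 ≤ 2 / (1 - c ^ 2) := by
  have hq : 0 < 1 - c ^ 2 := by nlinarith
  have u1 : S ^ 2 ≤ 2 * (t1 ^ 2 + t2 ^ 2) := by
    have h1 : c2 * c1 ≤ 1 := by nlinarith
    have h2 := mul_le_mul_of_nonneg_left h1 (mul_nonneg s1 s2)
    nlinarith [sq_nonneg (t1 - t2)]
  have u2 : (c1 * t2 + c2 * t1) ^ 2 ≤ S ^ 2 * ((1 + c ^ 2) / 2) := by
    have v1 : c1 ^ 2 ≤ c ^ 2 := pow_le_pow_left₀ a0.le hc1' 2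
    have v2 : c2 ^ 2 ≤ c ^ 2 := pow_le_pow_left₀ b0.le hc2' 2
    have v3 := mul_le_mul_of_nonneg_right v1 (sq_nonneg t2)
    have v4 := mul_le_mul_of_nonneg_right v2 (sq_nonneg t1)
    have v5 := mul_le_mul_of_nonneg_right u1 hq.le
    nlinarith
  have u3 : (R * S) ^ 2 ≤ (y0 * (c1 * t2 + c2 * t1)) ^ 2 :=
    pow_le_pow_left₀ (mul_nonneg hR sS.le) hS 2
  have u4 : R ^ 2 * S ^ 2 ≤ (y0 ^ 2 * ((1 + c ^ 2) / 2)) * S ^ 2 := by
    have v1 := mul_le_mul_of_nonneg_left u2 (sq_nonneg y0)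
    calc R ^ 2 * S ^ 2 = (R * S) ^ 2 := by ring
      _ ≤ _ := u3
      _ = y0 ^ 2 * (c1 * t2 + c2 * t1) ^ 2 := by ring
      _ ≤ _ := v1
      _ = _ := by ring
  have u5 : R ^ 2 ≤ y0 ^ 2 * ((1 + c ^ 2) / 2) := le_of_mul_le_mul_right u4 (by positivity)
  have u6 : 1 ≤ y0 := by nlinarith [sq_nonneg R]
  have u7 : y0 ^ 2 * (1 - c ^ 2) ≤ 2 := by linarith
  rw [le_div_iff₀ hq]
  have u8 : y0 ≤ y0 ^ 2 := by nlinarith
  have u9 := mul_le_mul_of_nonneg_right u8 hq.le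
  linarith

theorem bounded_of_walls {b : ℝ} (hb : 0 < b) (hb6 : b ≤ Real.pi / 6) :
    ∃ C : ℝ, ∀ y : V, Hyp y → (∀ k, B y (vN b k) ≤ 0) → y.1 ≤ C := by
  obtain ⟨h1, h2, h3, h4, -⟩ := cos_chain hb hb6
  have hpi := Real.pi_pos
  obtain ⟨c, hc1, hc⟩ : ∃ c : ℝ, c < 1 ∧ ∀ k, cc b k ≤ c := by
    refine ⟨max (cc b 0) (max (cc b 1) (cc b 3)), ?_, fun k => ?_⟩
    · simp only [max_lt_iff]
      exact ⟨(cc_facts hb hb6 _).2.1, (cc_facts hb hb6 _).2.1, (cc_facts hb hb6 _).2.1⟩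
    · simp only [le_max_iff]
      by_cases e1 : k % 4 = 1
      · right; left; simp [cc, e1]
      · by_cases e3 : k % 4 = 3
        · right; right; simp [cc, e3]
        · left; simp [cc, e1, e3]
  have hc0 : 0 < c := lt_of_lt_of_le (cc_facts hb hb6 0).1 (hc 0)
  have hq : 0 < 1 - c ^ 2 := by nlinarith
  refine ⟨2 / (1 - c ^ 2), fun y hy hw => ?_⟩
  obtain ⟨y0, y1, y2⟩ := y
  obtain ⟨hy1, hy0⟩ := hy
  simp only [B] at hy1 hy0
  -- polar coordinates
  obtain ⟨R, s, hR, hs, e1, e2⟩ : ∃ R s : ℝ, 0 ≤ R ∧ 0 ≤ s ∧ y1 = R * Real.cos s ∧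
      y2 = R * Real.sin s := by
    refine ⟨‖(⟨y1, y2⟩ : ℂ)‖, Complex.arg ⟨y1, y2⟩ + 2 * Real.pi, norm_nonneg _, ?_, ?_, ?_⟩
    · linarith [Complex.neg_pi_lt_arg (⟨y1, y2⟩ : ℂ)]
    · rw [Real.cos_add_two_pi, Complex.norm_mul_cos_arg]
    · rw [Real.sin_add_two_pi, Complex.norm_mul_sin_arg]
  have hex : ∃ k : ℕ, s < pos (k + 1) * b := by
    obtain ⟨k, hk⟩ := exists_nat_gt (s / b)
    refine ⟨k, ?_⟩
    have : k ≤ pos (k + 1) := by unfold pos; split_ifs <;> omega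
    have h' : (k : ℝ) ≤ pos (k + 1) := by exact_mod_cast this
    rw [div_lt_iff₀ hb] at hk
    nlinarith
  classical
  obtain ⟨k, hk1, hk0⟩ : ∃ k : ℕ, s < pos (k + 1) * b ∧ pos k * b ≤ s := by
    refine ⟨Nat.find hex, Nat.find_spec hex, ?_⟩
    rcases Nat.eq_zero_or_pos (Nat.find hex) with h | h
    · rw [h]; simpa [pos] using hs
    · have := Nat.find_min hex (m := Nat.find hex - 1) (by omega)
      rw [Nat.sub_add_cancel h] at this
      exact not_lt.mp this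
  have hgap : (pos (k + 1) : ℝ) ≤ pos k + 2 := by
    have : pos (k + 1) ≤ pos k + 2 := by unfold pos; split_ifs <;> omega
    exact_mod_cast this
  have hadj := cc_adj hb hb6 k
  obtain ⟨a0, a1, -⟩ := cc_facts hb hb6 k
  obtain ⟨b0, b1, -⟩ := cc_facts hb hb6 (k + 1)
  have w1 : R * Real.cos (s - pos k * b) ≤ y0 * cc b k := by
    have := hw k
    have hs' := Real.sqrt_pos.mpr (show 0 < 1 - cc b k ^ 2 by nlinarith)
    simp only [B, vN, wall, e1, e2] at this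
    rw [Real.cos_sub]
    have h' := mul_nonpos_of_nonpos_of_nonneg this hs'.le
    field_simp at h'
    linarith
  have w2 : R * Real.cos (pos (k + 1) * b - s) ≤ y0 * cc b (k + 1) := by
    have := hw (k + 1)
    have hs' := Real.sqrt_pos.mpr (show 0 < 1 - cc b (k + 1) ^ 2 by nlinarith)
    simp only [B, vN, wall, e1, e2] at this
    rw [Real.cos_sub]
    have h' := mul_nonpos_of_nonpos_of_nonneg this hs'.le
    field_simp at h'
    linarith
  have hc1' := hc k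
  have hc2' := hc (k + 1)
  have hd : (pos (k + 1) : ℝ) * b - pos k * b = (s - pos k * b) + (pos (k + 1) * b - s) := by ring
  rw [hd] at hadj
  have hd1 : 0 ≤ s - pos k * b := by linarith
  have hd2 : 0 < pos (k + 1) * b - s := by linarith
  have hd3 : (s - pos k * b) + (pos (k + 1) * b - s) ≤ 2 * b := by nlinarith
  generalize s - pos k * b = d1 at *
  generalize pos (k + 1) * b - s = d2 at *
  generalize cc b k = c1 at *
  generalize cc b (k + 1) = c2 at *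
  have s1 : 0 ≤ Real.sin d1 := Real.sin_nonneg_of_nonneg_of_le_pi hd1 (by linarith)
  have s2 : 0 ≤ Real.sin d2 := Real.sin_nonneg_of_nonneg_of_le_pi hd2.le (by linarith)
  have sS : 0 < Real.sin (d1 + d2) := Real.sin_pos_of_pos_of_lt_pi (by linarith) (by linarith)
  have hS : R * Real.sin (d1 + d2) ≤ y0 * (c1 * Real.sin d2 + c2 * Real.sin d1) := by
    rw [Real.sin_add]
    nlinarith [mul_le_mul_of_nonneg_right w1 s2, mul_le_mul_of_nonneg_right w2 s1]
  have hid : Real.sin (d1 + d2) ^ 2 =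
      Real.sin d1 ^ 2 + Real.sin d2 ^ 2 + 2 * Real.sin d1 * Real.sin d2 * (c2 * c1) := by
    rw [← hadj, Real.sin_add, Real.cos_add]
    linear_combination (Real.sin d1 ^ 2) * Real.sin_sq_add_cos_sq d2 +
      (Real.sin d2 ^ 2) * Real.sin_sq_add_cos_sq d1
  have hRR : y0 ^ 2 = 1 + R ^ 2 := by
    rw [e1, e2] at hy1
    linear_combination (-1 : ℝ) * hy1 + R ^ 2 * Real.sin_sq_add_cos_sq s
  exact bound_aux hc0 hc1 hR hy0 s1 s2 sS a0 b0 hc1' hc2' hS hid hRR

end Pool.Agent.Lib.MP_6d95fe_co
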