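import Mathlib
import Pool.Agent.Lib.MP_6d95fe_co.Datum

set_option autoImplicit false

open scoped UpperHalfPlane

namespace Pool.Agent.Lib.MP_6d95fe_co

theorem ty_eq {r : ℕ} (i : Ix r) : ty i = (i.val : ZMod 8) := by
  unfold ty
  rw [ZMod.castHom_apply, ZMod.cast_eq_val]

theorem ty_val {r : ℕ} (i : Ix r) : (ty i).val = i.val % 8 := by
  rw [ty_eq, ZMod.val_natCast]

theorem gram_lt {b : ℝ} (hb : 0 < b) (hb6 : b ≤ Real.pi / 6) {N : ℕ}
    (hN : 6 * N * b = 2 * Real.pi) {k l : ℕ} (h1 : pos k + bd k + bd l ≤ pos l)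
    (h2 : pos l + bd k + bd l ≤ pos k + 6 * N) : B (vN b k) (vN b l) < -1 := by
  obtain ⟨a0, a1, a2⟩ := cc_facts hb hb6 k
  obtain ⟨b0, b1, b2⟩ := cc_facts hb hb6 l
  have hpi := Real.pi_pos
  have hk : (bd k : ℝ) ≤ 2 := by
    have : bd k ≤ 2 := by unfold bd; split_ifs <;> omega
    exact_mod_cast this
  have hl : (bd l : ℝ) ≤ 2 := by
    have : bd l ≤ 2 := by unfold bd; split_ifs <;> omega
    exact_mod_cast this
  have hk0 : (0 : ℝ) ≤ bd k := Nat.cast_nonneg _
  have hl0 : (0 : ℝ) ≤ bd l := Nat.cast_nonneg _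
  refine B_wall_lt a0 a1 b0 b1 (by positivity) (by nlinarith) (by positivity) (by nlinarith) a2 b2 ?_
  have h1' : (pos k : ℝ) + bd k + bd l ≤ pos l := by exact_mod_cast h1
  have h2' : (pos l : ℝ) + bd k + bd l ≤ pos k + 6 * N := by exact_mod_cast h2
  have e1 : bd k * b + bd l * b ≤ pos l * b - pos k * b := by nlinarith
  have e2 : bd k * b + bd l * b ≤ 2 * Real.pi - (pos l * b - pos k * b) := by nlinarith
  have e0 : 0 ≤ bd k * b + bd l * b := by positivity
  rw [← Real.cos_neg, neg_sub]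
  rcases le_total (pos l * b - pos k * b) Real.pi with h | h
  · exact Real.cos_le_cos_of_nonneg_of_le_pi e0 h e1
  · rw [← Real.cos_two_pi_sub]
    exact Real.cos_le_cos_of_nonneg_of_le_pi e0 (by linarith) e2

theorem vN_unit {b : ℝ} (hb : 0 < b) (hb6 : b ≤ Real.pi / 6) (k : ℕ) :
    B (vN b k) (vN b k) = 1 :=
  B_wall_self _ (cc_facts hb hb6 k).1 (cc_facts hb hb6 k).2.1

theorem vN_pos {b : ℝ} (hb : 0 < b) (hb6 : b ≤ Real.pi / 6) (k : ℕ) : 0 < (vN b k).1 :=
  wall_fst_pos _ (cc_facts hb hb6 k).1 (cc_facts hb hb6 k).2.1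

theorem vN_adj {b : ℝ} (hb : 0 < b) (hb6 : b ≤ Real.pi / 6) (k : ℕ) :
    B (vN b k) (vN b (k + 1)) = 0 := by
  rw [B_comm, vN, vN, B_wall, cc_adj hb hb6, sub_self, zero_div]

theorem vN_odd (b : ℝ) (k : ℕ) (hk : k % 2 = 1) :
    B (vN b k) (vN b (k + 2)) = B (vN b 1) (vN b 3) := by
  have h : k % 4 = 1 ∨ k % 4 = 3 := by omega
  have e0 : Real.cos ((pos 1 : ℝ) * b - pos 3 * b) = Real.cos (3 * b) := by
    rw [← Real.cos_neg]; congr 1; simp [pos]; ring
  rcases h with h | h
  · have e : pos (k + 2) = pos k + 3 := by unfold pos; split_ifs <;> omega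
    have e' : (k + 2) % 4 = 3 := by omega
    have e1 : Real.cos ((pos k : ℝ) * b - pos (k + 2) * b) = Real.cos (3 * b) := by
      rw [← Real.cos_neg, e]; congr 1; push_cast; ring
    simp only [vN, B_wall, e0, e1, cc, h, e']
  · have e : pos (k + 2) = pos k + 3 := by unfold pos; split_ifs <;> omega
    have e' : (k + 2) % 4 = 1 := by omega
    have e1 : Real.cos ((pos k : ℝ) * b - pos (k + 2) * b) = Real.cos (3 * b) := by
      rw [← Real.cos_neg, e]; congr 1; push_cast; ring
    simp only [vN, B_wall, e0, e1, cc, h, e']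
    norm_num
    ring

theorem vN_ne {b : ℝ} (hb : 0 < b) (hb6 : b ≤ Real.pi / 6) (k l : ℕ) (hk : k % 4 = 0)
    (hl : l % 4 = 2) : B (vN b k) (vN b (k + 2)) ≠ B (vN b l) (vN b (l + 2)) := by
  obtain ⟨h1, h2, h3, h4, h5⟩ := cos_chain hb hb6
  have e : pos (k + 2) = pos k + 2 := by unfold pos; split_ifs <;> omega
  have e' : (k + 2) % 4 = 2 := by omega
  have e1 : Real.cos ((pos k : ℝ) * b - pos (k + 2) * b) = Real.cos (2 * b) := by
    rw [← Real.cos_neg, e]; congr 1; push_cast; ring
  have d : pos (l + 2) = pos l + 4 := by unfold pos; split_ifs <;> omega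
  have d' : (l + 2) % 4 = 0 := by omega
  have d1 : Real.cos ((pos l : ℝ) * b - pos (l + 2) * b) = Real.cos (4 * b) := by
    rw [← Real.cos_neg, d]; congr 1; push_cast; ring
  simp only [vN, B_wall, e1, d1, cc, hk, hl, e', d']
  norm_num
  have hs : 0 < 1 - Real.cos (b / 2) ^ 2 := by nlinarith
  have p := Real.sqrt_pos.mpr hs
  intro h
  rw [div_left_inj' (by positivity)] at h
  linarith

theorem exists_datum (r : ℕ) : Nonempty (Datum r) := by
  classical
  have hpi := Real.pi_pos
  obtain ⟨N, hNdef⟩ : ∃ N, N = 2 ^ (r + 1) := ⟨_, rfl⟩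
  have hn : 2 ^ (r + 3) = 4 * N := by rw [hNdef]; ring
  have hN2 : 2 ≤ N := by
    rw [hNdef, pow_succ]
    have := Nat.one_le_two_pow (n := r)
    omega
  have hN2' : (2 : ℝ) ≤ N := by exact_mod_cast hN2
  obtain ⟨b, hbdef⟩ : ∃ b : ℝ, b = Real.pi / (3 * N) := ⟨_, rfl⟩
  have hb : 0 < b := by rw [hbdef]; positivity
  have hN : 6 * N * b = 2 * Real.pi := by rw [hbdef]; field_simp; ring
  have hb6 : b ≤ Real.pi / 6 := by nlinarith
  let v : Ix r → V := fun i => vN b i.val
  have v_add : ∀ (i : Ix r) (m : ℕ), v (i + m) = vN b (i.val + m) := by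
    intro i m
    simp only [v]
    rw [ZMod.val_add, ZMod.val_natCast, Nat.add_mod_mod]
    generalize i.val + m = k
    rw [hn, vN_mod hN]
  have v_succ : ∀ i : Ix r, v (i + 1) = vN b (i.val + 1) := fun i => by
    simpa using v_add i 1
  have v_two : ∀ i : Ix r, v (i + 1) = vN b ((i - 1).val + 2) := fun i => by
    have := v_add (i - 1) 2
    rw [← this]; congr 1; push_cast; ring
  have v_unit : ∀ i, B (v i) (v i) = 1 := fun i => vN_unit hb hb6 _
  have v_pos : ∀ i, 0 < (v i).1 := fun i => vN_pos hb hb6 _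
  have v_adj : ∀ i, B (v i) (v (i + 1)) = 0 := fun i => by
    rw [v_succ]; exact vN_adj hb hb6 _
  have v_adj' : ∀ i, B (v (i - 1)) (v i) = 0 := fun i => by
    have := v_adj (i - 1)
    rwa [sub_add_cancel] at this
  have v_sep0 : ∀ i j : Ix r, i.val < j.val → j ≠ i + 1 → i ≠ j + 1 → B (v i) (v j) < -1 := by
    intro i j hij h1 h2
    have hj : j.val < 4 * N := hn ▸ ZMod.val_lt j
    have h1' : j.val ≠ i.val + 1 := by
      intro h
      apply h1
      rw [← ZMod.natCast_zmod_val j, h]; push_cast; rw [ZMod.natCast_zmod_val]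
    have h2' : ¬ (i.val = 0 ∧ j.val + 1 = 4 * N) := by
      rintro ⟨h, h'⟩
      apply h2
      have e1 : i = 0 := (ZMod.val_eq_zero i).mp h
      have e2 : ((j.val + 1 : ℕ) : Ix r) = 0 := by rw [h', ← hn]; exact ZMod.natCast_self _
      rw [e1, ← e2]; push_cast; rw [ZMod.natCast_zmod_val]
    refine gram_lt hb hb6 hN ?_ ?_
    · unfold pos bd; split_ifs <;> omega
    · unfold pos bd; split_ifs <;> omega
  have v_sep : ∀ i j : Ix r, j ≠ i → j ≠ i + 1 → i ≠ j + 1 → B (v i) (v j) < -1 := by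
    intro i j h0 h1 h2
    rcases lt_trichotomy i.val j.val with h | h | h
    · exact v_sep0 i j h h1 h2
    · exact absurd (ZMod.val_injective _ h).symm h0
    · rw [B_comm]; exact v_sep0 j i h h2 h1
  have hty : ∀ i j : Ix r, ty i ≠ ty j → i ≠ j := fun i j h e => h (by rw [e])
  have tri : ∀ i, Triple (v (i - 1)) (v i) (v (i + 1)) := by
    intro i
    refine ⟨v_unit _, v_unit _, v_unit _, v_adj' i, v_adj i, v_sep _ _ ?_ ?_ ?_,
      by have := v_pos (i - 1); have := v_pos (i + 1); positivity⟩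
    all_goals
      apply hty
      simp only [map_add, map_sub, map_one]
      generalize ty i = a
      revert a; decide
  have hsep : ∀ p : Ix r × Ix r, ∃ k : ℝ, 0 < k ∧ (p.2 ≠ p.1 → p.2 ≠ p.1 + 1 → p.1 ≠ p.2 + 1 →
      ∀ z : ℍ, B (phi z) (v p.1) + B (phi z) (v p.2) ≤ -k) := by
    rintro ⟨i, j⟩
    by_cases h : j ≠ i ∧ j ≠ i + 1 ∧ i ≠ j + 1
    · obtain ⟨k, hk, hk'⟩ := sep_walls (v_unit i) (v_unit j) (v_sep i j h.1 h.2.1 h.2.2)
        (by have := v_pos i; have := v_pos j; positivity)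
      exact ⟨k, hk, fun _ _ _ => hk'⟩
    · exact ⟨1, one_pos, fun h1 h2 h3 => absurd ⟨h1, h2, h3⟩ h⟩
  choose kk hkk0 hkk using hsep
  obtain ⟨p0, hp0⟩ := Finite.exists_min kk
  have hcen : ∀ i, B (phi UpperHalfPlane.I) (v i) < 0 := fun i =>
    B_phi_wall_I _ (cc_facts hb hb6 _).1 (cc_facts hb hb6 _).2.1
  have hLact : ∀ i : Ix r, Act i → B (v (i - 1)) (v (i + 1)) = B (vN b 1) (vN b 3) := by
    intro i hi
    rw [v_two]
    refine vN_odd b _ ?_
    have h1 : (ty (i - 1)).val % 2 = 1 := by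
      simp only [map_sub, map_one]
      rcases hi with h | h | h | h <;> rw [h] <;> decide
    rw [ty_val] at h1
    omega
  refine ⟨{
    f := fun i z => B (phi z) (v i)
    k := kk p0
    k_pos := hkk0 p0
    o := UpperHalfPlane.I
    L := fun i => -B (v (i - 1)) (v (i + 1))
    sep := fun i j h0 h1 h2 z => (hkk (i, j) h0 h1 h2 z).trans (neg_le_neg (hp0 _))
    center := hcen
    compact := ?_
    cont := fun i => continuous_wall _
    half := fun i => exists_bisector (v_unit i) (hcen i)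
    half2 := ?_
    thin := fun i => interior_wall (v_unit i)
    vertex := fun i => vertex_exists (v_unit i) (v_unit _) (v_adj i)
    vertex_unique := fun i y z => vertex_unique (v_unit i) (v_unit _) (v_adj i)
    len := fun i y z => (tri i).length
    rigid := fun i y z => (tri i).rigid
    refl := ?_
    turn := ?_
    rot := ?_
    L_act := fun i j hi hj => by simp only [hLact i hi, hLact j hj]
    L_ne := ?_ }⟩
  · obtain ⟨C, hC⟩ := bounded_of_walls hb hb6
    refine Metric.isCompact_of_isClosed_isBounded ?_ ?_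
    · rw [Set.ofPred_forall]
      exact isClosed_iInter fun i => isClosed_le (continuous_wall _) continuous_const
    · refine (Metric.isBounded_closedBall (x := UpperHalfPlane.I) (r := C)).subset fun z hz => ?_
      have h1 := hC (phi z) (hyp_phi z) fun k => by
        have := hz ((0 : Ix r) + (k : ℕ))
        rwa [v_add, ZMod.val_zero, zero_add] at this
      have h2 := B_phi z UpperHalfPlane.I
      have e : phi UpperHalfPlane.I = (1, 0, 0) := by
        simp only [phi, UpperHalfPlane.I_re, UpperHalfPlane.I_im]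
        norm_num
      rw [e] at h2
      simp only [B] at h2
      have h3 : dist z UpperHalfPlane.I ≤ Real.sinh (dist z UpperHalfPlane.I) :=
        Real.self_le_sinh_iff.mpr dist_nonneg
      have h4 := Real.sinh_lt_cosh (dist z UpperHalfPlane.I)
      rw [Metric.mem_closedBall]
      linarith
  · intro i
    have h2 : (0 : ℝ) < √2 := by positivity
    have hu : B ((√2)⁻¹ • (v i + v (i + 1))) ((√2)⁻¹ • (v i + v (i + 1))) = 1 := by
      simp only [B_smul_left, B_smul_right, B_add_left, B_add_right, v_unit, v_adj,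
        B_comm (v (i + 1)) (v i)]
      have := Real.sq_sqrt (show (0 : ℝ) ≤ 2 by norm_num)
      field_simp
      linarith
    have hinv : (0 : ℝ) < (√2)⁻¹ := inv_pos.mpr h2
    obtain ⟨a, a', hne, h⟩ := exists_bisector hu (o := UpperHalfPlane.I) (by
      rw [B_smul_right, B_add_right]
      exact mul_neg_of_pos_of_neg hinv (by linarith [hcen i, hcen (i + 1)]))
    refine ⟨a, a', hne, fun z => ?_⟩
    obtain ⟨h1, h3⟩ := h z
    rw [B_smul_right, B_add_right] at h1 h3
    refine ⟨h1.trans ⟨fun h => ?_, fun h => mul_nonpos_of_nonneg_of_nonpos hinv.le h⟩,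
      h3.trans ⟨fun h => (mul_eq_zero.mp h).resolve_left hinv.ne', fun h => by rw [h, mul_zero]⟩⟩
    by_contra hc
    have := mul_pos hinv (not_le.mp hc)
    linarith
  · intro i
    obtain ⟨g, hg⟩ := exists_refl (v_unit i)
    refine ⟨g, fun z y => ?_, fun z => ?_, fun z => ?_⟩
    · have h1 := B_phi (g z) y
      rw [hg, B_sub_left, B_smul_left, B_phi, B_comm (v i)] at h1
      linarith
    · rw [hg, B_sub_left, B_smul_left, B_comm (v i), v_adj']; ring
    · rw [hg, B_sub_left, B_smul_left, v_adj]; ring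
  · intro i j hi hj
    have t1 := tri i
    have t2 : Triple (v (i + 1)) (-v i) (v (i - 1)) :=
      ⟨t1.hw, by rw [B_neg_left, B_neg_right, t1.hv]; ring, t1.hu,
        by rw [B_neg_right, B_comm, t1.hvw]; ring, by rw [B_neg_left, B_comm, t1.huv]; ring,
        by rw [B_comm]; exact t1.huw, by linarith [t1.hpos]⟩
    obtain ⟨g, hg⟩ := t2.exists_isom (tri j) (by rw [hLact j hj, B_comm (v (i + 1)), hLact i hi])
    exact ⟨g, fun z => ⟨(hg z).1, by rw [(hg z).2.1, B_neg_right], (hg z).2.2⟩⟩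
  · intro t
    obtain ⟨g, hg⟩ := exists_rot (6 * t.val * b)
    refine ⟨g, fun i z => ?_⟩
    have e : i + 4 * t = i + ((4 * t.val : ℕ) : Ix r) := by
      push_cast; rw [ZMod.natCast_zmod_val]
    rw [e, v_add, vN_add, hg, B_rotV]
  · intro i j hi hj h
    simp only [neg_inj] at h
    rw [v_two, v_two] at h
    refine vN_ne hb hb6 _ _ ?_ ?_ h
    · have h1 : (ty (i - 1)).val % 4 = 0 := by
        simp only [map_sub, map_one]
        rcases hi with h | h <;> rw [h] <;> decide
      rw [ty_val] at h1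
      omega
    · have h1 : (ty (j - 1)).val % 4 = 2 := by
        simp only [map_sub, map_one]
        rcases hj with h | h <;> rw [h] <;> decide
      rw [ty_val] at h1
      omega

end Pool.Agent.Lib.MP_6d95fe_co
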