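import Mathlib

set_option autoImplicit false

open scoped UpperHalfPlane

namespace Pool.Agent.Lib.MP_6d95fe_co

/-- The closed half-plane of the points at least as close to `a` as to `b`. For `a ≠ b` these are
exactly the closed half-planes of the hyperbolic plane. -/
def halfPlane (a b : ℍ) : Set ℍ := {z | dist z a ≤ dist z b}

/-- The bisector of `a` and `b`. For `a ≠ b` it is the geodesic line bounding `halfPlane a b`. -/
def bisector (a b : ℍ) : Set ℍ := {z | dist z a = dist z b}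

/-- A convex polygon: a compact set with non-empty interior that is the intersection of finitely
many closed half-planes. -/
def IsConvexPolygon (P : Set ℍ) : Prop :=
  IsCompact P ∧ (interior P).Nonempty ∧
    ∃ s : Set (ℍ × ℍ), s.Finite ∧ (∀ p ∈ s, p.1 ≠ p.2) ∧ P = ⋂ p ∈ s, halfPlane p.1 p.2

/-- A face of `P`: `P` itself or the intersection of `P` with a supporting line. -/
def IsFace (F P : Set ℍ) : Prop :=
  F = P ∨ ∃ a b : ℍ, a ≠ b ∧ P ⊆ halfPlane a b ∧ F = P ∩ bisector a b

/-- A face-to-face tiling of the hyperbolic plane by convex polygons. -/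
def IsPolygonTiling (T : Set (Set ℍ)) : Prop :=
  T.Countable ∧ ⋃₀ T = Set.univ ∧ (∀ P ∈ T, IsConvexPolygon P) ∧
    (∀ P ∈ T, ∀ Q ∈ T, P ≠ Q → Disjoint (interior P) (interior Q)) ∧
    ∀ P ∈ T, ∀ Q ∈ T, P ∩ Q = ∅ ∨ (IsFace (P ∩ Q) P ∧ IsFace (P ∩ Q) Q)

/-- The `k`-th corona of the tile `P`: the tiles `Q` joined to `P` by a chain
`P = c 0, c 1, …, c m = Q` of tiles with `m ≤ k`, consecutive ones having a common point. -/
def corona (T : Set (Set ℍ)) (P : Set ℍ) (k : ℕ) : Set (Set ℍ) :=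
  {Q | ∃ m ≤ k, ∃ c : ℕ → Set ℍ, c 0 = P ∧ c m = Q ∧ (∀ i ≤ m, c i ∈ T) ∧
    ∀ i < m, (c i ∩ c (i + 1)).Nonempty}

/-- The image of a family of sets under an isometry. -/
def moveFamily (g : ℍ ≃ᵢ ℍ) (S : Set (Set ℍ)) : Set (Set ℍ) := (fun Q => g '' Q) '' S

/-- Condition (b): any two tiles are related by an isometry that also carries the `k`-th corona of
the first onto the `k`-th corona of the second. In particular all tiles are congruent. -/
def CoronasCongruent (T : Set (Set ℍ)) (k : ℕ) : Prop :=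
  ∀ P ∈ T, ∀ Q ∈ T, ∃ g : ℍ ≃ᵢ ℍ, g '' P = Q ∧ moveFamily g (corona T P k) = corona T Q k

/-- The symmetry group of the tiling is transitive on the tiles. -/
def IsIsohedral (T : Set (Set ℍ)) : Prop :=
  ∀ P ∈ T, ∀ Q ∈ T, ∃ g : ℍ ≃ᵢ ℍ, g '' P = Q ∧ moveFamily g T = T

end Pool.Agent.Lib.MP_6d95fe_co
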