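import Mathlib
import Pool.Agent.Lib.MP_6d95fe_co.Datum

set_option autoImplicit false

open scoped UpperHalfPlane

namespace Pool.Agent.Lib.MP_6d95fe_co

/-- Isometries of the hyperbolic plane. -/
abbrev Iso : Type := ℍ ≃ᵢ ℍ

variable {r : ℕ}

theorem ne_of_ty {i j : Ix r} (h : ty i ≠ ty j) : i ≠ j := fun e => h (by rw [e])

theorem ty_two : ty (2 : Ix r) = 2 := map_ofNat ty 2
theorem ty_four : ty (4 : Ix r) = 4 := map_ofNat ty 4

theorem act_succ {i : Ix r} : Act (i + 1) ↔ ¬ Act i := by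
  unfold Act
  simp only [map_add, map_one]
  generalize ty i = a
  revert a; decide

theorem act_pred {i : Ix r} : Act (i - 1) ↔ ¬ Act i := by
  unfold Act
  simp only [map_sub, map_one]
  generalize ty i = a
  revert a; decide

theorem ne_succ_of_act {i j : Ix r} (h : Act i ↔ Act j) : j ≠ i + 1 := by
  rintro rfl
  rw [act_succ] at h
  tauto

theorem succ_ne_pred (i : Ix r) : i + 1 ≠ i - 1 := by
  apply ne_of_ty
  simp only [map_add, map_sub, map_one]
  generalize ty i = a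
  revert a; decide

theorem succ_ne_self (i : Ix r) : i + 1 ≠ i := by
  apply ne_of_ty
  simp only [map_add, map_one]
  generalize ty i = a
  revert a; decide

/-- The admissible gluings of edges. -/
def Glue (i j : Ix r) : Prop :=
  ((ty i = 2 ∨ ty i = 6) ∧ j = 2 * (i - 2)) ∨ ((ty j = 2 ∨ ty j = 6) ∧ i = 2 * (j - 2)) ∨
    (ty i = 4 ∧ j = i) ∨ (¬ Act i ∧ j = i)

theorem Glue.symm {i j : Ix r} (h : Glue i j) : Glue j i := by
  rcases h with h | h | ⟨h, rfl⟩ | ⟨h, rfl⟩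
  · exact Or.inr (Or.inl h)
  · exact Or.inl h
  · exact Or.inr (Or.inr (Or.inl ⟨h, rfl⟩))
  · exact Or.inr (Or.inr (Or.inr ⟨h, rfl⟩))

theorem ty_dbl {i : Ix r} (h : ty i = 2 ∨ ty i = 6) : ty (2 * (i - 2)) = 0 := by
  simp only [map_mul, map_sub, ty_two]
  rcases h with h | h <;> rw [h] <;> decide

theorem Glue.act_iff {i j : Ix r} (h : Glue i j) : Act i ↔ Act j := by
  rcases h with ⟨h, rfl⟩ | ⟨h, rfl⟩ | ⟨h, rfl⟩ | ⟨h, rfl⟩
  · have := ty_dbl h
    unfold Act; tauto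
  · have := ty_dbl h
    unfold Act; tauto
  · rfl
  · rfl

theorem Glue.eq_of_not_act {i j : Ix r} (h : Glue i j) (hi : ¬ Act i) : j = i := by
  rcases h with ⟨h, rfl⟩ | ⟨h, rfl⟩ | ⟨h, rfl⟩ | ⟨h, rfl⟩
  · exfalso; apply hi; unfold Act; tauto
  · exfalso; apply hi; exact Or.inl (ty_dbl h)
  · rfl
  · rfl

theorem exists_glue (i : Ix r) : ∃ j, Glue i j := by
  by_cases h : Act i
  · rcases h with h | h | h | h
    · have h1 : (ty i).val = i.val % 8 := by
        unfold ty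
        rw [ZMod.castHom_apply, ZMod.cast_eq_val, ZMod.val_natCast]
      rw [h, ZMod.val_zero] at h1
      obtain ⟨m, hm⟩ : ∃ m, i.val = 8 * m := ⟨i.val / 8, by omega⟩
      refine ⟨4 * (m : Ix r) + 2, Or.inr (Or.inl ⟨?_, ?_⟩)⟩
      · simp only [map_add, map_mul, ty_two, ty_four]
        generalize ty (m : Ix r) = a
        revert a; decide
      · rw [← ZMod.natCast_zmod_val i, hm]; push_cast; ring
    · exact ⟨_, Or.inl ⟨Or.inl h, rfl⟩⟩
    · exact ⟨_, Or.inr (Or.inr (Or.inl ⟨h, rfl⟩))⟩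
    · exact ⟨_, Or.inl ⟨Or.inr h, rfl⟩⟩
  · exact ⟨_, Or.inr (Or.inr (Or.inr ⟨h, rfl⟩))⟩

open Classical in
/-- Orientation sign of the gluing across an edge. -/
noncomputable def sg (i : Ix r) : Ix r := if Act i then -1 else 1

theorem sg_act {i : Ix r} (h : Act i) : sg i = -1 := if_pos h
theorem sg_not {i : Ix r} (h : ¬ Act i) : sg i = 1 := if_neg h

/-- `g` is the reflection in the wall `u`. -/
def IsRefl (u : ℍ → ℝ) (g : Iso) : Prop :=
  ∀ z y, Real.cosh (dist (g z) y) = Real.cosh (dist z y) + 2 * u z * u y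

theorem IsRefl.unique {u : ℍ → ℝ} {g g' : Iso} (h : IsRefl u g) (h' : IsRefl u g') : g = g' := by
  ext1 z
  apply eq_of_cosh_dist
  rw [h, ← h' z (g' z)]
  simp

theorem IsRefl.neg {u : ℍ → ℝ} {g : Iso} (h : IsRefl u g) (y : ℍ) : u (g y) = -u y := by
  have key : ∀ z, u z * (u y + u (g y)) = 0 := by
    intro z
    have h1 := h z (g y)
    have h2 := h y z
    rw [g.dist_eq] at h1
    rw [dist_comm z (g y), h2, dist_comm y z] at h1
    linarith
  have h1 := key y
  have h2 := key (g y)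
  have : (u y + u (g y)) ^ 2 = 0 := by linear_combination h1 + h2
  have := pow_eq_zero_iff (two_ne_zero) |>.mp this
  linarith

theorem IsRefl.fix {u : ℍ → ℝ} {g : Iso} (h : IsRefl u g) {z : ℍ} (hz : u z = 0) : g z = z := by
  apply eq_of_cosh_dist
  rw [h, hz]; simp

theorem IsRefl.mul_self {u : ℍ → ℝ} {g : Iso} (h : IsRefl u g) : g * g = 1 := by
  ext1 z
  apply eq_of_cosh_dist
  change Real.cosh (dist (g (g z)) z) = 1
  rw [h, h, h.neg]
  simp

theorem IsRefl.inv {u : ℍ → ℝ} {g : Iso} (h : IsRefl u g) : g⁻¹ = g :=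
  inv_eq_of_mul_eq_one_right h.mul_self

namespace Datum

variable (D : Datum r)

/-- The wall functions of the tile placed by `G`. -/
noncomputable def w (G : Iso) (i : Ix r) (z : ℍ) : ℝ := D.f i (G⁻¹ z)

/-- The tile placed by `G`. -/
def tile (G : Iso) : Set ℍ := {z | ∀ i, D.w G i z ≤ 0}

theorem w_mul (H G : Iso) (i : Ix r) (z : ℍ) : D.w (H * G) i z = D.w G i (H⁻¹ z) := by
  simp [w, mul_inv_rev]

theorem w_mul_apply (H G : Iso) (i : Ix r) (z : ℍ) : D.w (H * G) i (H z) = D.w G i z := by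
  simp [w_mul]

theorem w_apply (G : Iso) (i : Ix r) (z : ℍ) : D.w G i (G z) = D.f i z := by
  simp [w]

theorem w_sep (G : Iso) {i j : Ix r} (h0 : j ≠ i) (h1 : j ≠ i + 1) (h2 : i ≠ j + 1) (z : ℍ) :
    D.w G i z + D.w G j z ≤ -D.k := D.sep i j h0 h1 h2 _

theorem w_sep' (G : Iso) {i j : Ix r} (h0 : j ≠ i) (h1 : j ≠ i + 1) (h2 : j ≠ i - 1) (z : ℍ) :
    D.w G i z + D.w G j z ≤ -D.k :=
  D.w_sep G h0 h1 (fun h => h2 (by rw [h]; ring)) z

theorem w_sep_act (G : Iso) {i j : Ix r} (h0 : j ≠ i) (h : Act i ↔ Act j) (z : ℍ) :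
    D.w G i z + D.w G j z ≤ -D.k :=
  D.w_sep G h0 (ne_succ_of_act h) (ne_succ_of_act h.symm) z

/-- `G'` is placed across the edge `i` of `G`, along its own edge `e`. -/
structure Nbr (G : Iso) (i : Ix r) (G' : Iso) (e : Ix r) : Prop where
  gl : Glue i e
  h0 : ∀ z, D.w G' e z = -D.w G i z
  hp : ∀ z, D.w G' (e + 1) z = D.w G (i + sg i) z
  hm : ∀ z, D.w G' (e - 1) z = D.w G (i - sg i) z

variable {D}

theorem Nbr.symm {G G' : Iso} {i e : Ix r} (h : D.Nbr G i G' e) : D.Nbr G' e G i := by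
  refine ⟨h.gl.symm, fun z => by rw [h.h0]; ring, fun z => ?_, fun z => ?_⟩
  · by_cases hi : Act i
    · have := h.hm z
      rw [sg_act hi, sub_neg_eq_add] at this
      rw [sg_act (h.gl.act_iff.mp hi), ← sub_eq_add_neg, this]
    · have := h.hp z
      rw [sg_not hi] at this
      rw [sg_not (mt h.gl.act_iff.mpr hi), this]
  · by_cases hi : Act i
    · have := h.hp z
      rw [sg_act hi, ← sub_eq_add_neg] at this
      rw [sg_act (h.gl.act_iff.mp hi), sub_neg_eq_add, this]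
    · have := h.hm z
      rw [sg_not hi] at this
      rw [sg_not (mt h.gl.act_iff.mpr hi), this]

theorem Nbr.mul {G G' : Iso} {i e : Ix r} (h : D.Nbr G i G' e) (H : Iso) :
    D.Nbr (H * G) i (H * G') e :=
  ⟨h.gl, fun z => by simp only [w_mul, h.h0], fun z => by simp only [w_mul, h.hp],
    fun z => by simp only [w_mul, h.hm]⟩

theorem Nbr.side {G G' : Iso} {i e : Ix r} (h : D.Nbr G i G' e) {k : Ix r}
    (hk : k = e + 1 ∨ k = e - 1) : D.w G' k = D.w G (i + 1) ∨ D.w G' k = D.w G (i - 1) := by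
  by_cases hi : Act i
  · rcases hk with rfl | rfl
    · right; funext z; rw [h.hp, sg_act hi, ← sub_eq_add_neg]
    · left; funext z; rw [h.hm, sg_act hi, sub_neg_eq_add]
  · rcases hk with rfl | rfl
    · left; funext z; rw [h.hp, sg_not hi]
    · right; funext z; rw [h.hm, sg_not hi]

theorem exists_refl_nbr (D : Datum r) (G : Iso) {j : Ix r} (hj : ¬ Act j) :
    ∃ g, IsRefl (D.w G j) g ∧ D.Nbr G j (g * G) j := by
  obtain ⟨g, h1, h2, h3⟩ := D.refl j
  have hg : IsRefl (D.f j) g := h1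
  refine ⟨G * g * G⁻¹, fun z y => ?_, ?_⟩
  · have e1 : dist ((G * g * G⁻¹) z) y = dist (g (G⁻¹ z)) (G⁻¹ y) := by
      rw [← (G⁻¹).dist_eq]; simp
    rw [e1, h1, (G⁻¹).dist_eq]; rfl
  · have e : ∀ i z, D.w (G * g * G⁻¹ * G) i z = D.f i (g (G⁻¹ z)) := by
      intro i z
      simp [w, mul_inv_rev, hg.inv]
    refine ⟨Or.inr (Or.inr (Or.inr ⟨hj, rfl⟩)), fun z => ?_, fun z => ?_, fun z => ?_⟩
    · rw [e, hg.neg]; rfl
    · rw [e, h3, sg_not hj]; rfl
    · rw [e, h2, sg_not hj]; rfl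

theorem nbr_of_refl {G g : Iso} {j : Ix r} (hj : ¬ Act j) (hg : IsRefl (D.w G j) g) :
    D.Nbr G j (g * G) j := by
  obtain ⟨g', h1, h2⟩ := D.exists_refl_nbr G hj
  rwa [hg.unique h1]

theorem exists_nbr (D : Datum r) (i : Ix r) : ∃ e h, D.Nbr 1 i h e := by
  by_cases hi : Act i
  · obtain ⟨e, he⟩ := exists_glue i
    obtain ⟨g, hg⟩ := D.turn i e hi (he.act_iff.mp hi)
    refine ⟨e, g⁻¹, he, fun z => ?_, fun z => ?_, fun z => ?_⟩
    · simpa [w] using (hg z).2.1
    · rw [sg_act hi, ← sub_eq_add_neg]; simpa [w] using (hg z).2.2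
    · rw [sg_act hi, sub_neg_eq_add]; simpa [w] using (hg z).1
  · obtain ⟨g, -, h⟩ := D.exists_refl_nbr 1 hi
    exact ⟨i, _, h⟩

variable (D)

/-- The default entry edge. -/
noncomputable def ent (i : Ix r) : Ix r := (D.exists_nbr i).choose

/-- The default gluing isometry. -/
noncomputable def hh (i : Ix r) : Iso := (D.exists_nbr i).choose_spec.choose

theorem hh_spec (i : Ix r) : D.Nbr 1 i (D.hh i) (D.ent i) :=
  (D.exists_nbr i).choose_spec.choose_spec

/-- The placement of a node of the tree. -/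
noncomputable def pl : List (Ix r) → Iso
  | [] => 1
  | i :: l => pl l * D.hh i

/-- Nodes of the tree. -/
def Valid : List (Ix r) → Prop
  | [] => True
  | i :: l => Act i ∧ Valid l ∧ ∀ j l', l = j :: l' → i ≠ D.ent j

/-- Adjacency in the tree. -/
def TAdj (l : List (Ix r)) (i : Ix r) (l' : List (Ix r)) (e : Ix r) : Prop :=
  (l' = i :: l ∧ e = D.ent i ∧ D.Valid l') ∨ (l = e :: l' ∧ i = D.ent e ∧ D.Valid l)

variable {D}

theorem TAdj.symm {l l' : List (Ix r)} {i e : Ix r} (h : D.TAdj l i l' e) : D.TAdj l' e l i :=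
  Or.symm h

theorem TAdj.nbr {l l' : List (Ix r)} {i e : Ix r} (h : D.TAdj l i l' e) :
    D.Nbr (D.pl l) i (D.pl l') e := by
  rcases h with ⟨rfl, rfl, -⟩ | ⟨rfl, rfl, -⟩
  · simpa [pl] using (D.hh_spec i).mul (D.pl l)
  · simpa [pl] using ((D.hh_spec e).mul (D.pl l')).symm

theorem TAdj.valid {l l' : List (Ix r)} {i e : Ix r} (h : D.TAdj l i l' e) : D.Valid l' := by
  rcases h with ⟨rfl, rfl, h⟩ | ⟨rfl, rfl, h⟩
  · exact h
  · exact h.2.1

theorem TAdj.act {l l' : List (Ix r)} {i e : Ix r} (h : D.TAdj l i l' e) : Act i := by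
  have hn := h.nbr
  rcases h with ⟨rfl, rfl, h⟩ | ⟨rfl, rfl, h⟩
  · exact h.1
  · exact hn.gl.act_iff.mpr h.1

theorem TAdj.det {l l1 l2 : List (Ix r)} {i e1 e2 : Ix r} (h1 : D.TAdj l i l1 e1)
    (h2 : D.TAdj l i l2 e2) : l1 = l2 := by
  rcases h1 with ⟨rfl, rfl, h1⟩ | ⟨rfl, rfl, h1⟩ <;> rcases h2 with ⟨h2, h3, h4⟩ | ⟨h2, h3, h4⟩
  · exact h2.symm
  · exact absurd h3 (h1.2.2 _ _ h2)
  · subst h2
    exact absurd rfl (h4.2.2 _ _ rfl)
  · exact (List.cons.inj h2).2

theorem exists_tadj {l : List (Ix r)} (hl : D.Valid l) {i : Ix r} (hi : Act i) :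
    ∃ l' e, D.TAdj l i l' e := by
  by_cases h : ∃ j l', l = j :: l' ∧ i = D.ent j
  · obtain ⟨j, l', h1, h2⟩ := h
    exact ⟨l', j, Or.inr ⟨h1, h2, hl⟩⟩
  · exact ⟨i :: l, D.ent i, Or.inl ⟨rfl, rfl, hi, hl, fun j l' h1 h2 => h ⟨j, l', h1, h2⟩⟩⟩

variable (D) in
/-- Non-backtracking paths in the tree. -/
inductive Bey (l : List (Ix r)) (i : Ix r) : List (Ix r) → Ix r → Prop
  | base {l' : List (Ix r)} {e : Ix r} : D.TAdj l i l' e → Bey l i l' e
  | step {l' l'' : List (Ix r)} {e k e' : Ix r} :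
      Bey l i l' e → k ≠ e → D.TAdj l' k l'' e' → Bey l i l'' e'

theorem Bey.act {l l' : List (Ix r)} {i e : Ix r} (h : D.Bey l i l' e) : Act e := by
  cases h with
  | base h => exact h.symm.act
  | step _ _ h => exact h.symm.act

theorem Bey.act0 {l l' : List (Ix r)} {i e : Ix r} (h : D.Bey l i l' e) : Act i := by
  induction h with
  | base h => exact h.act
  | step _ _ _ ih => exact ih

theorem Bey.b1 {l l' : List (Ix r)} {i e : Ix r} (h : D.Bey l i l' e) :
    (∀ z, -D.w (D.pl l') e z ≤ D.w (D.pl l) i z) ∧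
    (D.TAdj l i l' e ∨ ∀ z, -D.w (D.pl l') e z ≤ D.w (D.pl l) i z - D.k) := by
  induction h with
  | base h => exact ⟨fun z => by rw [h.nbr.h0]; simp, Or.inl h⟩
  | @step l' l'' e k e' h1 h2 h3 ih =>
    have key : ∀ z, -D.w (D.pl l'') e' z ≤ D.w (D.pl l) i z - D.k := by
      intro z
      have a1 := h3.nbr.h0 z
      have a2 := D.w_sep_act (D.pl l') h2 (iff_of_true h1.act h3.act) z
      have a3 := ih.1 z
      linarith
    exact ⟨fun z => by linarith [key z, D.k_pos], Or.inr key⟩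

theorem Bey.b2 {l l' : List (Ix r)} {i e : Ix r} (h : D.Bey l i l' e) :
    ∀ k, ¬ Act k → D.w (D.pl l') k = D.w (D.pl l) (i + 1) ∨
      D.w (D.pl l') k = D.w (D.pl l) (i - 1) ∨
      ∀ z, D.w (D.pl l') k z ≤ D.w (D.pl l) i z - D.k := by
  have far : ∀ {l' : List (Ix r)} {e : Ix r}, D.Bey l i l' e → ∀ k, ¬ Act k →
      ¬ (k = e + 1 ∨ k = e - 1) → ∀ z, D.w (D.pl l') k z ≤ D.w (D.pl l) i z - D.k := by
    intro l' e h k hk hne z
    have a1 := h.b1.1 z
    have a2 := D.w_sep' (D.pl l') (i := e) (j := k) (fun h' => hk (h' ▸ h.act))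
      (fun h' => hne (Or.inl h')) (fun h' => hne (Or.inr h')) z
    linarith
  induction h with
  | @base l' e h =>
    intro k hk
    by_cases hne : k = e + 1 ∨ k = e - 1
    · rcases h.nbr.side hne with h | h
      · exact Or.inl h
      · exact Or.inr (Or.inl h)
    · exact Or.inr (Or.inr (far (Bey.base h) k hk hne))
  | @step l' l'' e k0 e' h1 h2 h3 ih =>
    intro k hk
    by_cases hne : k = e' + 1 ∨ k = e' - 1
    · rcases h3.nbr.side hne with h | h
      · rw [h]; exact ih _ (by rw [act_succ, not_not]; exact h3.act)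
      · rw [h]; exact ih _ (by rw [act_pred, not_not]; exact h3.act)
    · exact Or.inr (Or.inr (far (Bey.step h1 h2 h3) k hk hne))

theorem Bey.cons {l0 l l' : List (Ix r)} {i0 e0 i e : Ix r} (h0 : D.TAdj l0 i0 l e0)
    (hne : i ≠ e0) (h : D.Bey l i l' e) : D.Bey l0 i0 l' e := by
  induction h with
  | base h => exact Bey.step (Bey.base h0) hne h
  | step _ h2 h3 ih => exact Bey.step ih h2 h3

theorem Bey.rev {l l' : List (Ix r)} {i e : Ix r} (h : D.Bey l i l' e) : D.Bey l' e l i := by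
  induction h with
  | base h => exact Bey.base h.symm
  | step _ h2 h3 ih => exact Bey.cons h3.symm h2.symm ih

theorem mir_same (G : Iso) {j k : Ix r} (hj : ¬ Act j) (hk : ¬ Act k) :
    D.w G j = D.w G k ∨ ∀ z, D.w G j z + D.w G k z ≤ -D.k := by
  by_cases h : k = j
  · left; rw [h]
  · right; exact D.w_sep_act G h (iff_of_false hj hk)

theorem Bey.b3 {l l' : List (Ix r)} {i e : Ix r} (h : D.Bey l i l' e) {j : Ix r} (hj : ¬ Act j) :
    ∀ k, ¬ Act k → D.w (D.pl l) j = D.w (D.pl l') k ∨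
      ∀ z, D.w (D.pl l) j z + D.w (D.pl l') k z ≤ -D.k := by
  have far : ∀ {l' : List (Ix r)} {e : Ix r}, D.Bey l i l' e → ∀ k, ¬ Act k →
      ¬ (k = e + 1 ∨ k = e - 1) → D.w (D.pl l) j = D.w (D.pl l') k ∨
      ∀ z, D.w (D.pl l) j z + D.w (D.pl l') k z ≤ -D.k := by
    intro l' e h k hk hne
    rcases h.rev.b2 j hj with h1 | h1 | h1
    · rw [h1]; exact mir_same _ (by rw [act_succ, not_not]; exact h.act) hk
    · rw [h1]; exact mir_same _ (by rw [act_pred, not_not]; exact h.act) hk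
    · right
      intro z
      have a1 := h1 z
      have a2 := D.w_sep' (D.pl l') (i := e) (j := k) (fun h' => hk (h' ▸ h.act))
        (fun h' => hne (Or.inl h')) (fun h' => hne (Or.inr h')) z
      linarith [D.k_pos]
  induction h with
  | @base l' e h =>
    intro k hk
    by_cases hne : k = e + 1 ∨ k = e - 1
    · rcases h.nbr.side hne with h' | h'
      · rw [h']; exact mir_same _ hj (by rw [act_succ, not_not]; exact h.act)
      · rw [h']; exact mir_same _ hj (by rw [act_pred, not_not]; exact h.act)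
    · exact far (Bey.base h) k hk hne
  | @step l' l'' e k0 e' h1 h2 h3 ih =>
    intro k hk
    by_cases hne : k = e' + 1 ∨ k = e' - 1
    · rcases h3.nbr.side hne with h | h
      · rw [h]; exact ih _ (by rw [act_succ, not_not]; exact h3.act)
      · rw [h]; exact ih _ (by rw [act_pred, not_not]; exact h3.act)
    · exact far (Bey.step h1 h2 h3) k hk hne

theorem conn_step {l1 l2 l3 : List (Ix r)} {k e' : Ix r}
    (h : l1 = l2 ∨ ∃ i e, D.Bey l1 i l2 e) (h3 : D.TAdj l2 k l3 e') :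
    l1 = l3 ∨ ∃ i e, D.Bey l1 i l3 e := by
  rcases h with rfl | ⟨i, e, h⟩
  · exact Or.inr ⟨_, _, Bey.base h3⟩
  · by_cases hk : k = e
    · subst hk
      cases h with
      | base h => exact Or.inl (h.symm.det h3)
      | step h1 _ h2 =>
        rw [← h2.symm.det h3]
        exact Or.inr ⟨_, _, h1⟩
    · exact Or.inr ⟨_, _, Bey.step h hk h3⟩

theorem conn {l1 l2 : List (Ix r)} (h1 : D.Valid l1) (h2 : D.Valid l2) :
    l1 = l2 ∨ ∃ i e, D.Bey l1 i l2 e := by
  have key : ∀ l : List (Ix r), D.Valid l →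
      ((l1 = l ∨ ∃ i e, D.Bey l1 i l e) ↔ (l1 = [] ∨ ∃ i e, D.Bey l1 i [] e)) := by
    intro l
    induction l with
    | nil => intro _; rfl
    | cons i l ih =>
      intro hl
      have ha : D.TAdj l i (i :: l) (D.ent i) := Or.inl ⟨rfl, rfl, hl⟩
      rw [← ih hl.2.1]
      exact ⟨fun h => conn_step h ha.symm, fun h => conn_step h ha⟩
  exact (key l2 h2).mpr ((key l1 h1).mp (Or.inl rfl))

end Datum

end Pool.Agent.Lib.MP_6d95fe_co
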