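import Mathlib
import Pool.Agent.Lib.MP_6d95fe_co.Tree

set_option autoImplicit false

open scoped UpperHalfPlane

namespace Pool.Agent.Lib.MP_6d95fe_co

namespace Datum

variable {r : ℕ} (D : Datum r)

/-- Mirror walls of the tree of tiles, with their reflections. -/
def Mir (u : ℍ → ℝ) (g : Iso) : Prop :=
  ∃ l j, D.Valid l ∧ ¬ Act j ∧ u = D.w (D.pl l) j ∧ IsRefl u g

/-- The reflection group. -/
noncomputable def W : Subgroup Iso := Subgroup.closure {g | ∃ u, D.Mir u g}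

/-- Placements of the tiles of the tiling. -/
def Dec (G : Iso) : Prop := ∃ g ∈ D.W, ∃ l, D.Valid l ∧ G = g * D.pl l

/-- The fundamental domain of the reflection group. -/
def Om : Set ℍ := {z | ∀ u g, D.Mir u g → u z ≤ 0}

/-- Reduced words in the reflections, with their first letter. -/
inductive Red : Iso → (ℍ → ℝ) → Prop
  | base {u : ℍ → ℝ} {g : Iso} : D.Mir u g → Red g u
  | cons {u u' : ℍ → ℝ} {g h : Iso} : D.Mir u g → Red h u' → u ≠ u' → Red (g * h) u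

variable {D}

theorem Mir.refl {u : ℍ → ℝ} {g : Iso} (h : D.Mir u g) : IsRefl u g := by
  obtain ⟨l, j, -, -, -, h⟩ := h
  exact h

theorem Mir.mem {u : ℍ → ℝ} {g : Iso} (h : D.Mir u g) : g ∈ D.W :=
  Subgroup.subset_closure ⟨u, h⟩

theorem Mir.sep {u u' : ℍ → ℝ} {g g' : Iso} (h : D.Mir u g) (h' : D.Mir u' g') (hne : u ≠ u')
    (z : ℍ) : u z + u' z ≤ -D.k := by
  obtain ⟨l, j, hl, hj, rfl, -⟩ := h
  obtain ⟨l', j', hl', hj', rfl, -⟩ := h'
  rcases conn hl hl' with rfl | ⟨i, e, hb⟩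
  · exact ((mir_same _ hj hj').resolve_left hne) z
  · exact ((hb.b3 hj j' hj').resolve_left hne) z

theorem Red.mir {g : Iso} {u : ℍ → ℝ} (h : D.Red g u) : ∃ g', D.Mir u g' := by
  cases h with
  | base h => exact ⟨_, h⟩
  | cons h _ _ => exact ⟨_, h⟩

theorem red_of_mem {g : Iso} (hg : g ∈ D.W) : g = 1 ∨ ∃ u, D.Red g u := by
  have key : ∀ (u : ℍ → ℝ) (s g : Iso), D.Mir u s → (g = 1 ∨ ∃ u, D.Red g u) →
      (s * g = 1 ∨ ∃ u, D.Red (s * g) u) := by
    rintro u s g hs (rfl | ⟨u', h⟩)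
    · exact Or.inr ⟨u, by rw [mul_one]; exact Red.base hs⟩
    · by_cases hne : u = u'
      · subst hne
        cases h with
        | base h => left; rw [hs.refl.unique h.refl]; exact h.refl.mul_self
        | cons h h1 _ =>
          right
          rw [hs.refl.unique h.refl, ← mul_assoc, h.refl.mul_self, one_mul]
          exact ⟨_, h1⟩
      · exact Or.inr ⟨u, Red.cons hs h hne⟩
  induction hg using Subgroup.closure_induction_left with
  | one => exact Or.inl rfl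
  | mul_left x hx y _ ih =>
    obtain ⟨u, hu⟩ := hx
    exact key u x y hu ih
  | inv_mul_cancel x hx y _ ih =>
    obtain ⟨u, hu⟩ := hx
    rw [hu.refl.inv]
    exact key u x y hu ih

theorem Red.pp {g : Iso} {u : ℍ → ℝ} (h : D.Red g u) {z : ℍ} (hz : z ∈ D.Om) :
    0 ≤ u (g z) ∧ (D.Mir u g ∨ D.k ≤ u (g z)) := by
  induction h with
  | base h => exact ⟨by rw [h.refl.neg]; linarith [hz _ _ h], Or.inl h⟩
  | @cons u u' g h h1 h2 h3 ih =>
    obtain ⟨g', hg'⟩ := h2.mir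
    have a1 := h1.sep hg' h3 (h z)
    have a2 : u ((g * h) z) = -u (h z) := h1.refl.neg _
    have a3 := ih.1
    exact ⟨by linarith [D.k_pos], Or.inr (by linarith)⟩

theorem tile_subset_Om {l : List (Ix r)} (hl : D.Valid l) : D.tile (D.pl l) ⊆ D.Om := by
  rintro z hz u g ⟨l', j, hl', hj, rfl, -⟩
  rcases conn hl hl' with rfl | ⟨i, e, hb⟩
  · exact hz j
  · rcases hb.b2 j hj with h | h | h
    · rw [h]; exact hz _
    · rw [h]; exact hz _
    · linarith [h z, hz i, D.k_pos]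

theorem no_descent {k : ℝ} (hk : 0 < k) (P : ℝ → Prop) (hpos : ∀ x, P x → 0 < x)
    (hstep : ∀ x, P x → ∃ y, P y ∧ y ≤ x - k) (x : ℝ) : ¬ P x := by
  intro hx
  have key : ∀ n : ℕ, ∃ y, P y ∧ y ≤ x - n * k := by
    intro n
    induction n with
    | zero => exact ⟨x, hx, by simp⟩
    | succ n ih =>
      obtain ⟨y, hy, hy'⟩ := ih
      obtain ⟨y', h1, h2⟩ := hstep y hy
      exact ⟨y', h1, by push_cast; linarith⟩
  obtain ⟨n, hn⟩ := exists_nat_gt (x / k)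
  obtain ⟨y, hy, hy'⟩ := key n
  rw [div_lt_iff₀ hk] at hn
  linarith [hpos y hy]

theorem exists_tile_of_Om {z : ℍ} (hz : z ∈ D.Om) : ∃ l, D.Valid l ∧ z ∈ D.tile (D.pl l) := by
  by_contra hcon
  have viol : ∀ l, D.Valid l → ∃ i, Act i ∧ 0 < D.w (D.pl l) i z := by
    intro l hl
    by_contra h
    refine hcon ⟨l, hl, fun i => ?_⟩
    by_cases hi : Act i
    · by_contra h'
      exact h ⟨i, hi, not_le.mp h'⟩
    · obtain ⟨g, hg, -⟩ := D.exists_refl_nbr (D.pl l) hi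
      exact hz _ g ⟨l, i, hl, hi, rfl, hg⟩
  obtain ⟨i0, hi0, h0⟩ := viol [] trivial
  refine no_descent D.k_pos (fun x => 0 < x ∧ ∃ l i, D.Valid l ∧ Act i ∧ x = D.w (D.pl l) i z)
    (fun x hx => hx.1) ?_ _ ⟨h0, [], i0, trivial, hi0, rfl⟩
  rintro x ⟨hx, l, i, hl, hi, rfl⟩
  obtain ⟨l', e, ha⟩ := exists_tadj hl hi
  obtain ⟨k, hk, hk0⟩ := viol l' ha.valid
  have a1 := ha.nbr.h0 z
  have hne : k ≠ e := by
    rintro rfl
    linarith
  have a2 := D.w_sep_act (D.pl l') hne (iff_of_true ha.symm.act hk) z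
  exact ⟨_, ⟨hk0, l', k, ha.valid, hk, rfl⟩, by linarith⟩

theorem exists_mem_Om (z : ℍ) : ∃ g ∈ D.W, g z ∈ D.Om := by
  by_contra hcon
  have viol : ∀ g ∈ D.W, ∃ u s, D.Mir u s ∧ 0 < u (g z) := by
    intro g hg
    by_contra h
    refine hcon ⟨g, hg, fun u s hs => ?_⟩
    by_contra h'
    exact h ⟨u, s, hs, not_le.mp h'⟩
  obtain ⟨u0, s0, hs0, h0⟩ := viol 1 D.W.one_mem
  refine no_descent D.k_pos (fun x => 0 < x ∧ ∃ g ∈ D.W, ∃ u s, D.Mir u s ∧ x = u (g z))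
    (fun x hx => hx.1) ?_ _ ⟨h0, 1, D.W.one_mem, u0, s0, hs0, rfl⟩
  rintro x ⟨hx, g, hg, u, s, hs, rfl⟩
  have hm := D.W.mul_mem hs.mem hg
  obtain ⟨u', s', hs', h'⟩ := viol _ hm
  have a1 : u ((s * g) z) = -u (g z) := hs.refl.neg _
  have hne : u ≠ u' := by
    rintro rfl
    linarith
  have a2 := hs.sep hs' hne ((s * g) z)
  exact ⟨_, ⟨h', _, hm, u', s', hs', rfl⟩, by linarith⟩

theorem mem_tile_mul {H G : Iso} {z : ℍ} : z ∈ D.tile (H * G) ↔ H⁻¹ z ∈ D.tile G := by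
  simp only [tile, Set.mem_ofPred_eq, w_mul]

theorem image_tile (H G : Iso) : H '' D.tile G = D.tile (H * G) := by
  ext z
  rw [mem_tile_mul]
  constructor
  · rintro ⟨y, hy, rfl⟩; simpa using hy
  · intro h; exact ⟨_, h, by simp⟩

theorem cover (z : ℍ) : ∃ G, D.Dec G ∧ z ∈ D.tile G := by
  obtain ⟨g, hg, h⟩ := exists_mem_Om (D := D) z
  obtain ⟨l, hl, h'⟩ := exists_tile_of_Om h
  exact ⟨g⁻¹ * D.pl l, ⟨g⁻¹, D.W.inv_mem hg, l, hl, rfl⟩, by rw [mem_tile_mul, inv_inv]; exact h'⟩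

theorem Dec.mul {G g : Iso} (h : D.Dec G) (hg : g ∈ D.W) : D.Dec (g * G) := by
  obtain ⟨g', hg', l, hl, rfl⟩ := h
  exact ⟨g * g', D.W.mul_mem hg hg', l, hl, (mul_assoc _ _ _).symm⟩

theorem dec_pl {l : List (Ix r)} (hl : D.Valid l) : D.Dec (D.pl l) :=
  ⟨1, D.W.one_mem, l, hl, (one_mul _).symm⟩

theorem Dec.exists_nbr {G : Iso} (h : D.Dec G) (i : Ix r) : ∃ G' e, D.Dec G' ∧ D.Nbr G i G' e := by
  obtain ⟨g, hg, l, hl, rfl⟩ := h
  by_cases hi : Act i
  · obtain ⟨l', e, ha⟩ := exists_tadj hl hi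
    exact ⟨_, e, (dec_pl ha.valid).mul hg, ha.nbr.mul g⟩
  · obtain ⟨s, hs, hn⟩ := D.exists_refl_nbr (D.pl l) hi
    have hm : D.Mir _ s := ⟨l, i, hl, hi, rfl, hs⟩
    exact ⟨_, i, ((dec_pl hl).mul hm.mem).mul hg, hn.mul g⟩

variable (D) in
/-- `G'` is placed diagonally opposite to `G` at the common vertex of the edges `i`, `j`. -/
def Diag (G G' : Iso) : Prop :=
  ∃ G1 i e j j', D.Dec G1 ∧ D.Nbr G i G1 e ∧ D.Nbr G1 j' G' j' ∧ (j = i + 1 ∨ j = i - 1) ∧
    (j' = e + 1 ∨ j' = e - 1) ∧ D.w G1 j' = D.w G j ∧ ¬ Act j'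

theorem tree_touch {l l' : List (Ix r)} (hl : D.Valid l) (hl' : D.Valid l') {z : ℍ}
    (hz : z ∈ D.tile (D.pl l)) (hz' : z ∈ D.tile (D.pl l')) : l = l' ∨ ∃ i e, D.TAdj l i l' e := by
  rcases conn hl hl' with h | ⟨i, e, hb⟩
  · exact Or.inl h
  · rcases hb.b1.2 with h | h
    · exact Or.inr ⟨i, e, h⟩
    · exfalso
      linarith [h z, hz i, hz' e, D.k_pos]

theorem classify0 {l l' : List (Ix r)} (hl : D.Valid l) (hl' : D.Valid l') {g : Iso}
    (hg : g ∈ D.W) {z : ℍ} (hz : z ∈ D.tile (D.pl l)) (hz' : z ∈ D.tile (g * D.pl l')) :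
    g * D.pl l' = D.pl l ∨ (∃ i e, D.Nbr (D.pl l) i (g * D.pl l') e) ∨
      D.Diag (D.pl l) (g * D.pl l') := by
  rcases red_of_mem hg with rfl | ⟨u, hu⟩
  · rw [one_mul] at hz' ⊢
    rcases tree_touch hl hl' hz hz' with rfl | ⟨i, e, h⟩
    · exact Or.inl rfl
    · exact Or.inr (Or.inl ⟨i, e, h.nbr⟩)
  · right
    rw [mem_tile_mul] at hz'
    obtain ⟨a1, a2⟩ := hu.pp (tile_subset_Om hl' hz')
    have e1 : g (g⁻¹ z) = z := by simp
    rw [e1] at a1 a2
    obtain ⟨g', hg'⟩ := hu.mir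
    have a3 := tile_subset_Om hl hz _ _ hg'
    have hm : D.Mir u g := a2.resolve_right (by linarith [D.k_pos])
    have hu0 : u z = 0 := le_antisymm a3 a1
    rw [hm.refl.inv, hm.refl.fix hu0] at hz'
    obtain ⟨j, hj, hju⟩ : ∃ j, ¬ Act j ∧ u = D.w (D.pl l) j := by
      obtain ⟨l2, j2, hl2, hj2, rfl, -⟩ := hm
      rcases conn hl hl2 with rfl | ⟨i, e, hb⟩
      · exact ⟨j2, hj2, rfl⟩
      · rcases hb.b2 j2 hj2 with h | h | h
        · exact ⟨_, by rw [act_succ, not_not]; exact hb.act0, h⟩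
        · exact ⟨_, by rw [act_pred, not_not]; exact hb.act0, h⟩
        · exfalso
          linarith [h z, hz i, D.k_pos]
    have hr := hm.refl
    rw [hju] at hr hu0
    rcases tree_touch hl hl' hz hz' with rfl | ⟨i, e, h⟩
    · exact Or.inl ⟨j, j, nbr_of_refl hj hr⟩
    · right
      have hi0 : D.w (D.pl l) i z = 0 := by
        have := h.nbr.h0 z
        linarith [hz i, hz' e]
      have hadj : j = i + 1 ∨ j = i - 1 := by
        by_contra hc
        have := D.w_sep' (D.pl l) (i := i) (j := j) (fun h' => hj (h' ▸ h.act))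
          (fun h' => hc (Or.inl h')) (fun h' => hc (Or.inr h')) z
        linarith [D.k_pos]
      have hae := h.symm.act
      rcases h.nbr.symm.side hadj with h' | h'
      · have hj' : ¬ Act (e + 1) := by rw [act_succ, not_not]; exact hae
        exact ⟨_, i, e, j, e + 1, dec_pl hl', h.nbr, nbr_of_refl hj' (h' ▸ hr), hadj, Or.inl rfl,
          h'.symm, hj'⟩
      · have hj' : ¬ Act (e - 1) := by rw [act_pred, not_not]; exact hae
        exact ⟨_, i, e, j, e - 1, dec_pl hl', h.nbr, nbr_of_refl hj' (h' ▸ hr), hadj, Or.inr rfl,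
          h'.symm, hj'⟩

theorem classify {G G' : Iso} (h : D.Dec G) (h' : D.Dec G') {z : ℍ} (hz : z ∈ D.tile G)
    (hz' : z ∈ D.tile G') : G' = G ∨ (∃ i e, D.Nbr G i G' e) ∨ D.Diag G G' := by
  obtain ⟨g, hg, l, hl, rfl⟩ := h
  obtain ⟨g', hg', l', hl', rfl⟩ := h'
  have e : g' * D.pl l' = g * (g⁻¹ * g' * D.pl l') := by group
  rw [e] at hz' ⊢
  rw [mem_tile_mul] at hz hz'
  rcases classify0 hl hl' (D.W.mul_mem (D.W.inv_mem hg) hg') hz hz' with
    h | ⟨i, e, h⟩ | ⟨G1, i, e, j, j', h1, h2, h3, h4, h5, h6, h7⟩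
  · left; rw [h]
  · exact Or.inr (Or.inl ⟨i, e, h.mul g⟩)
  · refine Or.inr (Or.inr ⟨g * G1, i, e, j, j', h1.mul hg, h2.mul g, h3.mul g, h4, h5, ?_, h7⟩)
    funext y
    simp only [w_mul, h6]

theorem Diag.walls {G G' : Iso} (h : D.Diag G G') : ∃ i j e j', (j = i + 1 ∨ j = i - 1) ∧
    (j' = e + 1 ∨ j' = e - 1) ∧ (∀ z, D.w G' e z = -D.w G i z) ∧
    ∀ z, D.w G' j' z = -D.w G j z := by
  obtain ⟨G1, i, e, j, j', h1, h2, h3, h4, h5, h6, h7⟩ := h
  refine ⟨i, j, e, j', h4, h5, fun z => ?_, fun z => by rw [h3.h0, h6]⟩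
  rw [← h2.h0]
  rcases h5 with h5 | h5
  · have := h3.hm z
    rwa [sg_not h7, h5, add_sub_cancel_right] at this
  · have := h3.hp z
    rwa [sg_not h7, h5, sub_add_cancel] at this

theorem opp_walls {G G' : Iso} (h : D.Dec G) (h' : D.Dec G') {z : ℍ} (hz : z ∈ D.tile G)
    (hz' : z ∈ D.tile G') (hne : G' ≠ G) : ∃ i e, ∀ y, D.w G' e y = -D.w G i y := by
  rcases classify h h' hz hz' with h | ⟨i, e, h⟩ | h
  · exact absurd h hne
  · exact ⟨i, e, h.h0⟩
  · obtain ⟨i, j, e, j', -, -, h, -⟩ := h.walls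
    exact ⟨i, e, h⟩

theorem center_mem (G : Iso) (i : Ix r) : D.w G i (G D.o) < 0 := by
  rw [w_apply]; exact D.center i

theorem dec_eq_of_tile {G G' : Iso} (h : D.Dec G) (h' : D.Dec G') (e : D.tile G = D.tile G') :
    G' = G := by
  by_contra hne
  have hz : G D.o ∈ D.tile G := fun i => (center_mem (D := D) G i).le
  have hz' := e ▸ hz
  obtain ⟨i, e', h⟩ := opp_walls h h' hz hz' hne
  linarith [h (G D.o), hz' e', center_mem (D := D) G i]

theorem mem_tile_of_edge {G : Iso} {i : Ix r} {z : ℍ} (h0 : D.w G i z = 0)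
    (h1 : D.w G (i + 1) z ≤ 0) (h2 : D.w G (i - 1) z ≤ 0) : z ∈ D.tile G := by
  intro j
  by_cases e0 : j = i
  · rw [e0, h0]
  by_cases e1 : j = i + 1
  · rw [e1]; exact h1
  by_cases e2 : j = i - 1
  · rw [e2]; exact h2
  linarith [D.w_sep' G e0 e1 e2 z, D.k_pos]

theorem mem_tile_of_vertex {G : Iso} {i : Ix r} {z : ℍ} (h0 : D.w G i z = 0)
    (h1 : D.w G (i + 1) z = 0) : z ∈ D.tile G := by
  refine mem_tile_of_edge h0 h1.le ?_
  have := D.w_sep G (i := i - 1) (j := i + 1) (succ_ne_pred i)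
    (by rw [sub_add_cancel]; exact succ_ne_self i) (by
      apply ne_of_ty
      simp only [map_add, map_sub, map_one]
      generalize ty i = a
      revert a; decide) z
  linarith [D.k_pos]

theorem mem_tile_of_vertex' {G : Iso} {i j : Ix r} (hj : j = i + 1 ∨ j = i - 1) {z : ℍ}
    (h0 : D.w G i z = 0) (h1 : D.w G j z = 0) : z ∈ D.tile G := by
  rcases hj with rfl | rfl
  · exact mem_tile_of_vertex h0 h1
  · exact mem_tile_of_vertex h1 (by rw [sub_add_cancel]; exact h0)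

theorem exists_vertex (G : Iso) (i : Ix r) : ∃ p, D.w G i p = 0 ∧ D.w G (i + 1) p = 0 := by
  obtain ⟨p, h1, h2⟩ := D.vertex i
  exact ⟨G p, by rw [w_apply, h1], by rw [w_apply, h2]⟩

theorem vertex_eq {G : Iso} {i j : Ix r} (hj : j = i + 1 ∨ j = i - 1) {y z : ℍ}
    (h0 : D.w G i y = 0) (h1 : D.w G j y = 0) (h2 : D.w G i z = 0) (h3 : D.w G j z = 0) :
    y = z := by
  apply (G⁻¹).injective
  rcases hj with rfl | rfl
  · exact D.vertex_unique i _ _ h0 h1 h2 h3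
  · exact D.vertex_unique (i - 1) _ _ h1 (by rw [sub_add_cancel]; exact h0) h3
      (by rw [sub_add_cancel]; exact h2)

variable (D) in
/-- The edge `i` of the tile placed by `G`. -/
def edge (G : Iso) (i : Ix r) : Set ℍ := D.tile G ∩ {z | D.w G i z = 0}

theorem Nbr.edge_subset {G G' : Iso} {i e : Ix r} (h : D.Nbr G i G' e) :
    D.edge G i ⊆ D.edge G' e := by
  rintro z ⟨hz, h0⟩
  have h1 : D.w G' e z = 0 := by rw [h.h0, h0]; simp
  exact ⟨mem_tile_of_edge h1 (by rw [h.hp]; exact hz _) (by rw [h.hm]; exact hz _), h1⟩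

theorem Nbr.edge_eq {G G' : Iso} {i e : Ix r} (h : D.Nbr G i G' e) : D.edge G i = D.edge G' e :=
  h.edge_subset.antisymm h.symm.edge_subset

theorem Nbr.inter {G G' : Iso} {i e : Ix r} (h : D.Nbr G i G' e) :
    D.tile G ∩ D.tile G' = D.edge G i := by
  apply Set.Subset.antisymm
  · rintro z ⟨hz, hz'⟩
    refine ⟨hz, le_antisymm (hz i) ?_⟩
    linarith [h.h0 z, hz' e]
  · exact fun z hz => ⟨hz.1, (h.edge_subset hz).1⟩

theorem adj_of_zero {G : Iso} {i j : Ix r} {z : ℍ} (h0 : D.w G i z = 0) (h1 : D.w G j z = 0) :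
    j = i ∨ j = i + 1 ∨ j = i - 1 := by
  by_contra hc
  push Not at hc
  linarith [D.w_sep' G hc.1 hc.2.1 hc.2.2 z, D.k_pos]

theorem two_vertices (G : Iso) (i : Ix r) : ∃ p q, p ∈ D.edge G i ∧ q ∈ D.edge G i ∧
    D.w G (i + 1) p = 0 ∧ D.w G (i - 1) q = 0 ∧ p ≠ q := by
  obtain ⟨p, p1, p2⟩ := exists_vertex (D := D) G i
  obtain ⟨q, q1, q2⟩ := exists_vertex (D := D) G (i - 1)
  have q2' := q2
  rw [sub_add_cancel] at q2
  refine ⟨p, q, ⟨mem_tile_of_vertex p1 p2, p1⟩, ⟨mem_tile_of_vertex q1 q2', q2⟩, p2, q1, ?_⟩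
  rintro rfl
  have := adj_of_zero q1 p2
  revert this
  rw [sub_add_cancel]
  refine not_or.mpr ⟨succ_ne_pred i, not_or.mpr ⟨succ_ne_self i, ?_⟩⟩
  apply ne_of_ty
  simp only [map_add, map_sub, map_one]
  generalize ty i = a
  revert a; decide

theorem eq_of_edge_subset {G : Iso} {i j : Ix r} (h : ∀ z ∈ D.edge G i, D.w G j z = 0) :
    j = i := by
  obtain ⟨p, q, hp, hq, p2, q2, hne⟩ := two_vertices (D := D) G i
  rcases adj_of_zero hp.2 (h p hp) with e | e | e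
  · exact e
  · exact absurd (vertex_eq (Or.inl e) hp.2 (h p hp) hq.2 (h q hq)) hne
  · exact absurd (vertex_eq (Or.inr e) hp.2 (h p hp) hq.2 (h q hq)) hne

/-- Two tiles with two common points are equal or neighbours across an edge. -/
theorem nbr_of_two {G G' : Iso} (h : D.Dec G) (h' : D.Dec G') {p q : ℍ} (hpq : p ≠ q)
    (hp : p ∈ D.tile G) (hp' : p ∈ D.tile G') (hq : q ∈ D.tile G) (hq' : q ∈ D.tile G') :
    G' = G ∨ ∃ i e, D.Nbr G i G' e := by
  rcases classify h h' hp hp' with h | h | h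
  · exact Or.inl h
  · exact Or.inr h
  · exfalso
    obtain ⟨i, j, e, j', a1, -, a2, a3⟩ := h.walls
    refine hpq (vertex_eq (D := D) (G := G) a1 ?_ ?_ ?_ ?_)
    · linarith [a2 p, hp i, hp' e]
    · linarith [a3 p, hp j, hp' j']
    · linarith [a2 q, hq i, hq' e]
    · linarith [a3 q, hq j, hq' j']

theorem nbr_unique {G G1 G2 : Iso} {i e1 e2 : Ix r} (d1 : D.Dec G1) (d2 : D.Dec G2)
    (h1 : D.Nbr G i G1 e1) (h2 : D.Nbr G i G2 e2) : G2 = G1 ∧ e2 = e1 := by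
  obtain ⟨p, q, hp, hq, -, -, hne⟩ := two_vertices (D := D) G i
  have e : G2 = G1 := by
    rcases nbr_of_two d1 d2 hne (h1.edge_subset hp).1 (h2.edge_subset hp).1
      (h1.edge_subset hq).1 (h2.edge_subset hq).1 with h | ⟨a, b, h⟩
    · exact h
    · exfalso
      have hsub : D.edge G i ⊆ D.edge G1 a := by
        rw [← h.inter]
        exact fun z hz => ⟨(h1.edge_subset hz).1, (h2.edge_subset hz).1⟩
      have ea : a = e1 := eq_of_edge_subset fun z hz => (hsub (h1.edge_eq ▸ hz)).2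
      have eb : b = e2 := eq_of_edge_subset fun z hz =>
        (h.edge_subset (hsub (h2.edge_eq ▸ hz))).2
      subst ea eb
      have := center_mem (D := D) G i
      linarith [h.h0 (G D.o), h1.h0 (G D.o), h2.h0 (G D.o)]
  subst e
  exact ⟨rfl, eq_of_edge_subset fun z hz => (h2.edge_subset (h1.edge_eq ▸ hz)).2⟩

end Datum

end Pool.Agent.Lib.MP_6d95fe_co
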