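import Mathlib
import Pool.Agent.Lib.MP_6d95fe_co.Tiling
import Pool.Agent.Lib.MP_6d95fe_co.Defs

set_option autoImplicit false

open scoped UpperHalfPlane

namespace Pool.Agent.Lib.MP_6d95fe_co

namespace Datum

variable {r : ℕ} (D : Datum r)

/-- The tiling. -/
def tiling : Set (Set ℍ) := {P | ∃ G, D.Dec G ∧ P = D.tile G}

theorem w_cont (G : Iso) (i : Ix r) : Continuous (D.w G i) :=
  (D.cont i).comp (G⁻¹).continuous

theorem transport (G : Iso) {u : ℍ → ℝ}
    (h : ∃ a b : ℍ, a ≠ b ∧ ∀ z, (dist z a ≤ dist z b ↔ u z ≤ 0) ∧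
      (dist z a = dist z b ↔ u z = 0)) :
    ∃ a b : ℍ, a ≠ b ∧ halfPlane a b = {z | u (G⁻¹ z) ≤ 0} ∧
      bisector a b = {z | u (G⁻¹ z) = 0} := by
  obtain ⟨a, b, hab, h⟩ := h
  have e : ∀ z c, dist z (G c) = dist (G⁻¹ z) c := by
    intro z c
    rw [← (G⁻¹).dist_eq]; simp
  refine ⟨G a, G b, fun h' => hab (G.injective h'), ?_, ?_⟩
  · ext z
    simp only [halfPlane, Set.mem_ofPred_eq, e]
    exact (h _).1
  · ext z
    simp only [bisector, Set.mem_ofPred_eq, e]
    exact (h _).2

theorem w_half (G : Iso) (i : Ix r) : ∃ a b : ℍ, a ≠ b ∧ halfPlane a b = {z | D.w G i z ≤ 0} ∧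
    bisector a b = {z | D.w G i z = 0} := transport G (D.half i)

theorem w_half2 (G : Iso) {i j : Ix r} (hj : j = i + 1 ∨ j = i - 1) : ∃ a b : ℍ, a ≠ b ∧
    halfPlane a b = {z | D.w G i z + D.w G j z ≤ 0} ∧
    bisector a b = {z | D.w G i z + D.w G j z = 0} := by
  rcases hj with rfl | rfl
  · exact transport G (u := fun z => D.f i z + D.f (i + 1) z) (D.half2 i)
  · have := transport G (u := fun z => D.f (i - 1) z + D.f (i - 1 + 1) z) (D.half2 (i - 1))
    simp only [sub_add_cancel] at this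
    simpa only [w, add_comm] using this

theorem tile_eq_image (G : Iso) : D.tile G = G '' {z | ∀ i, D.f i z ≤ 0} := by
  have : D.tile 1 = {z | ∀ i, D.f i z ≤ 0} := by
    ext z; simp [tile, w]
  rw [← this, image_tile, mul_one]

theorem center_mem_interior (G : Iso) : G D.o ∈ interior (D.tile G) := by
  have ho : IsOpen (⋂ i, {z | D.w G i z < 0}) :=
    isOpen_iInter_of_finite fun i => isOpen_lt (D.w_cont G i) continuous_const
  refine interior_maximal ?_ ho ?_
  · intro z hz i
    exact (Set.mem_iInter.mp hz i).le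
  · exact Set.mem_iInter.mpr fun i => center_mem G i

theorem tile_polygon (G : Iso) : IsConvexPolygon (D.tile G) := by
  refine ⟨?_, ⟨_, D.center_mem_interior G⟩, ?_⟩
  · rw [tile_eq_image]
    exact D.compact.image G.continuous
  · choose a b hab h1 h2 using D.w_half G
    refine ⟨Set.range fun i => (a i, b i), Set.finite_range _, ?_, ?_⟩
    · rintro p ⟨i, rfl⟩; exact hab i
    · ext z
      simp only [Set.biInter_range, Set.mem_iInter, h1, Set.mem_ofPred_eq, tile]

theorem w_thin (G : Iso) (i : Ix r) : interior {z | D.w G i z = 0} = ∅ := by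
  have : {z | D.w G i z = 0} = (G⁻¹).toHomeomorph ⁻¹' {z | D.f i z = 0} := rfl
  rw [this, ← Homeomorph.preimage_interior, D.thin]
  rfl

variable {D}

theorem interior_disjoint {G G' : Iso} (h : D.Dec G) (h' : D.Dec G') (hne : G' ≠ G) :
    Disjoint (interior (D.tile G)) (interior (D.tile G')) := by
  rw [Set.disjoint_left]
  intro z hz hz'
  obtain ⟨i, e, hw⟩ := opp_walls h h' (interior_subset hz) (interior_subset hz') hne
  have : z ∈ interior {z | D.w G i z = 0} := by
    refine interior_mono ?_ (show z ∈ interior (D.tile G ∩ D.tile G') by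
      rw [interior_inter]; exact ⟨hz, hz'⟩)
    rintro y ⟨hy, hy'⟩
    have := hw y
    exact le_antisymm (hy i) (by linarith [hy' e])
  rw [D.w_thin] at this
  exact this

theorem edge_face (G : Iso) (i : Ix r) : IsFace (D.edge G i) (D.tile G) := by
  obtain ⟨a, b, hab, h1, h2⟩ := D.w_half G i
  exact Or.inr ⟨a, b, hab, by rw [h1]; exact fun z hz => hz i, by rw [h2]; rfl⟩

theorem vertex_face {G G' : Iso} {i j e j' : Ix r} (hj : j = i + 1 ∨ j = i - 1)
    (hj' : j' = e + 1 ∨ j' = e - 1) (h1 : ∀ z, D.w G' e z = -D.w G i z)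
    (h2 : ∀ z, D.w G' j' z = -D.w G j z) : IsFace (D.tile G ∩ D.tile G') (D.tile G) := by
  obtain ⟨a, b, hab, e1, e2⟩ := D.w_half2 G hj
  refine Or.inr ⟨a, b, hab, ?_, ?_⟩
  · rw [e1]
    intro z hz
    exact add_nonpos (hz i) (hz j)
  · rw [e2]
    ext z
    constructor
    · rintro ⟨hz, hz'⟩
      refine ⟨hz, ?_⟩
      have := h1 z
      have := h2 z
      have := hz i
      have := hz j
      have := hz' e
      have := hz' j'
      change D.w G i z + D.w G j z = 0
      linarith
    · rintro ⟨hz, hz'⟩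
      refine ⟨hz, ?_⟩
      change D.w G i z + D.w G j z = 0 at hz'
      have := hz i
      have := hz j
      exact mem_tile_of_vertex' hj' (by rw [h1]; linarith) (by rw [h2]; linarith)

theorem tiling_isPolygonTiling (D : Datum r) : IsPolygonTiling D.tiling := by
  have hdis : ∀ P ∈ D.tiling, ∀ Q ∈ D.tiling, P ≠ Q → Disjoint (interior P) (interior Q) := by
    rintro P ⟨G, hG, rfl⟩ Q ⟨G', hG', rfl⟩ hne
    exact interior_disjoint hG hG' fun h => hne (by rw [h])
  refine ⟨?_, ?_, ?_, hdis, ?_⟩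
  · refine Set.PairwiseDisjoint.countable_of_isOpen (s := fun P : Set ℍ => interior P)
      (fun P hP Q hQ hne => hdis P hP Q hQ hne) (fun P _ => isOpen_interior) ?_
    rintro P ⟨G, -, rfl⟩
    exact ⟨_, D.center_mem_interior G⟩
  · rw [Set.eq_univ_iff_forall]
    intro z
    obtain ⟨G, hG, hz⟩ := cover (D := D) z
    exact ⟨_, ⟨G, hG, rfl⟩, hz⟩
  · rintro P ⟨G, -, rfl⟩
    exact D.tile_polygon G
  · rintro P ⟨G, hG, rfl⟩ Q ⟨G', hG', rfl⟩
    rcases Set.eq_empty_or_nonempty (D.tile G ∩ D.tile G') with h | ⟨z, hz, hz'⟩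
    · exact Or.inl h
    · right
      rcases classify hG hG' hz hz' with rfl | ⟨i, e, h⟩ | h
      · rw [Set.inter_self]
        exact ⟨Or.inl rfl, Or.inl rfl⟩
      · rw [h.inter]
        exact ⟨edge_face G i, by rw [h.edge_eq]; exact edge_face G' e⟩
      · obtain ⟨i, j, e, j', a1, a2, a3, a4⟩ := h.walls
        refine ⟨vertex_face a1 a2 a3 a4, ?_⟩
        rw [Set.inter_comm]
        exact vertex_face a2 a1 (fun z => by rw [a3]; ring) (fun z => by rw [a4]; ring)

end Datum

end Pool.Agent.Lib.MP_6d95fe_co
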