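import Mathlib
import Pool.Agent.Lib.MP_6d95fe_co.Polygon

set_option autoImplicit false

open scoped UpperHalfPlane

namespace Pool.Agent.Lib.MP_6d95fe_co

variable {r : ℕ}

theorem half_of_two_mul {x : Ix r} (h : 2 * x = 0) : ∃ u : Ix r, x = 2 ^ (r + 2) * u := by
  have h1 : ((2 * x.val : ℕ) : Ix r) = 0 := by
    push_cast
    rw [ZMod.natCast_zmod_val]; exact h
  rw [ZMod.natCast_eq_zero_iff] at h1
  obtain ⟨u, hu⟩ : 2 ^ (r + 2) ∣ x.val :=
    Nat.dvd_of_mul_dvd_mul_left two_pos (by rw [← pow_succ']; exact h1)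
  refine ⟨u, ?_⟩
  rw [← ZMod.natCast_zmod_val x, hu]; push_cast; ring

theorem ty_shift (j : ℕ) (t : Ix r) : ty (2 ^ (j + 3) * t) = 0 := by
  rw [map_mul, map_pow, ty_two, pow_add]
  have : (2 : ZMod 8) ^ 3 = 0 := by decide
  rw [this]; simp

theorem glue_shift {j : ℕ} (hj : j ≤ r) {i e e' t : Ix r} (h : Glue i e)
    (h' : Glue (i + 2 ^ (j + 3) * t) e') : ∃ t', e' = e + 2 ^ (j + 2) * t' := by
  have hty : ty (i + 2 ^ (j + 3) * t) = ty i := by rw [map_add, ty_shift, add_zero]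
  have n02 : (0 : ZMod 8) ≠ 2 := by decide
  have n04 : (0 : ZMod 8) ≠ 4 := by decide
  have n06 : (0 : ZMod 8) ≠ 6 := by decide
  have n24 : (2 : ZMod 8) ≠ 4 := by decide
  have n46 : (4 : ZMod 8) ≠ 6 := by decide
  unfold Glue Act at h h'
  rw [hty] at h'
  rcases h with ⟨h, rfl⟩ | ⟨h, hi⟩ | ⟨h, rfl⟩ | ⟨h, rfl⟩
  · rcases h' with ⟨-, rfl⟩ | ⟨h1, h2⟩ | ⟨h1, -⟩ | ⟨h1, -⟩
    · exact ⟨4 * t, by ring⟩
    · exfalso
      have := ty_dbl h1
      rw [← h2, hty] at this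
      rcases h with h | h <;> simp_all
    · exfalso
      rcases h with h | h <;> simp_all
    · tauto
  · have h0 : ty i = 0 := by rw [hi]; exact ty_dbl h
    rcases h' with ⟨h1, -⟩ | ⟨h1, h2⟩ | ⟨h1, -⟩ | ⟨h1, -⟩
    · exfalso
      rcases h1 with h1 | h1 <;> simp_all
    · obtain ⟨u, hu⟩ := half_of_two_mul (x := e' - e - 2 ^ (j + 2) * t)
        (by linear_combination hi - h2)
      obtain ⟨d, rfl⟩ := Nat.exists_eq_add_of_le hj
      exact ⟨t + 2 ^ d * u, by linear_combination hu⟩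
    · exfalso; simp_all
    · tauto
  · rcases h' with ⟨h1, -⟩ | ⟨h1, h2⟩ | ⟨-, rfl⟩ | ⟨-, rfl⟩
    · exfalso
      rcases h1 with h1 | h1 <;> simp_all
    · exfalso
      have := ty_dbl h1
      rw [← h2, hty] at this
      simp_all
    · exact ⟨2 * t, by ring⟩
    · exact ⟨2 * t, by ring⟩
  · rcases h' with ⟨h1, -⟩ | ⟨h1, h2⟩ | ⟨-, rfl⟩ | ⟨-, rfl⟩
    · tauto
    · exfalso
      have := ty_dbl h1
      rw [← h2, hty] at this
      tauto
    · exact ⟨2 * t, by ring⟩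
    · exact ⟨2 * t, by ring⟩

namespace Datum

variable (D : Datum r)

/-- `g` carries the tile placed by `G` to a tile of the tiling, shifting the edge labels by a
multiple of `2 ^ (j + 2)`. -/
def Sim (j : ℕ) (g G : Iso) : Prop :=
  ∃ G', D.Dec G' ∧ ∃ t : Ix r, ∀ i z, D.w G' (i + 2 ^ (j + 2) * t) (g z) = D.w G i z

variable {D}

theorem Sim.mono {j : ℕ} {g G : Iso} (h : D.Sim (j + 1) g G) : D.Sim j g G := by
  obtain ⟨G', h1, t, h2⟩ := h
  refine ⟨G', h1, 2 * t, fun i z => ?_⟩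
  rw [← h2 i z]
  congr 1
  ring

theorem Sim.step {j : ℕ} (hj : j ≤ r) {g G H : Iso} {i e : Ix r} (h : D.Sim (j + 1) g G)
    (hn : D.Nbr G i H e) : D.Sim j g H := by
  obtain ⟨G', h1, t, h2⟩ := h
  obtain ⟨H', e', h3, h4⟩ := h1.exists_nbr (i + 2 ^ (j + 3) * t)
  obtain ⟨t', rfl⟩ := glue_shift hj hn.gl h4.gl
  obtain ⟨p, hp⟩ := D.rot (2 ^ j * t')
  have e4 : (4 : Ix r) * (2 ^ j * t') = 2 ^ (j + 2) * t' := by ring
  rw [e4] at hp
  have hs : sg (i + 2 ^ (j + 3) * t) = sg i := by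
    have : Act (i + 2 ^ (j + 3) * t) ↔ Act i := by
      unfold Act
      rw [map_add, ty_shift, add_zero]
    by_cases hi : Act i
    · rw [sg_act hi, sg_act (this.mpr hi)]
    · rw [sg_not hi, sg_not (mt this.mp hi)]
  have key : ∀ z, H'⁻¹ (g z) = p (H⁻¹ z) := by
    intro z
    apply D.rigid (e + 2 ^ (j + 2) * t')
    · have a1 := h4.hm (g z)
      rw [hs, add_sub_right_comm i, h2, ← hn.hm] at a1
      rw [add_sub_right_comm e, hp, ← add_sub_right_comm e]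
      exact a1
    · have a1 := h4.h0 (g z)
      rw [h2, ← hn.h0] at a1
      rw [hp]
      exact a1
    · have a1 := h4.hp (g z)
      rw [hs, add_right_comm i, h2, ← hn.hp] at a1
      rw [add_right_comm e, hp, ← add_right_comm e]
      exact a1
  exact ⟨H', h3, t', fun k z => by rw [w, key, hp]; rfl⟩

theorem Sim.touch {j : ℕ} (hj : j + 1 ≤ r) {g G H : Iso} (h : D.Sim (j + 2) g G) (hG : D.Dec G)
    (hH : D.Dec H) (ht : (D.tile G ∩ D.tile H).Nonempty) : D.Sim j g H := by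
  obtain ⟨z, hz, hz'⟩ := ht
  rcases classify hG hH hz hz' with rfl | ⟨i, e, hn⟩ | ⟨G1, i, e, k, k', -, h1, h2, -⟩
  · exact h.mono.mono
  · exact (h.step hj hn).mono
  · exact (h.step hj h1).step (by omega) h2

theorem Sim.image_mem {j : ℕ} {g G : Iso} (h : D.Sim j g G) : g '' D.tile G ∈ D.tiling := by
  obtain ⟨G', h1, t, h2⟩ := h
  refine ⟨G', h1, ?_⟩
  ext z
  constructor
  · rintro ⟨y, hy, rfl⟩ i
    have := h2 (i - 2 ^ (j + 2) * t) y
    rw [sub_add_cancel] at this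
    rw [this]; exact hy _
  · intro hz
    refine ⟨g⁻¹ z, fun i => ?_, by simp⟩
    rw [← h2]
    simpa using hz _

theorem corona_subset {K : ℕ} (hK : 2 * K ≤ r) {G1 G2 : Iso} (h1 : D.Dec G1) (h2 : D.Dec G2) :
    moveFamily (G2 * G1⁻¹) (corona D.tiling (D.tile G1) K) ⊆ corona D.tiling (D.tile G2) K := by
  rintro _ ⟨Q, ⟨m, hm, c, c0, cm, hc, hc'⟩, rfl⟩
  have key : ∀ i ≤ m, ∃ G, D.Dec G ∧ c i = D.tile G ∧ D.Sim (2 * (K - i)) (G2 * G1⁻¹) G := by
    intro i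
    induction i with
    | zero =>
      intro _
      exact ⟨G1, h1, c0, G2, h2, 0, fun i z => by simp [w]⟩
    | succ i ih =>
      intro hi
      obtain ⟨G, hG, e, hs⟩ := ih (by omega)
      obtain ⟨H, hH, e'⟩ := hc (i + 1) hi
      refine ⟨H, hH, e', ?_⟩
      have : 2 * (K - i) = 2 * (K - (i + 1)) + 2 := by omega
      rw [this] at hs
      exact hs.touch (by omega) hG hH (by rw [← e, ← e']; exact hc' i hi)
  refine ⟨m, hm, fun i => (G2 * G1⁻¹) '' c i, ?_, by simp only [cm], fun i hi => ?_,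
    fun i hi => ?_⟩
  · simp only [c0, image_tile, inv_mul_cancel_right]
  · obtain ⟨G, -, e, hs⟩ := key i hi
    simp only [e]
    exact hs.image_mem
  · obtain ⟨z, hz, hz'⟩ := hc' i hi
    exact ⟨_, ⟨z, hz, rfl⟩, ⟨z, hz', rfl⟩⟩

theorem coronasCongruent (D : Datum r) {K : ℕ} (hK : 2 * K ≤ r) :
    CoronasCongruent D.tiling K := by
  rintro P ⟨G1, h1, rfl⟩ Q ⟨G2, h2, rfl⟩
  refine ⟨G2 * G1⁻¹, by rw [image_tile, inv_mul_cancel_right], ?_⟩
  refine (corona_subset hK h1 h2).antisymm fun R hR => ?_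
  refine ⟨_, corona_subset hK h2 h1 ⟨R, hR, rfl⟩, ?_⟩
  simp [Set.image_image]

end Datum

end Pool.Agent.Lib.MP_6d95fe_co
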