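import Pool.Agent.Lib.MP_6d95fe_co.H50Del5

/-! The radius in terms of the length of chains of subgroups modulo an abelian normal subgroup. -/

namespace Pool.Agent.Lib.MP_6d95fe_co.Del

open scoped RealInnerProductSpace

variable {E : Type*} [NormedAddCommGroup E] [InnerProductSpace ℝ E]

theorem inner_sq (a : E ≃ᵢ E) (v : E) : ⟪sq a v, v⟫ = ‖lin a v - v‖ ^ 2 := by
  rw [← real_inner_self_eq_norm_sq]
  simp only [sq_apply, inner_sub_left, inner_sub_right, inner_add_left, inner_lin,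
    inner_lin_left a⁻¹, inv_inv]
  rw [real_inner_comm v (lin a v)]
  ring

theorem sq_lin {a b : E ≃ᵢ E} (h : Commute a b) (v : E) : sq a (lin b v) = lin b (sq a v) := by
  have e : ∀ c : E ≃ᵢ E, Commute c b → lin c (lin b v) = lin b (lin c v) := fun c hc =>
    congrArg (fun M : E →L[ℝ] E => M v) (hc.map lin).eq
  rw [sq_apply, sq_apply, e a h, e a⁻¹ h.inv_left, map_sub, map_sub, map_add]

variable [FiniteDimensional ℝ E]

theorem pack_aux {A : Type*} [Group A] [Fintype A] (φ : A →* (E ≃ᵢ E))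
    (h : ∀ a, ‖lin (φ a) - 1‖ < 1 / 2 → a = 1) {ι : Type*} [Fintype ι] (V : ι → Submodule ℝ E)
    (c : ι → A → ℝ) (e : ι → E) (hort : OrthogonalFamily ℝ (fun i => V i) fun i => (V i).subtypeₗᵢ)
    (htop : ⊤ ≤ ⨆ i, V i) (hV : ∀ i, ∀ v ∈ V i, ∀ a, sq (φ a) v = c i a • v)
    (he : ∀ i, e i ∈ V i) (he1 : ∀ i, ‖e i‖ = 1) (hmem : ∀ a i, lin (φ a) (e i) ∈ V i) :
    Fintype.card A ≤ 5 ^ Module.finrank ℝ E := by
  classical
  obtain ⟨σ, hσ⟩ : ∃ σ : ((i : ι) → V i) →ₗ[ℝ] E, ∀ f, σ f = ∑ i, (V i).subtypeₗᵢ (f i) :=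
    ⟨∑ i, (V i).subtype ∘ₗ LinearMap.proj i, fun f => by simp⟩
  have hinj : Function.Injective σ := by
    rw [← LinearMap.ker_eq_bot, LinearMap.ker_eq_bot']
    intro f hf
    funext i
    have := hort.inner_right_fintype f i (f i)
    rw [← hσ, hf, inner_zero_right] at this
    exact inner_self_eq_zero.mp this.symm
  have hsurj : ∀ v : E, ∃ f, σ f = v := by
    intro v
    have : ⨆ i, V i ≤ LinearMap.range σ := by
      refine iSup_le fun i w hw => ⟨Pi.single i ⟨w, hw⟩, ?_⟩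
      rw [hσ, Finset.sum_eq_single i (fun j _ hne => by simp [hne]) (by simp)]
      simp
    exact this (htop Submodule.mem_top)
  have hrank := LinearMap.finrank_le_finrank_of_injective hinj
  have small : ∀ a : A, (∀ i, ‖lin (φ a) (e i) - e i‖ < 1 / 2) → a = 1 := fun a ha => by
    obtain ⟨t, ht0, ht, hta⟩ : ∃ t : ℝ, 0 ≤ t ∧ t < 1 / 2 ∧ ∀ i, ‖lin (φ a) (e i) - e i‖ ≤ t :=
      ⟨‖fun i => lin (φ a) (e i) - e i‖, norm_nonneg _, (pi_norm_lt_iff (by norm_num)).2 ha,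
        fun i => norm_le_pi_norm (fun i => lin (φ a) (e i) - e i) i⟩
    refine h a (lt_of_le_of_lt (ContinuousLinearMap.opNorm_le_bound _ ht0 fun v => ?_) ht)
    obtain ⟨f, rfl⟩ := hsurj v
    have hχ : ∀ i, c i a ≤ t ^ 2 := fun i => by
      have h1 := inner_sq (φ a) (e i)
      rw [hV _ _ (he i), inner_smul_left, real_inner_self_eq_norm_sq, he1] at h1
      have h2 := pow_le_pow_left₀ (norm_nonneg _) (hta i) 2
      simp only [conj_trivial, one_pow, mul_one] at h1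
      linarith
    have h1 : sq (φ a) (σ f) = σ fun i => c i a • f i := by
      rw [hσ, hσ, map_sum]
      exact Finset.sum_congr rfl fun i _ => hV _ _ (f i).2 a
    have h2 : ∀ g, ⟪σ g, σ f⟫ = ∑ i, ⟪g i, f i⟫ := fun g => by
      rw [hσ, hσ]; exact hort.inner_sum g f Finset.univ
    have h3 : ‖lin (φ a) (σ f) - σ f‖ ^ 2 ≤ (t * ‖σ f‖) ^ 2 := by
      rw [← inner_sq, h1, h2, mul_pow, ← real_inner_self_eq_norm_sq, h2, Finset.mul_sum]
      refine Finset.sum_le_sum fun i _ => ?_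
      rw [inner_smul_left]
      exact mul_le_mul_of_nonneg_right (hχ i) real_inner_self_nonneg
    exact (pow_le_pow_iff_left₀ (norm_nonneg _) (by positivity) two_ne_zero).1 h3
  obtain ⟨F, hF⟩ : ∃ F : A → (i : ι) → V i, ∀ a i, (F a i : E) = (2 : ℝ) • lin (φ a) (e i) :=
    ⟨fun a i => (2 : ℝ) • ⟨_, hmem a i⟩, fun _ _ => rfl⟩
  have hs : ∀ a b, a ≠ b → 1 ≤ ‖F a - F b‖ := fun a b hne => by
    by_contra hlt
    refine hne (inv_mul_eq_one.mp (small (b⁻¹ * a) fun i => ?_)).symm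
    have h1 := norm_le_pi_norm (F a - F b) i
    have h2 : ‖(F a - F b) i‖ = 2 * ‖lin (φ a) (e i) - lin (φ b) (e i)‖ := by
      rw [← Submodule.norm_coe, Pi.sub_apply, Submodule.coe_sub, hF, hF, ← smul_sub, norm_smul,
        Real.norm_two]
    have h3 : lin (φ (b⁻¹ * a)) (e i) - e i =
        lin (φ b)⁻¹ (lin (φ a) (e i) - lin (φ b) (e i)) := by
      rw [map_sub, lin_inv_lin, map_mul, map_inv, map_mul]; rfl
    rw [h3, norm_lin_apply]
    linarith [not_le.mp hlt]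
  have inj : Function.Injective F := fun a b hab => by
    by_contra hne
    have := hs a b hne
    rw [hab, sub_self, norm_zero] at this
    linarith
  rw [← Finset.card_univ, ← Finset.card_image_of_injective _ inj]
  refine (Besicovitch.card_le_of_separated _ (fun M hM => ?_) fun M hM N hN hne => ?_).trans
    (Nat.pow_le_pow_right (by norm_num) hrank)
  · obtain ⟨a, -, rfl⟩ := Finset.mem_image.mp hM
    refine (pi_norm_le_iff_of_nonneg (by norm_num)).2 fun i => ?_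
    rw [← Submodule.norm_coe, hF, norm_smul, Real.norm_two, norm_lin_apply, he1, mul_one]
  · obtain ⟨a, -, rfl⟩ := Finset.mem_image.mp hM
    obtain ⟨b, -, rfl⟩ := Finset.mem_image.mp hN
    exact hs a b fun e => hne (by rw [e])

/-- A commutative group of isometries without elements close to translations is very small. -/
theorem pack_comm {A : Type*} [Group A] [Finite A] (φ : A →* (E ≃ᵢ E))
    (hc : ∀ a b : A, Commute a b) (h : ∀ a, ‖lin (φ a) - 1‖ < 1 / 2 → a = 1) :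
    Nat.card A ≤ 5 ^ Module.finrank ℝ E := by
  classical
  have := Fintype.ofFinite A
  let V : (A → ℝ) → Submodule ℝ E := fun χ => ⨅ a, Module.End.eigenspace (sq (φ a)) (χ a)
  have htop : ⨆ χ, V χ = ⊤ :=
    LinearMap.IsSymmetric.iSup_iInf_eq_top_of_commute (fun a => sq_symm (φ a))
      fun a b _ => sq_comm ((hc a b).map φ)
  have hort : OrthogonalFamily ℝ (fun χ => V χ) fun χ => (V χ).subtypeₗᵢ :=
    LinearMap.IsSymmetric.orthogonalFamily_iInf_eigenspaces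
      (T := fun a => sq (φ a)) (fun a => sq_symm (φ a))
  have hV : ∀ χ, ∀ v ∈ V χ, ∀ a, sq (φ a) v = χ a • v := fun χ v hv a =>
    Module.End.mem_eigenspace_iff.mp ((Submodule.mem_iInf _).mp hv a)
  have hV' : ∀ χ v, (∀ a, sq (φ a) v = χ a • v) → v ∈ V χ := fun χ v hv =>
    (Submodule.mem_iInf _).mpr fun a => Module.End.mem_eigenspace_iff.mpr (hv a)
  clear_value V
  have hex : ∀ χ : {χ // V χ ≠ ⊥}, ∃ e ∈ V χ.1, ‖e‖ = 1 := fun χ => by
    obtain ⟨n, hn, hn0⟩ := Submodule.exists_mem_ne_zero_of_ne_bot χ.2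
    exact ⟨(‖n‖⁻¹ : ℝ) • n, Submodule.smul_mem _ _ hn, by
      rw [norm_smul]; simp [norm_ne_zero_iff.mpr hn0]⟩
  choose e he he1 using hex
  have hon : Orthonormal ℝ e := ⟨he1, fun χ ψ hne =>
    hort (fun h => hne (Subtype.ext h)) ⟨e χ, he χ⟩ ⟨e ψ, he ψ⟩⟩
  have : Finite {χ // V χ ≠ ⊥} := hon.linearIndependent.finite
  have := Fintype.ofFinite {χ // V χ ≠ ⊥}
  rw [Nat.card_eq_fintype_card]
  refine pack_aux φ h (fun χ : {χ // V χ ≠ ⊥} => V χ.1) (fun χ => χ.1) e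
    (fun χ ψ hne => hort fun h => hne (Subtype.ext h)) ?_ (fun χ => hV χ.1) he he1
    fun a χ => hV' _ _ fun b => by rw [sq_lin ((hc b a).map φ), hV _ _ (he χ), map_smul]
  rw [← htop]
  refine iSup_le fun χ => ?_
  by_cases h0 : V χ = ⊥
  · rw [h0]; exact bot_le
  · exact le_iSup (fun χ : {χ // V χ ≠ ⊥} => V χ.1) ⟨χ, h0⟩

/-- A decreasing chain of subgroups, measured above and inside a normal subgroup. -/
theorem chain_quot {G : Type*} [Group G] [Finite G] (A : Subgroup G) [A.Normal] {l n : ℕ}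
    (hl : Order.krullDim (Subgroup (G ⧸ A)) ≤ l) (hn : Nat.card A < 2 ^ n)
    (H : ℕ → Subgroup G) (hH : ∀ k, H (k + 1) ≤ H k) : ∃ k < l + n, H k ≤ H (k + 1) := by
  by_contra hne
  push Not at hne
  let b : ℕ → Subgroup (G ⧸ A) := fun k => (H k).map (QuotientGroup.mk' A)
  have hb : ∀ k, Order.height (b k) ≤ l := fun k => by
    have := (Order.height_le_krullDim (b k)).trans hl
    exact_mod_cast this
  have hb' : ∀ k, Order.height (b k) < ⊤ := fun k => (hb k).trans_lt (ENat.natCast_lt_top l)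
  let f : ℕ → ℕ := fun k => (Order.height (b k)).toNat + Nat.log 2 (Nat.card (H k ⊓ A : Subgroup G))
  have step : ∀ k < l + n, f (k + 1) < f k := fun k hk => by
    have h1 : b (k + 1) ≤ b k := Subgroup.map_mono (hH k)
    have h2 : H (k + 1) ⊓ A ≤ H k ⊓ A := inf_le_inf_right A (hH k)
    have h3 := ENat.toNat_le_toNat (Order.height_mono h1) (hb' k).ne
    have h4 := Nat.log_mono_right (b := 2) (Subgroup.card_le_of_le h2)
    rcases h1.lt_or_eq with h5 | h5
    · have h6 := Order.height_strictMono h5 (hb' _)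
      rw [← ENat.natCast_toNat (hb' k).ne, ← ENat.natCast_toNat (hb' (k + 1)).ne] at h6
      have h7 : (Order.height (b (k + 1))).toNat < (Order.height (b k)).toNat := by
        exact_mod_cast h6
      exact Nat.add_lt_add_of_lt_of_le h7 h4
    · refine Nat.add_lt_add_of_le_of_lt h3 ?_
      obtain ⟨q, hq⟩ := Subgroup.card_dvd_of_le h2
      have h0 : 0 < Nat.card (H k ⊓ A : Subgroup G) := Nat.card_pos
      have h0' : 0 < Nat.card (H (k + 1) ⊓ A : Subgroup G) := Nat.card_pos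
      have hq0 : q ≠ 0 := by rintro rfl; omega
      have hq1 : q ≠ 1 := by
        rintro rfl
        have h6 := Subgroup.eq_of_le_of_card_ge h2 (by omega)
        refine hne k hk fun x hx => ?_
        obtain ⟨y, hy, e⟩ : QuotientGroup.mk' A x ∈ b (k + 1) := h5 ▸ ⟨x, hx, rfl⟩
        have h7 : y⁻¹ * x ∈ H k ⊓ A :=
          ⟨(H k).mul_mem ((H k).inv_mem (hH k hy)) hx, QuotientGroup.eq.mp e⟩
        rw [← h6] at h7
        simpa using (H (k + 1)).mul_mem hy h7.1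
      have h8 : Nat.card (H (k + 1) ⊓ A : Subgroup G) * 2 ≤ Nat.card (H k ⊓ A : Subgroup G) := by
        rw [hq]; exact Nat.mul_le_mul_left _ (by omega)
      have h9 := Nat.log_mono_right (b := 2) h8
      rw [Nat.log_mul_base (by norm_num) h0'.ne'] at h9
      omega
  have key : ∀ k ≤ l + n, f k + k ≤ f 0 := by
    intro k
    induction k with
    | zero => simp
    | succ k ih => intro hk; have := step k hk; have := ih (by omega); omega
  have h1 : (Order.height (b 0)).toNat ≤ l := ENat.toNat_le_of_le_natCast (hb 0)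
  have h2 : Nat.log 2 (Nat.card (H 0 ⊓ A : Subgroup G)) < n :=
    Nat.log_lt_of_lt_pow Nat.card_pos.ne' ((Subgroup.card_le_of_le inf_le_right).trans_lt hn)
  have h3 := key _ le_rfl
  have h4 : f 0 < l + n := Nat.add_lt_add_of_le_of_lt h1 h2
  omega

/-- The hypothesis on the number of steps. -/
def Steps (E : Type*) [NormedAddCommGroup E] [InnerProductSpace ℝ E] (m : ℕ) : Prop :=
  3 * Module.finrank ℝ E ^ 2 ≤ m ∨ ∃ l : ℕ, l + 3 * Module.finrank ℝ E ≤ m ∧
    ∀ G : Subgroup (E ≃ᵢ E), Finite G → ∃ (A : Subgroup G) (_ : A.Normal),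
      (∀ a ∈ A, ∀ b ∈ A, a * b = b * a) ∧ Order.krullDim (Subgroup (G ⧸ A)) ≤ l

theorem Steps.chain {m : ℕ} (hm : Steps E m) (hd : 0 < Module.finrank ℝ E)
    (H : ℕ → Subgroup (E ≃ᵢ E)) (hH : ∀ k, H (k + 1) ≤ H k)
    (h : ∀ g ∈ H 0, ‖lin g - 1‖ < 1 / 2 → g = 1) : ∃ k < m, H k ≤ H (k + 1) := by
  obtain ⟨hf, hc⟩ := pack (H 0) h
  rcases hm with hm | ⟨l, hm, hl⟩
  · obtain ⟨k, hk, hk'⟩ := Del.chain H hH hf (3 * Module.finrank ℝ E ^ 2) (hc.trans_lt (by
      rw [pow_mul]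
      exact Nat.pow_lt_pow_left (by norm_num) (by positivity)))
    exact ⟨k, hk.trans_le hm, hk'⟩
  · obtain ⟨A, hA, hcomm, hl⟩ := hl (H 0) hf
    have hc' := pack_comm ((H 0).subtype.comp A.subtype)
      (fun a b => Subtype.ext (hcomm a a.2 b b.2))
      fun a ha => Subtype.ext (Subtype.ext (h _ a.1.2 ha))
    obtain ⟨k, hk, hk'⟩ := chain_quot A hl (n := 3 * Module.finrank ℝ E) (hc'.trans_lt (by
      rw [pow_mul]
      exact Nat.pow_lt_pow_left (by norm_num) hd.ne')) (fun k => (H k).subgroupOf (H 0))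
      fun k => Subgroup.comap_mono (hH k)
    exact ⟨k, hk.trans_le hm, fun g hg =>
      hk' (show (⟨g, antitone_nat_of_succ_le hH (Nat.zero_le k) hg⟩ : H 0) ∈ _ from hg)⟩

theorem Sys.regular' {X : Type*} [MulAction (E ≃ᵢ E) X] {S : Sys E X} {m : ℕ} (hm : Steps E m)
    (hloc : ∀ P ∈ S.T, ∀ Q ∈ S.T, ∃ g, S.Good g P Q
      ((3 * (m : ℝ) + 8 * Module.finrank ℝ E + 7) * S.R))
    {P Q : X} (hP : P ∈ S.T) (hQ : Q ∈ S.T) :
    ∃ g : E ≃ᵢ E, g • P = Q ∧ (∀ U ∈ S.T, g • U ∈ S.T) ∧ ∀ U ∈ S.T, g⁻¹ • U ∈ S.T := by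
  have hR := S.R_pos
  set d := Module.finrank ℝ E with hd
  rcases Nat.eq_zero_or_pos d with h0 | hd0
  · obtain ⟨g, hg⟩ := hloc P hP Q hQ
    have : Subsingleton E := Module.finrank_zero_iff.mp h0
    have h1 : g = 1 := by ext x; exact Subsingleton.elim _ _
    refine ⟨g, hg.1, fun U hU => ?_, fun U hU => ?_⟩ <;> simpa [h1] using hU
  have hd' : (0 : ℝ) ≤ d := Nat.cast_nonneg _
  have hm' : (0 : ℝ) ≤ m := Nat.cast_nonneg _
  let H : ℕ → Subgroup (E ≃ᵢ E) := fun k => S.St hP ((8 * d + 7) * S.R + 3 * k * S.R)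
  have hH : ∀ k, H (k + 1) ≤ H k := fun k g hg =>
    Sys.Good.mono hg (by push_cast; nlinarith)
  obtain ⟨k, hk, hk'⟩ := hm.chain hd0 H hH fun g hg hs =>
    Sys.no_small hloc (σ := (8 * d + 7) * S.R + 3 * (0 : ℕ) * S.R)
      (by push_cast; nlinarith) (by push_cast; linarith) hP hg hs
  set σ : ℝ := (8 * d + 7) * S.R + 3 * k * S.R with hσ
  have hk1 : (k : ℝ) + 1 ≤ m := by exact_mod_cast hk
  have hloc' : ∀ U ∈ S.T, ∀ W ∈ S.T, ∃ g, S.Good g U W (σ + 3 * S.R) := fun U hU W hW =>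
    (hloc U hU W hW).imp fun g hg => hg.mono (by nlinarith)
  have hst : ∀ W ∈ S.T, ∀ h, S.Good h W W σ → S.Good h W W (σ + 3 * S.R) := fun W hW h hh => by
    obtain ⟨g, hg⟩ := hloc' P hP W hW
    have hg' : S.Good g P W σ := hg.mono (by linarith)
    have h1 : g⁻¹ * (h * g) ∈ H k := hg'.inv.mul (hh.mul hg' hP hW) hP hP
    have h2 : S.Good (g⁻¹ * (h * g)) P P (σ + 3 * S.R) :=
      Sys.Good.mono (hk' h1) (by push_cast; linarith)
    have h3 := (hg.mul h2 hP hW).mul hg.inv hW hW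
    simpa using h3
  obtain ⟨g, hg⟩ := hloc' P hP Q hQ
  have hσ0 : 0 ≤ σ := by positivity
  exact ⟨g, hg.1, Sys.spread hσ0 hloc' hst hP (by rw [hg.1]; exact hg),
    Sys.spread hσ0 hloc' hst hQ (by rw [hg.inv.1]; exact hg.inv)⟩

theorem main' {m : ℕ} (hm : Steps E m) (T : Set (Set E)) (r D R : ℝ) (hr : 0 < r) (hR : 0 < R + D)
    (hne : ∀ P ∈ T, P.Nonempty) (hD : ∀ P ∈ T, ∀ p ∈ P, ∀ q ∈ P, dist p q ≤ D)
    (hsep : ∀ P ∈ T, ∀ Q ∈ T, P ≠ Q → r ≤ Metric.hausdorffDist P Q)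
    (hcov : ∀ z, ∃ P ∈ T, ∃ p ∈ P, dist z p ≤ R) {ρ : ℝ}
    (hρ : ρ = (3 * (m : ℝ) + 8 * Module.finrank ℝ E + 9) * (R + D))
    (hloc : ∀ P ∈ T, ∀ Q ∈ T, ∃ g : E ≃ᵢ E, g '' P = Q ∧
      (fun S => g '' S) '' {S ∈ T | ∃ p ∈ P, ∃ s ∈ S, dist p s ≤ ρ} =
        {S ∈ T | ∃ q ∈ Q, ∃ s ∈ S, dist q s ≤ ρ}) :
    ∀ P ∈ T, ∀ Q ∈ T, ∃ g : E ≃ᵢ E, g '' P = Q ∧ (fun S => g '' S) '' T = T := by
  let _ : MulAction (E ≃ᵢ E) (Set E) :=
    { smul := fun g P => g '' P
      one_smul := fun P => Set.image_id P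
      mul_smul := fun g h P => (Set.image_image g h P).symm }
  have hsm : ∀ (g : E ≃ᵢ E) (P : Set E), g • P = g '' P := fun _ _ => rfl
  let pos : Set E → E := fun P => Classical.epsilon (IsCc P)
  have hpos : ∀ P ∈ T, IsCc P (pos P) := fun P hP =>
    Classical.epsilon_spec (exists_isCc (hne P hP) (hD P hP))
  have hpD : ∀ P ∈ T, ∀ p ∈ P, dist (pos P) p ≤ D := fun P hP p hp =>
    hpos P hP p D (hD P hP p hp) p hp
  have hR0 : 0 ≤ R := by
    obtain ⟨P, -, p, -, h⟩ := hcov 0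
    exact dist_nonneg.trans h
  let S : Sys E (Set E) :=
    { T := T, pos := pos, r := r / 2, R := R + D, r_pos := by positivity, R_pos := hR
      equiv := fun g P hP => by
        have h1 := (hpos P hP).image g
        refine IsCc.unique (D := D) ((hne P hP).image g) ?_ (Classical.epsilon_spec ⟨_, h1⟩) h1
        rintro _ ⟨p, hp, rfl⟩ _ ⟨q, hq, rfl⟩
        rw [g.dist_eq]; exact hD P hP p hp q hq
      sep := fun g P hP hg h => by
        by_contra hn
        have h1 := hsep _ hg _ hP hn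
        have h2 : ∀ p ∈ P, dist (g p) p ≤ r / 2 := fun p hp =>
          h p (by rw [dist_comm]; linarith [hpD P hP p hp])
        have h3 : Metric.hausdorffDist (g • P) P ≤ r / 2 :=
          Metric.hausdorffDist_le_of_mem_dist (by positivity)
            (by rintro _ ⟨p, hp, rfl⟩; exact ⟨p, hp, h2 p hp⟩)
            (fun p hp => ⟨g p, ⟨p, hp, rfl⟩, by rw [dist_comm]; exact h2 p hp⟩)
        linarith
      cover := fun z => by
        obtain ⟨P, hP, p, hp, h⟩ := hcov z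
        exact ⟨P, hP, by linarith [dist_triangle_right z (pos P) p, hpD P hP p hp]⟩ }
  have near : ∀ P ∈ T, ∀ U ∈ T, dist (pos U) (pos P) ≤
      (3 * (m : ℝ) + 8 * Module.finrank ℝ E + 7) * (R + D) →
      ∃ p ∈ P, ∃ s ∈ U, dist p s ≤ ρ := fun P hP U hU h => by
    obtain ⟨p, hp⟩ := hne P hP
    obtain ⟨s, hs⟩ := hne U hU
    refine ⟨p, hp, s, hs, ?_⟩
    have := dist_triangle4 p (pos P) (pos U) s
    rw [dist_comm p (pos P), dist_comm (pos P) (pos U)] at this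
    linarith [hpD P hP p hp, hpD U hU s hs]
  intro P hP Q hQ
  obtain ⟨g, h1, h2, h3⟩ := S.regular' hm (P := P) (Q := Q) (fun U hU W hW => by
    obtain ⟨g, hg, he⟩ := hloc U hU W hW
    refine ⟨g, hg, fun V hV hd => ?_, fun V hV hd => ?_⟩
    · exact ((Set.ext_iff.mp he (g '' V)).mp ⟨V, ⟨hV, near U hU V hV hd⟩, rfl⟩).1
    · obtain ⟨V', hV', e⟩ := (Set.ext_iff.mp he V).mpr ⟨hV, near W hW V hV hd⟩
      rw [← e]
      show g⁻¹ • g • V' ∈ T
      rw [inv_smul_smul]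
      exact hV'.1) hP hQ
  refine ⟨g, h1, Set.Subset.antisymm ?_ fun U hU => ⟨g⁻¹ • U, h3 U hU, smul_inv_smul g U⟩⟩
  rintro _ ⟨U, hU, rfl⟩
  exact h2 U hU

end Pool.Agent.Lib.MP_6d95fe_co.Del
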