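import Mathlib

/-! Linear parts of Euclidean isometries and a Frobenius type commutation lemma. -/

namespace Pool.Agent.Lib.MP_6d95fe_co.Del

open scoped RealInnerProductSpace

set_option linter.deprecated false

variable {E : Type*} [NormedAddCommGroup E] [InnerProductSpace ℝ E]

/-- The linear part of an isometry. -/
noncomputable def lin0 (g : E ≃ᵢ E) : E →L[ℝ] E :=
  g.toRealLinearIsometryEquiv.toLinearIsometry.toContinuousLinearMap

theorem lin0_apply (g : E ≃ᵢ E) (x : E) : lin0 g x = g x - g 0 := by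
  simp [lin0]

theorem lin0_sub (g : E ≃ᵢ E) (x y : E) : lin0 g (x - y) = g x - g y := by
  rw [map_sub, lin0_apply, lin0_apply]; abel

/-- The linear part as a monoid homomorphism. -/
noncomputable def lin : (E ≃ᵢ E) →* (E →L[ℝ] E) where
  toFun := lin0
  map_one' := by ext x; simp [lin0_apply]
  map_mul' g h := by
    ext x
    have : lin0 h x = h x - h 0 := lin0_apply h x
    simp only [ContinuousLinearMap.mul_apply, this, lin0_sub]
    simp [lin0_apply]

theorem lin_sub (g : E ≃ᵢ E) (x y : E) : lin g (x - y) = g x - g y := lin0_sub g x y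

theorem norm_lin_apply (g : E ≃ᵢ E) (v : E) : ‖lin g v‖ = ‖v‖ := by
  have := lin_sub g v 0
  rw [sub_zero] at this
  rw [this, ← dist_eq_norm, g.dist_eq, dist_zero_right]

theorem norm_lin_le (g : E ≃ᵢ E) : ‖lin g‖ ≤ 1 :=
  ContinuousLinearMap.opNorm_le_bound _ zero_le_one fun v => by rw [norm_lin_apply, one_mul]

theorem inner_lin (g : E ≃ᵢ E) (u v : E) : ⟪lin g u, lin g v⟫ = ⟪u, v⟫ :=
  g.toRealLinearIsometryEquiv.inner_map_map u v

theorem lin_mul_inv (g : E ≃ᵢ E) : lin g * lin g⁻¹ = 1 := by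
  rw [← map_mul, mul_inv_cancel, map_one]

theorem lin_inv_mul (g : E ≃ᵢ E) : lin g⁻¹ * lin g = 1 := by
  rw [← map_mul, inv_mul_cancel, map_one]

theorem lin_lin_inv (g : E ≃ᵢ E) (v : E) : lin g (lin g⁻¹ v) = v := by
  rw [← ContinuousLinearMap.mul_apply, lin_mul_inv]; rfl

theorem lin_inv_lin (g : E ≃ᵢ E) (v : E) : lin g⁻¹ (lin g v) = v := by
  rw [← ContinuousLinearMap.mul_apply, lin_inv_mul]; rfl

theorem inner_lin_left (g : E ≃ᵢ E) (u v : E) : ⟪lin g u, v⟫ = ⟪u, lin g⁻¹ v⟫ := by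
  rw [← inner_lin g u (lin g⁻¹ v), lin_lin_inv]

theorem eq_one_of_lin {g : E ≃ᵢ E} {y : E} (hy : g y = y) (h : lin g = 1) : g = 1 := by
  ext x
  have := lin_sub g x y
  rw [h, hy] at this
  simp only [ContinuousLinearMap.one_apply, sub_left_inj] at this
  simp [← this]

theorem norm_lin_mul_le (g : E ≃ᵢ E) (M : E →L[ℝ] E) : ‖lin g * M‖ ≤ ‖M‖ :=
  (norm_mul_le _ _).trans (by nlinarith [norm_lin_le g, norm_nonneg M])

theorem norm_mul_lin_le (g : E ≃ᵢ E) (M : E →L[ℝ] E) : ‖M * lin g‖ ≤ ‖M‖ :=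
  (norm_mul_le _ _).trans (by nlinarith [norm_lin_le g, norm_nonneg M])

theorem norm_lin_conj (g a : E ≃ᵢ E) : ‖lin (g * a * g⁻¹) - 1‖ ≤ ‖lin a - 1‖ := by
  have : lin (g * a * g⁻¹) - 1 = lin g * ((lin a - 1) * lin g⁻¹) := by
    rw [map_mul, map_mul, sub_mul, mul_sub, one_mul, lin_mul_inv, mul_assoc]
  rw [this]
  exact (norm_lin_mul_le _ _).trans (norm_mul_lin_le _ _)

theorem norm_lin_inv_mul (g h : E ≃ᵢ E) : ‖lin (h⁻¹ * g) - 1‖ ≤ ‖lin g - lin h‖ := by
  have : lin (h⁻¹ * g) - 1 = lin h⁻¹ * (lin g - lin h) := by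
    rw [map_mul, mul_sub, lin_inv_mul]
  rw [this]
  exact norm_lin_mul_le _ _

theorem norm_lin_comm (f b : E ≃ᵢ E) :
    ‖lin (f * b * f⁻¹ * b⁻¹) - 1‖ ≤ 2 * ‖lin b - 1‖ * ‖lin f - 1‖ := by
  have : lin (f * b * f⁻¹ * b⁻¹) - 1 =
      ((lin f - 1) * (lin b - 1) - (lin b - 1) * (lin f - 1)) * lin f⁻¹ * lin b⁻¹ := by
    have e : (lin f - 1) * (lin b - 1) - (lin b - 1) * (lin f - 1) =
        lin f * lin b - lin b * lin f := by noncomm_ring
    rw [e, sub_mul, sub_mul, mul_assoc (lin b) (lin f), lin_mul_inv, mul_one, lin_mul_inv,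
      map_mul, map_mul, map_mul]
  rw [this]
  refine (norm_mul_lin_le _ _).trans ((norm_mul_lin_le _ _).trans ((norm_sub_le _ _).trans ?_))
  have h1 := norm_mul_le (lin f - 1) (lin b - 1)
  have h2 := norm_mul_le (lin b - 1) (lin f - 1)
  nlinarith

/-- Displacement of a point by an isometry. -/
theorem dist_move (g : E ≃ᵢ E) (x y : E) :
    dist (g x) x ≤ dist (g y) y + ‖lin g - 1‖ * dist x y := by
  have e : g x - x = (g y - y) + (lin g - 1) (x - y) := by
    rw [ContinuousLinearMap.sub_apply, lin_sub]; simp only [ContinuousLinearMap.one_apply]; abel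
  rw [dist_eq_norm, dist_eq_norm, dist_eq_norm, e]
  exact (norm_add_le _ _).trans (by gcongr; exact ContinuousLinearMap.le_opNorm _ _)

variable [FiniteDimensional ℝ E]

/-- Frobenius: if the conjugate of `b` by `f` commutes with `b` and `f` is close to the
identity, the conjugate has the same linear part as `b`. -/
theorem lin_frob (f b : E ≃ᵢ E) (hf : ‖lin f - 1‖ < 1) (hc : Commute (f * b * f⁻¹) b) :
    lin f * lin b = lin b * lin f := by
  set c := f * b * f⁻¹ with hcdef
  set u := b⁻¹ * c with hu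
  let L : (E ≃ᵢ E) →* (E →ₗ[ℝ] E) :=
    { toFun := fun g => (lin g : E →L[ℝ] E)
      map_one' := by rw [map_one]; rfl
      map_mul' := fun g h => by rw [map_mul]; rfl }
  have hL : ∀ g v, L g v = lin g v := fun _ _ => rfl
  have tr : ∀ g h : E ≃ᵢ E, LinearMap.trace ℝ E (L (g * h)) = LinearMap.trace ℝ E (L (h * g)) :=
    fun g h => by rw [L.map_mul, L.map_mul, LinearMap.trace_mul_comm]
  have t1 : LinearMap.trace ℝ E (L (u * f)) = LinearMap.trace ℝ E (L f) := by
    have : u * f = b⁻¹ * (f * b) := by rw [hu, hcdef]; group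
    rw [this, tr]; congr 2; group
  have t2 : LinearMap.trace ℝ E (L (f * u⁻¹)) = LinearMap.trace ℝ E (L f) := by
    have e : u⁻¹ = b * c⁻¹ := by
      rw [hu, mul_inv_rev, inv_inv]; exact (hc.inv_left).eq
    have : u⁻¹ * f = b * (f * b⁻¹) := by rw [e, hcdef]; group
    rw [tr, this, tr]; congr 2; group
  have t3 : LinearMap.trace ℝ E (L (u * f * u⁻¹)) = LinearMap.trace ℝ E (L f) := by
    rw [tr]; congr 2; group
  have key : LinearMap.trace ℝ E ((1 - L u) * L f * (1 - L u⁻¹)) = 0 := by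
    have : (1 - L u) * L f * (1 - L u⁻¹) = L f - L (u * f) - L (f * u⁻¹) + L (u * f * u⁻¹) := by
      simp only [map_mul]; noncomm_ring
    rw [this, map_add, map_sub, map_sub, t1, t2, t3]; ring
  let o := stdOrthonormalBasis ℝ E
  rw [LinearMap.trace_eq_sum_inner _ o] at key
  have term : ∀ v : E, ⟪v, ((1 - L u) * L f * (1 - L u⁻¹)) v⟫ =
      ⟪v - lin u⁻¹ v, lin f (v - lin u⁻¹ v)⟫ := fun v => by
    have e : ((1 - L u) * L f * (1 - L u⁻¹)) v =
        lin f (v - lin u⁻¹ v) - lin u (lin f (v - lin u⁻¹ v)) := by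
      simp [hL]
    rw [e, inner_sub_right, inner_sub_left, inner_lin_left u⁻¹, inv_inv]
  have pos : ∀ w : E, (1 - ‖lin f - 1‖) * ‖w‖ ^ 2 ≤ ⟪w, lin f w⟫ := fun w => by
    have e : lin f w = w + (lin f - 1) w := by simp
    have h1 := abs_real_inner_le_norm w ((lin f - 1) w)
    have h2 := (lin f - 1).le_opNorm w
    have h3 := neg_abs_le ⟪w, (lin f - 1) w⟫
    rw [e, inner_add_right, real_inner_self_eq_norm_sq]
    nlinarith [norm_nonneg w]
  simp only [term] at key
  have nn : ∀ w : E, 0 ≤ ⟪w, lin f w⟫ := fun w =>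
    le_trans (mul_nonneg (by linarith) (sq_nonneg _)) (pos w)
  rw [Finset.sum_eq_zero_iff_of_nonneg (fun i _ => nn _)] at key
  have z : ∀ i, lin u⁻¹ (o i) = o i := fun i => by
    have h1 := pos (o i - lin u⁻¹ (o i))
    rw [key i (Finset.mem_univ _)] at h1
    have h2 : ‖o i - lin u⁻¹ (o i)‖ ^ 2 ≤ 0 := by
      by_contra h
      push Not at h
      nlinarith
    have h3 : ‖o i - lin u⁻¹ (o i)‖ = 0 := by nlinarith [norm_nonneg (o i - lin u⁻¹ (o i))]
    exact (sub_eq_zero.mp (norm_eq_zero.mp h3)).symm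
  have z1 : lin u⁻¹ = 1 := by
    apply ContinuousLinearMap.coe_injective
    exact o.toBasis.ext fun i => by simpa using z i
  have z2 : lin u = 1 := by rw [← lin_inv_mul u, z1, one_mul]
  have e : f * b = b * u * f := by rw [hu, hcdef]; group
  rw [← map_mul, e, map_mul, map_mul, z2, mul_one]

/-- If the commutator of `f` and `b` commutes with `b`, `b` has a fixed point and `f` is close
to a translation, then `f` and `b` commute. -/
theorem frob (f b : E ≃ᵢ E) {y : E} (hy : b y = y) (hf : ‖lin f - 1‖ < 1)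
    (hc : Commute (f * b * f⁻¹ * b⁻¹) b) : Commute f b := by
  have hc' : Commute (f * b * f⁻¹) b := by
    have := hc.mul_left (Commute.refl b)
    simpa using this
  have hl := lin_frob f b hf hc'
  set h := f * b * f⁻¹ * b⁻¹ with hh
  have hlin : lin h = 1 := by
    rw [hh, map_mul, map_mul, map_mul, hl, mul_assoc (lin b), lin_mul_inv, mul_one, lin_mul_inv]
  have hy' : b⁻¹ y = y := by
    conv_lhs => rw [← hy]
    simp
  have h1 : b (h y) = h y := by
    have := congrArg (fun g : E ≃ᵢ E => g y) hc.eq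
    simp only [IsometryEquiv.mul_apply, hy] at this
    exact this.symm
  have h2 : lin b (h y - y) = h y - y := by rw [lin_sub, h1, hy]
  set w := f⁻¹ y with hw
  have hfw : f w = y := by simp [hw]
  have h3 : h y - y = lin b (lin f (w - y)) - lin f (w - y) := by
    have e1 : h y = f (b w) := by simp [hh, hy', hw]
    have e2 : lin b (lin f (w - y)) = lin f (lin b (w - y)) := by
      rw [← ContinuousLinearMap.mul_apply, ← hl]; rfl
    rw [e2, ← map_sub, lin_sub b, hy, e1]
    have : b w - y - (w - y) = b w - w := by abel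
    rw [this, lin_sub, hfw]
  have h4 : ⟪h y - y, h y - y⟫ = 0 := by
    have e := inner_lin b (h y - y) (lin f (w - y))
    rw [h2] at e
    conv_lhs => rw [h3]; rw [← h3]
    nth_rewrite 2 [h3]
    rw [inner_sub_right, e, sub_self]
  have h5 : h y = y := sub_eq_zero.mp (inner_self_eq_zero.mp h4)
  have h6 := eq_one_of_lin h5 hlin
  have : f * b = h * (b * f) := by rw [hh]; group
  rw [Commute, SemiconjBy, this, h6, one_mul]

end Pool.Agent.Lib.MP_6d95fe_co.Del
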