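import Pool.Agent.Lib.MP_6d95fe_co.H50Del1

/-! Discrete systems of sites; local symmetries close to the identity commute. -/

namespace Pool.Agent.Lib.MP_6d95fe_co.Del

open scoped RealInnerProductSpace

set_option linter.deprecated false

variable {E : Type*} [NormedAddCommGroup E] [InnerProductSpace ℝ E]
variable {X : Type*} [MulAction (E ≃ᵢ E) X]

/-- A separated family of objects with positions of covering radius `R`. -/
structure Sys (E : Type*) [NormedAddCommGroup E] (X : Type*) [MulAction (E ≃ᵢ E) X] where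
  T : Set X
  pos : X → E
  r : ℝ
  R : ℝ
  r_pos : 0 < r
  R_pos : 0 < R
  equiv : ∀ g : E ≃ᵢ E, ∀ P ∈ T, pos (g • P) = g (pos P)
  sep : ∀ g : E ≃ᵢ E, ∀ P ∈ T, g • P ∈ T →
    (∀ x, dist x (pos P) ≤ R → dist (g x) x ≤ r) → g • P = P
  cover : ∀ z, ∃ P ∈ T, dist z (pos P) ≤ R

namespace Sys

variable (S : Sys E X)

/-- `g` maps the objects within `σ` of `a` to objects of the family. -/
def Loc (g : E ≃ᵢ E) (a : E) (σ : ℝ) : Prop :=
  ∀ P ∈ S.T, dist (S.pos P) a ≤ σ → g • P ∈ S.T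

variable {S}

omit [InnerProductSpace ℝ E] in
theorem Loc.shift {g : E ≃ᵢ E} {a a' : E} {σ s : ℝ} (h : S.Loc g a σ) (hs : s + dist a' a ≤ σ) :
    S.Loc g a' s := fun P hP hd =>
  h P hP ((dist_triangle _ a' _).trans (by linarith))

omit [InnerProductSpace ℝ E] in
theorem Loc.mono {g : E ≃ᵢ E} {a : E} {σ s : ℝ} (h : S.Loc g a σ) (hs : s ≤ σ) :
    S.Loc g a s := h.shift (by simpa using hs)

omit [InnerProductSpace ℝ E] in
theorem Loc.mul {g h : E ≃ᵢ E} {a : E} {σ : ℝ} (hg : S.Loc g (h a) σ) (hh : S.Loc h a σ) :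
    S.Loc (g * h) a σ := fun P hP hd => by
  rw [mul_smul]
  exact hg _ (hh P hP hd) (by rw [S.equiv h P hP, h.dist_eq]; exact hd)

omit [InnerProductSpace ℝ E] in
theorem Loc.one (a : E) (σ : ℝ) : S.Loc 1 a σ := fun P hP _ => by rwa [one_smul]

/-- `g` maps `P` to `Q` and matches the clusters of radius `σ`. -/
def Good (S : Sys E X) (g : E ≃ᵢ E) (P Q : X) (σ : ℝ) : Prop :=
  g • P = Q ∧ S.Loc g (S.pos P) σ ∧ S.Loc g⁻¹ (S.pos Q) σ

omit [InnerProductSpace ℝ E] in
theorem Good.pos {g : E ≃ᵢ E} {P Q : X} {σ : ℝ} (h : S.Good g P Q σ) (hP : P ∈ S.T) :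
    g (S.pos P) = S.pos Q := by rw [← h.1, S.equiv g P hP]

omit [InnerProductSpace ℝ E] in
theorem Good.mono {g : E ≃ᵢ E} {P Q : X} {σ s : ℝ} (h : S.Good g P Q σ) (hs : s ≤ σ) :
    S.Good g P Q s := ⟨h.1, h.2.1.mono hs, h.2.2.mono hs⟩

omit [InnerProductSpace ℝ E] in
theorem Good.inv {g : E ≃ᵢ E} {P Q : X} {σ : ℝ} (h : S.Good g P Q σ) : S.Good g⁻¹ Q P σ :=
  ⟨by rw [← h.1, inv_smul_smul], h.2.2, by rw [inv_inv]; exact h.2.1⟩

omit [InnerProductSpace ℝ E] in
theorem Good.mul {g h : E ≃ᵢ E} {P Q U : X} {σ : ℝ} (hg : S.Good g Q U σ) (hh : S.Good h P Q σ)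
    (hP : P ∈ S.T) (hU : U ∈ S.T) : S.Good (g * h) P U σ :=
  ⟨by rw [mul_smul, hh.1, hg.1], Loc.mul (by rw [hh.pos hP]; exact hg.2.1) hh.2.1, by
    rw [mul_inv_rev]
    exact Loc.mul (by rw [hg.inv.pos hU]; exact hh.2.2) hg.2.2⟩

omit [InnerProductSpace ℝ E] in
theorem Good.one (P : X) (σ : ℝ) : S.Good 1 P P σ :=
  ⟨one_smul _ _, Loc.one _ _, by rw [inv_one]; exact Loc.one _ _⟩

/-- The stabiliser of the cluster of radius `σ` at `P`. -/
def St (S : Sys E X) {P : X} (hP : P ∈ S.T) (σ : ℝ) : Subgroup (E ≃ᵢ E) where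
  carrier := {g | S.Good g P P σ}
  mul_mem' ha hb := Good.mul ha hb hP hP
  one_mem' := Good.one P σ
  inv_mem' ha := Good.inv ha

variable [FiniteDimensional ℝ E]

/-- An isometry fixing all positions within `3R` of a site is the identity. -/
theorem span_fix {g : E ≃ᵢ E} {P : X} (hP : P ∈ S.T)
    (h : ∀ Q ∈ S.T, dist (S.pos Q) (S.pos P) ≤ 3 * S.R → g (S.pos Q) = S.pos Q) : g = 1 := by
  have hR := S.R_pos
  have hy := h P hP (by rw [dist_self]; positivity)
  refine eq_one_of_lin hy ?_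
  by_contra hne
  set K : Submodule ℝ E := LinearMap.ker ((lin g - 1 : E →L[ℝ] E) : E →ₗ[ℝ] E) with hK
  have hK1 : Kᗮ ≠ ⊥ := by
    rw [Ne, Submodule.orthogonal_eq_bot_iff, hK, LinearMap.ker_eq_top]
    intro h0
    apply hne
    rw [← sub_eq_zero]
    exact ContinuousLinearMap.coe_injective h0
  obtain ⟨n, hn, hn0⟩ := Submodule.exists_mem_ne_zero_of_ne_bot hK1
  have hn1 : 0 < ‖n‖ := norm_pos_iff.mpr hn0
  set e : E := (‖n‖⁻¹ : ℝ) • n with he
  have he1 : ‖e‖ = 1 := by rw [he, norm_smul]; simp [hn1.ne']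
  have heK : e ∈ Kᗮ := Submodule.smul_mem _ _ hn
  obtain ⟨Q, hQ, hd⟩ := S.cover (S.pos P + (2 * S.R) • e)
  have hz : dist (S.pos P + (2 * S.R) • e) (S.pos P) = 2 * S.R := by
    rw [dist_eq_norm, add_sub_cancel_left, norm_smul, he1, Real.norm_of_nonneg (by positivity),
      mul_one]
  have hQ3 : dist (S.pos Q) (S.pos P) ≤ 3 * S.R := by
    have := dist_triangle_left (S.pos Q) (S.pos P) (S.pos P + (2 * S.R) • e)
    linarith
  have hmem : S.pos Q - S.pos P ∈ K := by
    rw [hK, LinearMap.mem_ker]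
    show lin g _ - _ = 0
    rw [lin_sub, h Q hQ hQ3, hy]; simp
  have h0 : ⟪S.pos Q - S.pos P, e⟫ = 0 := Submodule.inner_right_of_mem_orthogonal hmem heK
  have h1 := abs_real_inner_le_norm (S.pos P + (2 * S.R) • e - S.pos Q) e
  rw [← dist_eq_norm, he1, mul_one] at h1
  have h2 : ⟪S.pos P + (2 * S.R) • e - S.pos Q, e⟫ = 2 * S.R := by
    have : S.pos P + (2 * S.R) • e - S.pos Q = (2 * S.R) • e - (S.pos Q - S.pos P) := by abel
    rw [this, inner_sub_left, h0, inner_smul_left, real_inner_self_eq_norm_sq, he1]; simp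
  rw [h2, abs_of_pos (by positivity)] at h1
  linarith

/-- Iterated commutators. -/
def itc (A B : E ≃ᵢ E) : ℕ → (E ≃ᵢ E)
  | 0 => A
  | k + 1 => itc A B k * B * (itc A B k)⁻¹ * B⁻¹

/-- Local symmetries near the identity at nearby sites commute. -/
theorem commute_near {A B : E ≃ᵢ E} {P Q : X} (hP : P ∈ S.T) (hQ : Q ∈ S.T) {L σ : ℝ}
    (hL : dist (S.pos Q) (S.pos P) ≤ L) (hσ : 3 * S.R + 2 * L ≤ σ)
    (hA : S.Good A P P σ) (hB : S.Good B Q Q σ)
    (hA' : ‖lin A - 1‖ < 1 / 2) (hB' : ‖lin B - 1‖ < 1 / 2) : Commute A B := by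
  have hR := S.R_pos
  have hL0 : 0 ≤ L := dist_nonneg.trans hL
  set y := S.pos Q with hy
  have hBy : B y = y := hB.pos hQ
  have hBy' : B⁻¹ y = y := hB.inv.pos hQ
  set t := 2 * ‖lin B - 1‖ with ht
  have ht0 : 0 ≤ t := by positivity
  have ht1 : t < 1 := by linarith
  have inv : ∀ k : ℕ, dist (itc A B k y) y ≤ L / 2 * (1 / 2) ^ k ∧
      ‖lin (itc A B k) - 1‖ ≤ t ^ k * (1 / 2) ∧
      S.Loc (itc A B k) y (3 * S.R + L * (1 / 2) ^ k) ∧
      S.Loc (itc A B k)⁻¹ y (3 * S.R + L * (1 / 2) ^ k) := by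
    intro k
    induction k with
    | zero =>
      refine ⟨?_, by simpa [itc] using hA'.le, hA.2.1.shift (by simp; linarith),
        hA.2.2.shift (by simp; linarith)⟩
      have := dist_move A y (S.pos P)
      rw [hA.pos hP, dist_self] at this
      simp only [itc]
      nlinarith [norm_nonneg (lin A - 1), dist_nonneg (x := y) (y := S.pos P)]
    | succ k ih =>
      obtain ⟨h1, h2, h3, h4⟩ := ih
      simp only [itc]
      set f := itc A B k
      set c : ℝ := (1 / 2) ^ k with hc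
      have hc0 : 0 < c := by positivity
      have hc1 : c ≤ 1 := pow_le_one₀ (by norm_num) (by norm_num)
      have hLc : L * c ≤ L := by nlinarith
      have hLc0 : 0 ≤ L * c := by positivity
      have e1 : (1 / 2 : ℝ) ^ (k + 1) = c / 2 := by rw [pow_succ]; ring
      have d1 : dist (f⁻¹ y) y = dist (f y) y := by
        rw [← f.dist_eq, dist_comm]; simp
      have d2 : dist (B (f⁻¹ y)) y = dist (f y) y := by
        rw [← d1, ← B.dist_eq (f⁻¹ y), hBy]
      have d3 : dist (B⁻¹ (f⁻¹ y)) y = dist (f y) y := by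
        rw [← d1, ← B⁻¹.dist_eq (f⁻¹ y), hBy']
      have d4 : dist (f (B⁻¹ (f⁻¹ y))) y ≤ 2 * dist (f y) y := by
        have := dist_triangle (f (B⁻¹ (f⁻¹ y))) (f y) y
        rw [f.dist_eq, d3] at this
        linarith
      rw [e1]
      refine ⟨?_, ?_, ?_, ?_⟩
      · have e : (f * B * f⁻¹ * B⁻¹) y = f (B (f⁻¹ y)) := by simp [hBy']
        have e' : dist (f (B (f⁻¹ y))) y = dist (B (f⁻¹ y)) (f⁻¹ y) := by
          rw [← f.dist_eq (B _)]; simp
        have := dist_move B (f⁻¹ y) y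
        rw [hBy, dist_self, d1] at this
        rw [e, e']
        nlinarith [norm_nonneg (lin B - 1), dist_nonneg (x := f y) (y := y)]
      · refine (norm_lin_comm f B).trans ?_
        rw [pow_succ, ← ht]
        nlinarith
      · refine Loc.mul ?_ (hB.2.2.mono (by nlinarith))
        rw [hBy']
        refine Loc.mul ?_ (h4.mono (by nlinarith))
        exact Loc.mul (h3.shift (by rw [d2]; nlinarith)) (hB.2.1.shift (by rw [d1]; nlinarith))
      · have e : (f * B * f⁻¹ * B⁻¹)⁻¹ = B * f * B⁻¹ * f⁻¹ := by group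
        rw [e]
        refine Loc.mul ?_ (h4.mono (by nlinarith))
        refine Loc.mul ?_ (hB.2.2.shift (by rw [d1]; nlinarith))
        exact Loc.mul (hB.2.1.shift (by nlinarith)) (h3.shift (by rw [d3]; nlinarith))
  have lim : Filter.Tendsto (fun k : ℕ => L / 2 * (1 / 2) ^ k + t ^ k * (1 / 2) * (4 * S.R))
      Filter.atTop (nhds 0) := by
    have a1 := tendsto_pow_atTop_nhds_zero_of_lt_one (r := (1 / 2 : ℝ)) (by norm_num) (by norm_num)
    have a2 := tendsto_pow_atTop_nhds_zero_of_lt_one ht0 ht1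
    have a3 := (a1.const_mul (L / 2)).add ((a2.mul_const (1 / 2)).mul_const (4 * S.R))
    rwa [mul_zero, zero_mul, zero_mul, add_zero] at a3
  obtain ⟨k, hk⟩ := (lim.eventually (ge_mem_nhds S.r_pos)).exists
  have hk1 : itc A B k = 1 := by
    obtain ⟨h1, h2, h3, -⟩ := inv k
    refine span_fix hQ fun U hU hd => ?_
    have hm := h3 U hU (hd.trans (by have : 0 ≤ L * (1 / 2) ^ k := by positivity
                                     linarith))
    rw [← S.equiv _ U hU, S.sep _ U hU hm fun x hx => ?_]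
    have := dist_move (itc A B k) x y
    have h5 : dist x y ≤ 4 * S.R := by linarith [dist_triangle x (S.pos U) y]
    have h6 : ‖lin (itc A B k) - 1‖ * dist x y ≤ t ^ k * (1 / 2) * (4 * S.R) := by gcongr
    linarith
  have down : ∀ j, Commute (itc A B j) B → Commute A B := by
    intro j
    induction j with
    | zero => exact id
    | succ j ih =>
      intro h
      refine ih (frob _ B hBy ?_ h)
      have := (inv j).2.1
      have h1 : t ^ j ≤ 1 := pow_le_one₀ ht0 ht1.le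
      linarith
  exact down k (by rw [hk1]; exact Commute.one_left B)

end Sys

end Pool.Agent.Lib.MP_6d95fe_co.Del
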