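import Pool.Agent.Lib.MP_6d95fe_co.H50Del2

/-! Commuting point symmetries leave a hole; packing; chains of subgroups. -/

namespace Pool.Agent.Lib.MP_6d95fe_co.Del

open scoped RealInnerProductSpace

set_option linter.deprecated false

variable {E : Type*} [NormedAddCommGroup E] [InnerProductSpace ℝ E]

/-- The symmetric operator `2 - a - a⁻¹`. -/
noncomputable def sq (a : E ≃ᵢ E) : E →ₗ[ℝ] E :=
  ((1 + 1 - lin a - lin a⁻¹ : E →L[ℝ] E) : E →ₗ[ℝ] E)

theorem sq_apply (a : E ≃ᵢ E) (v : E) : sq a v = v + v - lin a v - lin a⁻¹ v := rfl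

theorem sq_symm (a : E ≃ᵢ E) : (sq a).IsSymmetric := fun u v => by
  simp only [sq_apply, inner_sub_left, inner_sub_right, inner_add_left, inner_add_right,
    inner_lin_left, inv_inv]
  ring

theorem sq_comm {a b : E ≃ᵢ E} (h : Commute a b) : Commute (sq a) (sq b) := by
  have h2 : ∀ M : E →L[ℝ] E, Commute M (1 + 1) := fun M =>
    (Commute.one_right M).add_right (Commute.one_right M)
  have key : Commute (1 + 1 - lin a - lin a⁻¹ : E →L[ℝ] E) (1 + 1 - lin b - lin b⁻¹) := by
    refine Commute.sub_right (Commute.sub_right (h2 _) ?_) ?_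
    · exact ((h2 _).symm.sub_left (h.map lin)).sub_left (h.inv_left.map lin)
    · exact ((h2 _).symm.sub_left (h.inv_right.map lin)).sub_left (h.inv_inv.map lin)
  ext v
  exact congrArg (fun M : E →L[ℝ] E => M v) key.eq

theorem sq_fix {a : E ≃ᵢ E} {w : E} (h : lin a w = w) : sq a w = 0 := by
  have : lin a⁻¹ w = w := by
    conv_lhs => rw [← h]
    exact lin_inv_lin a w
  rw [sq_apply, h, this]; simp

theorem lin_eq_one_of_sq {a : E ≃ᵢ E} (h : sq a = 0) : lin a = 1 := by
  ext v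
  have h1 : ⟪sq a v, v⟫ = 0 := by rw [h]; simp
  have h2 : ⟪v - lin a v, v - lin a v⟫ = ⟪sq a v, v⟫ := by
    simp only [sq_apply, inner_sub_left, inner_sub_right, inner_add_left, inner_lin,
      inner_lin_left a⁻¹, inv_inv]
    ring
  rw [h1, inner_self_eq_zero, sub_eq_zero] at h2
  exact h2.symm

theorem sq_sq {a b : E ≃ᵢ E} {y z : E} (h : Commute a b) (ha : a y = y) (hb : b z = z) :
    sq b (sq a (z - y)) = 0 := by
  have ha' : a⁻¹ y = y := by
    conv_lhs => rw [← ha]
    simp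
  have fx : ∀ c : E ≃ᵢ E, Commute c b → sq b (c z - z) = 0 := fun c hc => by
    refine sq_fix ?_
    have := congrArg (fun g : E ≃ᵢ E => g z) hc.eq
    simp only [IsometryEquiv.mul_apply, hb] at this
    rw [lin_sub, hb, ← this]
  have e : sq a (z - y) = -(a z - z) - (a⁻¹ z - z) := by
    rw [sq_apply, lin_sub, lin_sub, ha, ha']; abel
  rw [e, map_sub, map_neg, fx a h, fx a⁻¹ h.inv_left]; simp

variable [FiniteDimensional ℝ E]

/-- Fixed points of pairwise commuting non-trivial isometries leave a hole near every point. -/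
theorem hole {ι : Type*} (y : ι → E) (a : ι → E ≃ᵢ E) (hy : ∀ i, a i (y i) = y i)
    (h1 : ∀ i, a i ≠ 1) (hc : ∀ i j, Commute (a i) (a j)) (x : E) {R : ℝ} (hR : 0 < R) :
    ∃ z, dist z x ≤ 2 * Module.finrank ℝ E * R ∧ ∀ i, R < dist z (y i) := by
  classical
  let V : (ι → ℝ) → Submodule ℝ E := fun χ => ⨅ i, Module.End.eigenspace (sq (a i)) (χ i)
  have htop : ⨆ χ, V χ = ⊤ :=
    LinearMap.IsSymmetric.iSup_iInf_eq_top_of_commute (fun i => sq_symm (a i))
      fun i j _ => sq_comm (hc i j)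
  have hort := LinearMap.IsSymmetric.orthogonalFamily_iInf_eigenspaces
    (T := fun i => sq (a i)) (fun i => sq_symm (a i))
  have hV : ∀ χ, ∀ v ∈ V χ, ∀ i, sq (a i) v = χ i • v := fun χ v hv i =>
    Module.End.mem_eigenspace_iff.mp ((Submodule.mem_iInf _).mp hv i)
  have hex : ∀ χ : {χ // V χ ≠ ⊥}, ∃ e ∈ V χ.1, ‖e‖ = 1 := fun χ => by
    obtain ⟨n, hn, hn0⟩ := Submodule.exists_mem_ne_zero_of_ne_bot χ.2
    exact ⟨(‖n‖⁻¹ : ℝ) • n, Submodule.smul_mem _ _ hn, by
      rw [norm_smul]; simp [norm_ne_zero_iff.mpr hn0]⟩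
  choose e he he1 using hex
  have hon : Orthonormal ℝ e := ⟨he1, fun χ ψ hne =>
    hort (fun h => hne (Subtype.ext h)) ⟨e χ, he χ⟩ ⟨e ψ, he ψ⟩⟩
  have : Finite {χ // V χ ≠ ⊥} := hon.linearIndependent.finite
  have := Fintype.ofFinite {χ // V χ ≠ ⊥}
  have hcard := hon.linearIndependent.fintype_card_le_finrank
  have htype : ∀ i, ∃ χ : {χ // V χ ≠ ⊥}, χ.1 i ≠ 0 := fun i => by
    by_contra hn
    push Not at hn
    refine h1 i (eq_one_of_lin (hy i) (lin_eq_one_of_sq ?_))
    rw [← LinearMap.ker_eq_top, eq_top_iff, ← htop]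
    refine iSup_le fun χ v hv => ?_
    by_cases h : V χ = ⊥
    · rw [h, Submodule.mem_bot] at hv
      rw [hv]; exact Submodule.zero_mem _
    · rw [LinearMap.mem_ker, hV χ v hv i, show χ i = 0 from hn ⟨χ, h⟩, zero_smul]
  have hconst : ∀ χ : {χ // V χ ≠ ⊥}, ∃ c : ℝ, ∀ i, χ.1 i ≠ 0 → ⟪y i, e χ⟫ = c := fun χ => by
    by_cases h : ∃ j, χ.1 j ≠ 0
    · obtain ⟨j, hj⟩ := h
      refine ⟨⟪y j, e χ⟫, fun i hi => ?_⟩
      have h0 : ⟪sq (a i) (sq (a j) (y i - y j)), e χ⟫ = 0 := by
        rw [sq_sq (hc j i) (hy j) (hy i), inner_zero_left]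
      rw [sq_symm, hV _ _ (he χ), inner_smul_right, sq_symm, hV _ _ (he χ), inner_smul_right,
        inner_sub_left] at h0
      simpa [hi, hj, sub_eq_zero] using h0
    · exact ⟨0, fun i hi => absurd ⟨i, hi⟩ h⟩
  choose c hc' using hconst
  let s : {χ // V χ ≠ ⊥} → ℝ := fun χ => if c χ ≤ ⟪x, e χ⟫ then 2 * R else -(2 * R)
  refine ⟨x + ∑ χ, s χ • e χ, ?_, fun i => ?_⟩
  · rw [dist_eq_norm, add_sub_cancel_left]
    refine (norm_sum_le _ _).trans ?_
    have : ∀ χ, ‖s χ • e χ‖ = 2 * R := fun χ => by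
      rw [norm_smul, he1, mul_one, Real.norm_eq_abs]
      simp only [s]
      split_ifs
      · exact abs_of_pos (by positivity)
      · rw [abs_neg]; exact abs_of_pos (by positivity)
    simp only [this, Finset.sum_const, Finset.card_univ, nsmul_eq_mul]
    have : (Fintype.card {χ // V χ ≠ ⊥} : ℝ) ≤ Module.finrank ℝ E := by exact_mod_cast hcard
    nlinarith
  · obtain ⟨χ, hχ⟩ := htype i
    have h2 := abs_real_inner_le_norm (x + ∑ χ, s χ • e χ - y i) (e χ)
    rw [← dist_eq_norm, he1, mul_one, inner_sub_left, inner_add_left, hon.inner_left_fintype,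
      hc' χ i hχ] at h2
    simp only [s, conj_trivial] at h2
    split_ifs at h2 with h
    · linarith [le_abs_self (⟪x, e χ⟫ + 2 * R - c χ)]
    · linarith [neg_abs_le (⟪x, e χ⟫ + -(2 * R) - c χ)]

/-- A group of isometries without elements close to translations is small. -/
theorem pack (H : Subgroup (E ≃ᵢ E)) (h : ∀ g ∈ H, ‖lin g - 1‖ < 1 / 2 → g = 1) :
    Finite H ∧ Nat.card H ≤ 5 ^ (Module.finrank ℝ E ^ 2) := by
  classical
  have hd : Module.finrank ℝ (E →L[ℝ] E) = Module.finrank ℝ E ^ 2 := by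
    rw [← LinearMap.toContinuousLinearMap.finrank_eq, Module.finrank_linearMap, pow_two]
  have hs : ∀ g ∈ H, ∀ k ∈ H, g ≠ k → 1 ≤ ‖(2 : ℝ) • lin g - (2 : ℝ) • lin k‖ :=
    fun g hg k hk hne => by
      rw [← smul_sub, norm_smul, Real.norm_two]
      by_contra hlt
      have := norm_lin_inv_mul g k
      have e := h _ (H.mul_mem (H.inv_mem hk) hg) (by linarith)
      exact hne (inv_mul_eq_one.mp e).symm
  have hb : ∀ s : Finset (E ≃ᵢ E), (s : Set (E ≃ᵢ E)) ⊆ H → s.card ≤ 5 ^ (Module.finrank ℝ E ^ 2) :=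
    fun s hsH => by
      have inj : Set.InjOn (fun g : E ≃ᵢ E => (2 : ℝ) • lin g) s := fun g hg k hk e => by
        by_contra hne
        have := hs g (hsH hg) k (hsH hk) hne
        simp only at e
        rw [e, sub_self, norm_zero] at this
        linarith
      rw [← Finset.card_image_of_injOn inj, ← hd]
      refine Besicovitch.card_le_of_separated _ (fun M hM => ?_) fun M hM N hN hne => ?_
      · obtain ⟨g, -, rfl⟩ := Finset.mem_image.mp hM
        rw [norm_smul, Real.norm_two]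
        linarith [norm_lin_le g]
      · obtain ⟨g, hg, rfl⟩ := Finset.mem_image.mp hM
        obtain ⟨k, hk, rfl⟩ := Finset.mem_image.mp hN
        exact hs g (hsH hg) k (hsH hk) fun e => hne (by rw [e])
  have hf : (H : Set (E ≃ᵢ E)).Finite := by
    by_contra hi
    obtain ⟨t, ht, hc⟩ := Set.Infinite.exists_subset_card_eq hi (5 ^ (Module.finrank ℝ E ^ 2) + 1)
    have := hb t ht
    omega
  refine ⟨hf, ?_⟩
  have := hb hf.toFinset (by simp)
  rwa [← Set.ncard_eq_toFinset_card _ hf, ← Nat.card_coe_set_eq] at this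

/-- A decreasing chain of subgroups of a finite group. -/
theorem chain {G : Type*} [Group G] (H : ℕ → Subgroup G) (hH : ∀ k, H (k + 1) ≤ H k)
    (hf : Finite (H 0)) (m : ℕ) (hm : Nat.card (H 0) < 2 ^ m) : ∃ k < m, H k ≤ H (k + 1) := by
  by_contra hn
  push Not at hn
  have fin : ∀ k, Finite (H k) := fun k =>
    Finite.of_injective _ (Subgroup.inclusion_injective (antitone_nat_of_succ_le hH (Nat.zero_le k)))
  have key : ∀ k ≤ m, 2 ^ k * Nat.card (H k) ≤ Nat.card (H 0) := by
    intro k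
    induction k with
    | zero => simp
    | succ k ih =>
      intro hk
      refine le_trans ?_ (ih (by omega))
      obtain ⟨q, hq⟩ := Subgroup.card_dvd_of_le (hH k)
      have := fin k
      have h0 : 0 < Nat.card (H k) := Nat.card_pos
      have hq0 : q ≠ 0 := by rintro rfl; omega
      have hq1 : q ≠ 1 := by
        rintro rfl
        exact hn k (by omega) (Subgroup.eq_of_le_of_card_ge (hH k) (by omega)).ge
      have hq2 : 2 ≤ q := by omega
      rw [hq, pow_succ, mul_assoc, mul_comm 2]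
      gcongr
  have := key m le_rfl
  have := fin m
  have h0 : 0 < Nat.card (H m) := Nat.card_pos
  nlinarith [Nat.two_pow_pos m]

end Pool.Agent.Lib.MP_6d95fe_co.Del
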