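import Pool.Agent.Lib.MP_6d95fe_co.H50Del3

/-! The local criterion with a radius that does not depend on the separation. -/

namespace Pool.Agent.Lib.MP_6d95fe_co.Del

open scoped RealInnerProductSpace

variable {E : Type*} [NormedAddCommGroup E] [InnerProductSpace ℝ E] [FiniteDimensional ℝ E]
variable {X : Type*} [MulAction (E ≃ᵢ E) X]

namespace Sys

variable {S : Sys E X}

theorem no_small {ρ σ : ℝ} (hloc : ∀ P ∈ S.T, ∀ Q ∈ S.T, ∃ g, S.Good g P Q ρ) (hρ : σ ≤ ρ)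
    (hσ : (8 * Module.finrank ℝ E + 7) * S.R ≤ σ) {P : X} (hP : P ∈ S.T) {A : E ≃ᵢ E}
    (hA : S.Good A P P σ) (hA' : ‖lin A - 1‖ < 1 / 2) : A = 1 := by
  by_contra hne
  have hR := S.R_pos
  set d : ℝ := (Module.finrank ℝ E : ℝ) with hd
  choose g hg using hloc P hP
  let ι := {Q // Q ∈ S.T ∧ dist (S.pos Q) (S.pos P) ≤ (2 * d + 1) * S.R}
  let a : ι → E ≃ᵢ E := fun Q => g Q.1 Q.2.1 * A * (g Q.1 Q.2.1)⁻¹
  have ha : ∀ Q : ι, S.Good (a Q) Q.1 Q.1 σ := fun Q =>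
    (((hg Q.1 Q.2.1).mono hρ).mul hA hP Q.2.1).mul ((hg Q.1 Q.2.1).mono hρ).inv Q.2.1 Q.2.1
  have hs : ∀ Q : ι, ‖lin (a Q) - 1‖ < 1 / 2 := fun Q => (norm_lin_conj _ _).trans_lt hA'
  obtain ⟨z, hz, hh⟩ := hole (fun Q : ι => S.pos Q.1) a (fun Q => (ha Q).pos Q.2.1)
    (fun Q h => hne (by simpa [a] using h))
    (fun U Q => commute_near (L := (4 * d + 2) * S.R) U.2.1 Q.2.1
      (by linarith [dist_triangle_right (S.pos Q.1) (S.pos U.1) (S.pos P), Q.2.2, U.2.2])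
      (by linarith) (ha U) (ha Q) (hs U) (hs Q)) (S.pos P) hR
  obtain ⟨Q, hQ, hq⟩ := S.cover z
  have := hh ⟨Q, hQ, by linarith [dist_triangle_left (S.pos Q) (S.pos P) z]⟩
  exact absurd hq (not_le.mpr this)

omit [FiniteDimensional ℝ E] in
theorem spread {σ : ℝ} (hσ : 0 ≤ σ)
    (hloc : ∀ P ∈ S.T, ∀ Q ∈ S.T, ∃ g, S.Good g P Q (σ + 3 * S.R))
    (hst : ∀ Q ∈ S.T, ∀ h, S.Good h Q Q σ → S.Good h Q Q (σ + 3 * S.R))
    {g : E ≃ᵢ E} {P : X} (hP : P ∈ S.T) (hg : S.Good g P (g • P) (σ + 3 * S.R)) :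
    ∀ U ∈ S.T, g • U ∈ S.T := by
  have hR := S.R_pos
  have step : ∀ U ∈ S.T, ∀ W ∈ S.T, dist (S.pos W) (S.pos U) ≤ 3 * S.R →
      S.Good g U (g • U) (σ + 3 * S.R) → g • W ∈ S.T ∧ S.Good g W (g • W) (σ + 3 * S.R) := by
    intro U hU W hW hd h
    have hW' := h.2.1 W hW (by linarith)
    have h1 : S.Good g W (g • W) σ := ⟨rfl, h.2.1.shift (by linarith), h.2.2.shift (by
      rw [S.equiv g W hW, S.equiv g U hU, g.dist_eq]; linarith)⟩
    obtain ⟨k, hk⟩ := hloc W hW _ hW'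
    have h2 := hst W hW _ ((hk.mono (by linarith)).inv.mul h1 hW hW)
    have h3 := hk.mul h2 hW hW'
    rw [mul_inv_cancel_left] at h3
    exact ⟨hW', h3⟩
  have all : ∀ n : ℕ, ∀ W ∈ S.T, dist (S.pos W) (S.pos P) ≤ n * S.R →
      g • W ∈ S.T ∧ S.Good g W (g • W) (σ + 3 * S.R) := by
    intro n
    induction n with
    | zero => exact fun W hW hd => step P hP W hW (by simp only [Nat.cast_zero] at hd; linarith) hg
    | succ n ih =>
      intro W hW hd
      by_cases h3 : dist (S.pos W) (S.pos P) ≤ 3 * S.R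
      · exact step P hP W hW h3 hg
      push Not at h3
      set D := dist (S.pos W) (S.pos P) with hD
      have hD0 : 0 < D := by linarith
      set t := 2 * S.R / D with ht
      have ht0 : 0 ≤ t := by positivity
      have htD : t * D = 2 * S.R := by rw [ht]; field_simp
      have ht1 : t ≤ 1 := by rw [ht, div_le_one hD0]; linarith
      obtain ⟨U, hU, hu⟩ := S.cover (AffineMap.lineMap (S.pos W) (S.pos P) t)
      have e1 : dist (AffineMap.lineMap (S.pos W) (S.pos P) t) (S.pos W) = 2 * S.R := by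
        rw [dist_lineMap_left, Real.norm_of_nonneg ht0, htD]
      have e2 : dist (AffineMap.lineMap (S.pos W) (S.pos P) t) (S.pos P) = D - 2 * S.R := by
        rw [dist_lineMap_right, Real.norm_of_nonneg (by linarith), ← hD, sub_mul, htD, one_mul]
      have d1 := dist_triangle_left (S.pos W) (S.pos U) (AffineMap.lineMap (S.pos W) (S.pos P) t)
      have d2 := dist_triangle_left (S.pos U) (S.pos P) (AffineMap.lineMap (S.pos W) (S.pos P) t)
      push_cast at hd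
      exact step U hU W hW (by linarith) (ih U hU (by linarith)).2
  intro U hU
  obtain ⟨n, hn⟩ := exists_nat_ge (dist (S.pos U) (S.pos P) / S.R)
  exact (all n U hU ((div_le_iff₀ hR).mp hn)).1

/-- Congruent clusters of radius `(9 d² + 8 d + 7) R` force a transitive symmetry group. -/
theorem regular (hloc : ∀ P ∈ S.T, ∀ Q ∈ S.T, ∃ g, S.Good g P Q
      ((9 * (Module.finrank ℝ E : ℝ) ^ 2 + 8 * Module.finrank ℝ E + 7) * S.R))
    {P Q : X} (hP : P ∈ S.T) (hQ : Q ∈ S.T) :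
    ∃ g : E ≃ᵢ E, g • P = Q ∧ (∀ U ∈ S.T, g • U ∈ S.T) ∧ ∀ U ∈ S.T, g⁻¹ • U ∈ S.T := by
  have hR := S.R_pos
  set d := Module.finrank ℝ E with hd
  rcases Nat.eq_zero_or_pos d with h0 | hd0
  · obtain ⟨g, hg⟩ := hloc P hP Q hQ
    have : Subsingleton E := Module.finrank_zero_iff.mp h0
    have h1 : g = 1 := by ext x; exact Subsingleton.elim _ _
    refine ⟨g, hg.1, fun U hU => ?_, fun U hU => ?_⟩ <;> simpa [h1] using hU
  have hd' : (0 : ℝ) ≤ d := Nat.cast_nonneg _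
  let H : ℕ → Subgroup (E ≃ᵢ E) := fun k => S.St hP ((8 * d + 7) * S.R + 3 * k * S.R)
  have hH : ∀ k, H (k + 1) ≤ H k := fun k g hg =>
    Good.mono hg (by push_cast; nlinarith)
  obtain ⟨hf, hc⟩ := pack (H 0) fun g hg hs =>
    no_small hloc (σ := (8 * d + 7) * S.R + 3 * (0 : ℕ) * S.R)
      (by push_cast; nlinarith [sq_nonneg (d : ℝ)]) (by push_cast; linarith) hP hg hs
  obtain ⟨k, hk, hk'⟩ := chain H hH hf (3 * d ^ 2) (hc.trans_lt (by
    rw [pow_mul]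
    exact Nat.pow_lt_pow_left (by norm_num) (by positivity)))
  set σ : ℝ := (8 * d + 7) * S.R + 3 * k * S.R with hσ
  have hk1 : (k : ℝ) + 1 ≤ 3 * (d : ℝ) ^ 2 := by exact_mod_cast hk
  have hloc' : ∀ U ∈ S.T, ∀ W ∈ S.T, ∃ g, S.Good g U W (σ + 3 * S.R) := fun U hU W hW =>
    (hloc U hU W hW).imp fun g hg => hg.mono (by nlinarith)
  have hst : ∀ W ∈ S.T, ∀ h, S.Good h W W σ → S.Good h W W (σ + 3 * S.R) := fun W hW h hh => by
    obtain ⟨g, hg⟩ := hloc' P hP W hW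
    have hg' : S.Good g P W σ := hg.mono (by linarith)
    have h1 : g⁻¹ * (h * g) ∈ H k := hg'.inv.mul (hh.mul hg' hP hW) hP hP
    have h2 : S.Good (g⁻¹ * (h * g)) P P (σ + 3 * S.R) :=
      Good.mono (hk' h1) (by push_cast; linarith)
    have h3 := (hg.mul h2 hP hW).mul hg.inv hW hW
    simpa using h3
  obtain ⟨g, hg⟩ := hloc' P hP Q hQ
  have hσ0 : 0 ≤ σ := by positivity
  exact ⟨g, hg.1, spread hσ0 hloc' hst hP (by rw [hg.1]; exact hg),
    spread hσ0 hloc' hst hQ (by rw [hg.inv.1]; exact hg.inv)⟩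

end Sys

end Pool.Agent.Lib.MP_6d95fe_co.Del
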