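import Pool.Agent.Lib.MP_6d95fe_co.H50Del4

/-! Circumcentres, and the theorem for families of bounded sets. -/

namespace Pool.Agent.Lib.MP_6d95fe_co.Del

variable {E : Type*} [NormedAddCommGroup E] [InnerProductSpace ℝ E]

/-- `c` is a centre of a smallest ball containing `P`. -/
def IsCc (P : Set E) (c : E) : Prop :=
  ∀ x t, (∀ p ∈ P, dist x p ≤ t) → ∀ p ∈ P, dist c p ≤ t

theorem IsCc.unique {P : Set E} {c c' : E} {D : ℝ} (hne : P.Nonempty)
    (hD : ∀ p ∈ P, ∀ q ∈ P, dist p q ≤ D) (h : IsCc P c) (h' : IsCc P c') : c = c' := by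
  obtain ⟨p0, hp0⟩ := hne
  have hb : BddAbove ((fun p => dist c p) '' P) :=
    ⟨D, by rintro _ ⟨p, hp, rfl⟩; exact h p0 D (hD p0 hp0) p hp⟩
  set t := sSup ((fun p => dist c p) '' P) with ht
  have h1 : ∀ p ∈ P, dist c p ≤ t := fun p hp => le_csSup hb ⟨p, hp, rfl⟩
  have h2 := h' c t h1
  have h3 : ∀ p ∈ P, dist (midpoint ℝ c c') p ≤ √(t ^ 2 - dist c c' ^ 2 / 4) := fun p hp => by
    refine Real.le_sqrt_of_sq_le ?_
    have e1 : c - p + (c' - p) = (2 : ℝ) • (midpoint ℝ c c' - p) := by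
      rw [smul_sub, two_smul, two_smul, midpoint_add_self]; abel
    have e2 : c - p - (c' - p) = c - c' := by abel
    have := parallelogram_law_with_norm ℝ (c - p) (c' - p)
    rw [e1, e2, norm_smul, Real.norm_two] at this
    simp only [← dist_eq_norm] at this
    nlinarith [h1 p hp, h2 p hp, dist_nonneg (x := c) (y := p), dist_nonneg (x := c') (y := p)]
  have h4 : t ≤ √(t ^ 2 - dist c c' ^ 2 / 4) :=
    csSup_le ⟨_, p0, hp0, rfl⟩ (by rintro _ ⟨p, hp, rfl⟩; exact h _ _ h3 p hp)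
  have ht0 : 0 ≤ t := dist_nonneg.trans (h1 p0 hp0)
  have h5 : dist c c' ≤ 2 * t := by
    linarith [dist_triangle_right c c' p0, h1 p0 hp0, h2 p0 hp0]
  have h6 := (Real.le_sqrt ht0 (by nlinarith [dist_nonneg (x := c) (y := c')])).mp h4
  have h7 : dist c c' = 0 := by nlinarith [dist_nonneg (x := c) (y := c')]
  exact dist_eq_zero.mp h7

omit [InnerProductSpace ℝ E] in
theorem IsCc.image {P : Set E} {c : E} (h : IsCc P c) (g : E ≃ᵢ E) : IsCc (g '' P) (g c) := by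
  rintro x t hx _ ⟨p, hp, rfl⟩
  rw [g.dist_eq]
  refine h (g.symm x) t (fun q hq => ?_) p hp
  rw [← g.dist_eq, g.apply_symm_apply]
  exact hx _ ⟨q, hq, rfl⟩

variable [FiniteDimensional ℝ E]

theorem exists_isCc {P : Set E} {D : ℝ} (hne : P.Nonempty)
    (hD : ∀ p ∈ P, ∀ q ∈ P, dist p q ≤ D) : ∃ c, IsCc P c := by
  obtain ⟨p0, hp0⟩ := hne
  let F : E → ℝ := fun x => sSup ((fun p => dist x p) '' P)
  have hb : ∀ x, BddAbove ((fun p => dist x p) '' P) := fun x =>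
    ⟨dist x p0 + D, by
      rintro _ ⟨p, hp, rfl⟩
      linarith [dist_triangle x p0 p, hD p0 hp0 p hp]⟩
  have h1 : ∀ x, ∀ p ∈ P, dist x p ≤ F x := fun x p hp => le_csSup (hb x) ⟨p, hp, rfl⟩
  have h2 : ∀ x t, (∀ p ∈ P, dist x p ≤ t) → F x ≤ t := fun x t h =>
    csSup_le ⟨_, p0, hp0, rfl⟩ (by rintro _ ⟨p, hp, rfl⟩; exact h p hp)
  have hF : LipschitzWith 1 F := LipschitzWith.of_le_add fun x y =>
    h2 x _ fun p hp => by linarith [dist_triangle x y p, h1 y p hp]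
  have hD0 : 0 ≤ D := by simpa using hD p0 hp0 p0 hp0
  obtain ⟨c, -, hc⟩ := (isCompact_closedBall p0 D).exists_isMinOn
    ⟨p0, Metric.mem_closedBall_self hD0⟩ hF.continuous.continuousOn
  refine ⟨c, fun x t hx p hp => (h1 c p hp).trans ?_⟩
  by_cases hm : x ∈ Metric.closedBall p0 D
  · exact (hc hm).trans (h2 x t hx)
  · have a1 : F c ≤ F p0 := hc (Metric.mem_closedBall_self hD0)
    have a2 := h2 p0 D (hD p0 hp0)
    have a3 := hx p0 hp0
    rw [Metric.mem_closedBall, not_le] at hm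
    linarith

theorem main (T : Set (Set E)) (r D R : ℝ) (hr : 0 < r) (hR : 0 < R + D)
    (hne : ∀ P ∈ T, P.Nonempty) (hD : ∀ P ∈ T, ∀ p ∈ P, ∀ q ∈ P, dist p q ≤ D)
    (hsep : ∀ P ∈ T, ∀ Q ∈ T, P ≠ Q → r ≤ Metric.hausdorffDist P Q)
    (hcov : ∀ z, ∃ P ∈ T, ∃ p ∈ P, dist z p ≤ R) {ρ : ℝ}
    (hρ : ρ = (9 * (Module.finrank ℝ E : ℝ) ^ 2 + 8 * Module.finrank ℝ E + 9) * (R + D))
    (hloc : ∀ P ∈ T, ∀ Q ∈ T, ∃ g : E ≃ᵢ E, g '' P = Q ∧
      (fun S => g '' S) '' {S ∈ T | ∃ p ∈ P, ∃ s ∈ S, dist p s ≤ ρ} =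
        {S ∈ T | ∃ q ∈ Q, ∃ s ∈ S, dist q s ≤ ρ}) :
    ∀ P ∈ T, ∀ Q ∈ T, ∃ g : E ≃ᵢ E, g '' P = Q ∧ (fun S => g '' S) '' T = T := by
  let _ : MulAction (E ≃ᵢ E) (Set E) :=
    { smul := fun g P => g '' P
      one_smul := fun P => Set.image_id P
      mul_smul := fun g h P => (Set.image_image g h P).symm }
  have hsm : ∀ (g : E ≃ᵢ E) (P : Set E), g • P = g '' P := fun _ _ => rfl
  let pos : Set E → E := fun P => Classical.epsilon (IsCc P)
  have hpos : ∀ P ∈ T, IsCc P (pos P) := fun P hP =>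
    Classical.epsilon_spec (exists_isCc (hne P hP) (hD P hP))
  have hpD : ∀ P ∈ T, ∀ p ∈ P, dist (pos P) p ≤ D := fun P hP p hp =>
    hpos P hP p D (hD P hP p hp) p hp
  have hR0 : 0 ≤ R := by
    obtain ⟨P, -, p, -, h⟩ := hcov 0
    exact dist_nonneg.trans h
  let S : Sys E (Set E) :=
    { T := T, pos := pos, r := r / 2, R := R + D, r_pos := by positivity, R_pos := hR
      equiv := fun g P hP => by
        have h1 := (hpos P hP).image g
        refine IsCc.unique (D := D) ((hne P hP).image g) ?_ (Classical.epsilon_spec ⟨_, h1⟩) h1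
        rintro _ ⟨p, hp, rfl⟩ _ ⟨q, hq, rfl⟩
        rw [g.dist_eq]; exact hD P hP p hp q hq
      sep := fun g P hP hg h => by
        by_contra hn
        have h1 := hsep _ hg _ hP hn
        have h2 : ∀ p ∈ P, dist (g p) p ≤ r / 2 := fun p hp =>
          h p (by rw [dist_comm]; linarith [hpD P hP p hp])
        have h3 : Metric.hausdorffDist (g • P) P ≤ r / 2 :=
          Metric.hausdorffDist_le_of_mem_dist (by positivity)
            (by rintro _ ⟨p, hp, rfl⟩; exact ⟨p, hp, h2 p hp⟩)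
            (fun p hp => ⟨g p, ⟨p, hp, rfl⟩, by rw [dist_comm]; exact h2 p hp⟩)
        linarith
      cover := fun z => by
        obtain ⟨P, hP, p, hp, h⟩ := hcov z
        exact ⟨P, hP, by linarith [dist_triangle_right z (pos P) p, hpD P hP p hp]⟩ }
  have near : ∀ P ∈ T, ∀ U ∈ T, dist (pos U) (pos P) ≤
      (9 * (Module.finrank ℝ E : ℝ) ^ 2 + 8 * Module.finrank ℝ E + 7) * (R + D) →
      ∃ p ∈ P, ∃ s ∈ U, dist p s ≤ ρ := fun P hP U hU h => by
    obtain ⟨p, hp⟩ := hne P hP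
    obtain ⟨s, hs⟩ := hne U hU
    refine ⟨p, hp, s, hs, ?_⟩
    have := dist_triangle4 p (pos P) (pos U) s
    rw [dist_comm p (pos P), dist_comm (pos P) (pos U)] at this
    linarith [hpD P hP p hp, hpD U hU s hs]
  intro P hP Q hQ
  obtain ⟨g, h1, h2, h3⟩ := S.regular (P := P) (Q := Q) (fun U hU W hW => by
    obtain ⟨g, hg, he⟩ := hloc U hU W hW
    refine ⟨g, hg, fun V hV hd => ?_, fun V hV hd => ?_⟩
    · exact ((Set.ext_iff.mp he (g '' V)).mp ⟨V, ⟨hV, near U hU V hV hd⟩, rfl⟩).1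
    · obtain ⟨V', hV', e⟩ := (Set.ext_iff.mp he V).mpr ⟨hV, near W hW V hV hd⟩
      rw [← e]
      show g⁻¹ • g • V' ∈ T
      rw [inv_smul_smul]
      exact hV'.1) hP hQ
  refine ⟨g, h1, Set.Subset.antisymm ?_ fun U hU => ⟨g⁻¹ • U, h3 U hU, smul_inv_smul g U⟩⟩
  rintro _ ⟨U, hU, rfl⟩
  exact h2 U hU

end Pool.Agent.Lib.MP_6d95fe_co.Del
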