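import Mathlib
import Pool.Agent.Lib.MP_6d95fe_co.Corona

set_option autoImplicit false

open scoped UpperHalfPlane

namespace Pool.Agent.Lib.MP_6d95fe_co

variable {r : ℕ}

theorem affine_of_adj {p : Ix r → Ix r} (hinj : Function.Injective p)
    (hadj : ∀ i, p (i + 1) = p i + 1 ∨ p (i + 1) = p i - 1) :
    ∃ s : Ix r, (s = 1 ∨ s = -1) ∧ ∀ i, p i = p 0 + s * i := by
  obtain ⟨s, hs, h0⟩ : ∃ s : Ix r, (s = 1 ∨ s = -1) ∧ p (0 + 1) = p 0 + s := by
    rcases hadj 0 with h | h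
    · exact ⟨1, Or.inl rfl, h⟩
    · exact ⟨-1, Or.inr rfl, by rw [h]; ring⟩
  have step : ∀ i, p (i + 1) = p i + s → p (i + 1 + 1) = p (i + 1) + s := by
    intro i h
    have hne : p (i + 1 + 1) ≠ p i := fun e => succ_ne_pred (i + 1) (by
      rw [hinj e]; ring)
    rcases hadj (i + 1) with h' | h' <;> rcases hs with rfl | rfl
    · exact h'
    · exact absurd (by rw [h', h]; ring) hne
    · exact absurd (by rw [h', h]; ring) hne
    · rw [h']; ring
  have all : ∀ m : ℕ, p ((m : Ix r) + 1) = p m + s ∧ p m = p 0 + s * m := by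
    intro m
    induction m with
    | zero => exact ⟨by simpa using h0, by simp⟩
    | succ m ih =>
      push_cast
      exact ⟨step _ ih.1, by rw [ih.1, ih.2]; ring⟩
  refine ⟨s, hs, fun i => ?_⟩
  have := (all i.val).2
  rwa [ZMod.natCast_zmod_val] at this

theorem Glue.of_zero {i e : Ix r} (h : Glue i e) (hi : ty i = 0) :
    (ty e = 2 ∨ ty e = 6) ∧ i = 2 * (e - 2) := by
  rcases h with ⟨h, -⟩ | h | ⟨h, -⟩ | ⟨h, -⟩
  · exfalso; rw [hi] at h; revert h; decide
  · exact h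
  · exfalso; rw [hi] at h; revert h; decide
  · exact absurd (Or.inl hi) h

theorem Glue.of_four {i e : Ix r} (h : Glue i e) (hi : ty i = 4) : e = i := by
  rcases h with ⟨h, -⟩ | ⟨h, h'⟩ | ⟨-, h⟩ | ⟨-, h⟩
  · exfalso; rw [hi] at h; revert h; decide
  · exfalso
    have := ty_dbl h
    rw [← h', hi] at this; revert this; decide
  · exact h
  · exact h

theorem Glue.of_two {i e : Ix r} (h : Glue i e) (hi : ty i = 2 ∨ ty i = 6) : e = 2 * (i - 2) := by
  rcases h with ⟨-, h⟩ | ⟨h, h'⟩ | ⟨h, -⟩ | ⟨h, -⟩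
  · exact h
  · exfalso
    have := ty_dbl h
    rw [← h'] at this
    rw [this] at hi; revert hi; decide
  · exfalso; rw [h] at hi; revert hi; decide
  · exfalso; apply h; unfold Act; tauto

namespace Datum

variable {D : Datum r}

theorem edge_inj {G : Iso} {i j : Ix r} (h : D.edge G i = D.edge G j) : j = i :=
  eq_of_edge_subset fun _ hz => (h ▸ hz).2

theorem Nbr.tile_ne {G G' : Iso} {i e : Ix r} (h : D.Nbr G i G' e) : D.tile G ≠ D.tile G' := by
  intro he
  have hz : G D.o ∈ D.tile G := fun i => (center_mem (D := D) G i).le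
  rw [he] at hz
  linarith [h.h0 (G D.o), hz e, center_mem (D := D) G i]

theorem w_len (G : Iso) {i s : Ix r} (hs : s = 1 ∨ s = -1) {y z : ℍ} (h1 : D.w G (i - s) y = 0)
    (h2 : D.w G i y = 0) (h3 : D.w G i z = 0) (h4 : D.w G (i + s) z = 0) :
    Real.cosh (dist y z) = D.L i := by
  rw [← (G⁻¹).dist_eq]
  rcases hs with rfl | rfl
  · exact D.len i _ _ h1 h2 h3 h4
  · rw [dist_comm]
    rw [sub_neg_eq_add] at h1
    rw [← sub_eq_add_neg] at h4
    exact D.len i _ _ h4 h3 h2 h1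

variable (D) in
/-- The combinatorial action of a symmetry `g` of the tiling. -/
structure Action (g : Iso) where
  im : Iso → Iso
  p : Iso → Ix r → Ix r
  dec : ∀ G, D.Dec G → D.Dec (im G)
  tile_eq : ∀ G, D.Dec G → D.tile (im G) = D.tile (g * G)
  edge_eq : ∀ G, D.Dec G → ∀ i, D.edge (im G) (p G i) = D.edge (g * G) i

theorem nbr_image {g G N G' N' : Iso} {i e : Ix r} (hn : D.Nbr G i N e) (d1 : D.Dec G')
    (d2 : D.Dec N') (e1 : D.tile G' = D.tile (g * G)) (e2 : D.tile N' = D.tile (g * N)) :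
    ∃ a b, D.Nbr G' a N' b ∧ D.edge G' a = D.edge (g * G) i := by
  have hn' := hn.mul g
  obtain ⟨p, q, hp, hq, -, -, hne⟩ := two_vertices (D := D) (g * G) i
  rcases nbr_of_two d1 d2 hne (e1 ▸ hp.1) (e2 ▸ (hn'.edge_subset hp).1) (e1 ▸ hq.1)
    (e2 ▸ (hn'.edge_subset hq).1) with h | ⟨a, b, h⟩
  · exact absurd (by rw [← e1, ← e2, h]) hn'.tile_ne
  · exact ⟨a, b, h, by rw [← h.inter, e1, e2, hn'.inter]⟩

theorem exists_action {g : Iso} (hg : moveFamily g D.tiling = D.tiling) :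
    Nonempty (D.Action g) := by
  have h1 : ∀ G, ∃ G', D.Dec G → D.Dec G' ∧ D.tile G' = D.tile (g * G) := by
    intro G
    by_cases hG : D.Dec G
    · have : D.tile (g * G) ∈ D.tiling := by
        rw [← hg]
        exact ⟨_, ⟨G, hG, rfl⟩, image_tile g G⟩
      obtain ⟨G', h1, h2⟩ := this
      exact ⟨G', fun _ => ⟨h1, h2.symm⟩⟩
    · exact ⟨1, fun h => absurd h hG⟩
  choose im him using h1
  have h2 : ∀ G i, ∃ a, D.Dec G → D.edge (im G) a = D.edge (g * G) i := by
    intro G i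
    by_cases hG : D.Dec G
    · obtain ⟨N, e, hN, hn⟩ := hG.exists_nbr i
      obtain ⟨a, b, -, h⟩ := nbr_image hn (him G hG).1 (him N hN).1 (him G hG).2 (him N hN).2
      exact ⟨a, fun _ => h⟩
    · exact ⟨0, fun h => absurd h hG⟩
  choose p hp using h2
  exact ⟨⟨im, p, fun G hG => (him G hG).1, fun G hG => (him G hG).2, fun G hG i => hp G i hG⟩⟩

namespace Action

variable {g : Iso} (A : D.Action g)

theorem nbr {G N : Iso} {i e : Ix r} (hG : D.Dec G) (hN : D.Dec N) (hn : D.Nbr G i N e) :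
    D.Nbr (A.im G) (A.p G i) (A.im N) (A.p N e) := by
  obtain ⟨a, b, h, h'⟩ := nbr_image hn (A.dec G hG) (A.dec N hN) (A.tile_eq G hG)
    (A.tile_eq N hN)
  have ea : A.p G i = a := edge_inj (by rw [h', A.edge_eq G hG])
  have eb : A.p N e = b :=
    edge_inj (by rw [← h.edge_eq, h', A.edge_eq N hN, (hn.mul g).edge_eq])
  rw [ea, eb]; exact h

theorem zero {G : Iso} (hG : D.Dec G) {i : Ix r} {z : ℍ} (hz : z ∈ D.tile (g * G))
    (h0 : D.w (g * G) i z = 0) : D.w (A.im G) (A.p G i) z = 0 := by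
  have : z ∈ D.edge (g * G) i := ⟨hz, h0⟩
  rw [← A.edge_eq G hG] at this
  exact this.2

theorem affine {G : Iso} (hG : D.Dec G) :
    ∃ s : Ix r, (s = 1 ∨ s = -1) ∧ ∀ i, A.p G i = A.p G 0 + s * i := by
  have hinj : Function.Injective (A.p G) := fun i j h =>
    edge_inj (by rw [← A.edge_eq G hG, ← A.edge_eq G hG, h])
  refine affine_of_adj hinj fun i => ?_
  obtain ⟨z, h1, h2⟩ := exists_vertex (D := D) (g * G) i
  have hz := mem_tile_of_vertex h1 h2
  rcases adj_of_zero (A.zero hG hz h1) (A.zero hG hz h2) with h | h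
  · exact absurd (hinj h) (succ_ne_self i)
  · exact h

theorem len {G : Iso} (hG : D.Dec G) (i : Ix r) : D.L (A.p G i) = D.L i := by
  obtain ⟨s, hs, h⟩ := A.affine hG
  obtain ⟨z, y, hz, hy, z1, y1, -⟩ := two_vertices (D := D) (g * G) i
  rw [← w_len (g * G) (Or.inl rfl) y1 hy.2 hz.2 z1]
  refine (w_len (A.im G) hs ?_ (A.zero hG hy.1 hy.2) (A.zero hG hz.1 hz.2) ?_).symm
  · have := A.zero hG hy.1 y1
    rwa [show A.p G (i - 1) = A.p G i - s by rw [h, h i]; ring] at this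
  · have := A.zero hG hz.1 z1
    rwa [show A.p G (i + 1) = A.p G i + s by rw [h, h i]; ring] at this

theorem shape {G : Iso} (hG : D.Dec G) :
    ((ty (A.p G 0) = 0 ∨ ty (A.p G 0) = 4) ∧ ∀ i, A.p G i = A.p G 0 + i) ∨
    ((ty (A.p G 0) = 2 ∨ ty (A.p G 0) = 6) ∧ ∀ i, A.p G i = A.p G 0 - i) := by
  obtain ⟨s, hs, h⟩ := A.affine hG
  have l0 := A.len hG 0
  have l1 := A.len hG 1
  have l2 := A.len hG 2
  have a02 : D.L 0 = D.L 2 := D.L_act _ _ (Or.inl (map_zero _)) (Or.inr (Or.inl ty_two))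
  have n1 : ¬ (ty (A.p G 1) = 3 ∨ ty (A.p G 1) = 7) := fun h' =>
    D.L_ne 1 _ (Or.inl (map_one _)) h' l1.symm
  have n2 : ¬ ((ty (A.p G 0) = 1 ∨ ty (A.p G 0) = 5) ∧ (ty (A.p G 2) = 3 ∨ ty (A.p G 2) = 7)) :=
    fun h' => D.L_ne _ _ h'.1 h'.2 (by rw [l0, l2, a02])
  have n3 : ¬ ((ty (A.p G 2) = 1 ∨ ty (A.p G 2) = 5) ∧ (ty (A.p G 0) = 3 ∨ ty (A.p G 0) = 7)) :=
    fun h' => D.L_ne _ _ h'.1 h'.2 (by rw [l0, l2, a02])
  rw [h 1] at n1
  rw [h 2] at n2 n3
  rcases hs with rfl | rfl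
  · refine Or.inl ⟨?_, fun i => by rw [h i, one_mul]⟩
    simp only [map_add, map_mul, map_one, ty_two] at n1 n2 n3
    revert n1 n2 n3
    generalize ty (A.p G 0) = a
    revert a; decide
  · refine Or.inr ⟨?_, fun i => by rw [h i]; ring⟩
    simp only [map_add, map_mul, map_one, map_neg, ty_two] at n1 n2 n3
    revert n1 n2 n3
    generalize ty (A.p G 0) = a
    revert a; decide

theorem orient {G N : Iso} {i e : Ix r} (hG : D.Dec G) (hN : D.Dec N) (hn : D.Nbr G i N e)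
    (hi : Act i) (hi' : Act (A.p G i)) (h1 : A.p G (i + 1) = A.p G i + 1)
    (h2 : A.p N (e - 1) = A.p N e + 1) : False := by
  obtain ⟨z, z1, z2⟩ := exists_vertex (D := D) (g * G) i
  have hz := mem_tile_of_vertex z1 z2
  have hn' := hn.mul g
  have hz' := (hn'.edge_subset ⟨hz, z1⟩).1
  have a1 := A.zero hG hz z2
  have a2 := A.zero hN hz' (i := e - 1) (by rw [hn'.hm, sg_act hi, sub_neg_eq_add, z2])
  rw [h1] at a1
  rw [h2, (A.nbr hG hN hn).hp, sg_act hi', ← sub_eq_add_neg] at a2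
  have := adj_of_zero a2 a1
  revert this
  rw [sub_add_cancel]
  refine not_or.mpr ⟨succ_ne_pred _, not_or.mpr ⟨succ_ne_self _, ?_⟩⟩
  apply ne_of_ty
  simp only [map_add, map_sub, map_one]
  generalize ty (A.p G i) = a
  revert a; decide

theorem shape' {G : Iso} (hG : D.Dec G) : ty (A.p G 0) = 0 ∧ ∀ i, A.p G i = A.p G 0 + i := by
  have key : ∀ G N : Iso, D.Dec G → D.Dec N → D.Nbr G 4 N 4 →
      ((ty (A.p G 0) = 0 ∨ ty (A.p G 0) = 4) ∧ ∀ i, A.p G i = A.p G 0 + i) →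
      ((ty (A.p N 0) = 2 ∨ ty (A.p N 0) = 6) ∧ ∀ i, A.p N i = A.p N 0 - i) → False := by
    intro G N hG hN hn h1 h2
    refine A.orient hG hN hn (Or.inr (Or.inr (Or.inl ty_four))) ?_
      (by rw [h1.2, h1.2 4]; ring) (by rw [h2.2, h2.2 4]; ring)
    rw [h1.2]
    unfold Act
    rw [map_add, ty_four]
    rcases h1.1 with h | h <;> rw [h] <;> decide
  obtain ⟨N, e, hN, hn⟩ := hG.exists_nbr 4
  obtain rfl := hn.gl.of_four ty_four
  have hgl := (A.nbr hG hN hn).gl
  rcases A.shape hG with h1 | h1 <;> rcases A.shape hN with h2 | h2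
  · refine ⟨h1.1.resolve_right fun h => ?_, h1.2⟩
    have := (hgl.of_zero (by rw [h1.2, map_add, h, ty_four]; decide)).1
    rw [h2.2, map_add, ty_four] at this
    revert this
    rcases h2.1 with h | h <;> rw [h] <;> decide
  · exact (key G N hG hN hn h1 h2).elim
  · exact (key N G hN hG hn.symm h2 h1).elim
  · exfalso
    have t1 : ty (A.p G 4) = 2 ∨ ty (A.p G 4) = 6 := by
      rw [h1.2, map_sub, ty_four]
      rcases h1.1 with h | h <;> rw [h] <;> decide
    have := ty_dbl t1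
    rw [← hgl.of_two t1, h2.2, map_sub, ty_four] at this
    revert this
    rcases h2.1 with h | h <;> rw [h] <;> decide

theorem trivial {G : Iso} (hG : D.Dec G) (i : Ix r) : A.p G i = i := by
  have key : ∀ m : ℕ, ∀ G, D.Dec G → ∃ u, A.p G 0 = 2 ^ m * u := by
    intro m
    induction m with
    | zero => exact fun G _ => ⟨_, by rw [pow_zero, one_mul]⟩
    | succ m ih =>
      intro G hG
      obtain ⟨N, e, hN, hn⟩ := hG.exists_nbr 0
      obtain ⟨u, hu⟩ := ih N hN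
      have a1 := (hn.gl.of_zero (map_zero _)).2
      have a2 := ((A.nbr hG hN hn).gl.of_zero (A.shape' hG).1).2
      rw [(A.shape' hN).2, hu] at a2
      exact ⟨u, by linear_combination a2 - a1⟩
  obtain ⟨u, hu⟩ := key (r + 3) G hG
  have : (2 : Ix r) ^ (r + 3) = 0 := by
    have := ZMod.natCast_self (2 ^ (r + 3))
    push_cast at this
    exact this
  rw [(A.shape' hG).2, hu, this]; ring

end Action

theorem not_isohedral (D : Datum r) : ¬ IsIsohedral D.tiling := by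
  intro h
  have hR : D.Dec (D.pl []) := dec_pl trivial
  have hz : (2 : Ix r) ^ (r + 3) = 0 := by
    have := ZMod.natCast_self (2 ^ (r + 3))
    push_cast at this
    exact this
  have hne : (2 : Ix r) ^ (r + 2) ≠ 0 := by
    intro h
    have h1 : ((2 ^ (r + 2) : ℕ) : Ix r) = 0 := by push_cast; exact h
    rw [ZMod.natCast_eq_zero_iff] at h1
    have := Nat.le_of_dvd (by positivity) h1
    have := Nat.pow_lt_pow_right (a := 2) (by norm_num) (show r + 2 < r + 3 by omega)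
    omega
  obtain ⟨N1, e1, d1, n1⟩ := hR.exists_nbr 2
  obtain ⟨N2, e2, d2, n2⟩ := hR.exists_nbr (2 + 2 ^ (r + 2))
  have a1 : e1 = 0 := by rw [n1.gl.of_two (Or.inl ty_two)]; ring
  have a2 : e2 = 0 := by
    rw [n2.gl.of_two]
    · linear_combination hz
    · rw [map_add, map_pow, ty_two, pow_add]
      generalize (2 : ZMod 8) ^ r = a
      revert a; decide
  subst a1 a2
  obtain ⟨g, hg, hT⟩ := h _ ⟨N1, d1, rfl⟩ _ ⟨N2, d2, rfl⟩
  obtain ⟨A⟩ := exists_action hT
  have e : N2 = A.im N1 :=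
    dec_eq_of_tile (A.dec _ d1) d2 (by rw [A.tile_eq _ d1, ← image_tile, hg])
  have n3 := A.nbr d1 hR n1.symm
  rw [A.trivial d1, A.trivial hR, ← e] at n3
  have := (nbr_unique (A.dec _ hR) hR n3 n2.symm).2
  exact hne (by linear_combination this)

end Datum

end Pool.Agent.Lib.MP_6d95fe_co
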