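import Mathlib
import Pool.Agent.Lib.MP_6d95fe_co.Defs
import Pool.Agent.Lib.MP_6d95fe_co.Concrete
import Pool.Agent.Lib.MP_6d95fe_co.NonIso

set_option autoImplicit false

open scoped UpperHalfPlane

open Pool.Agent.Lib.MP_6d95fe_co in
/-- In the hyperbolic plane there is no universal corona radius: for every `K` there is a
face-to-face tiling by convex polygons in which any two tiles have congruent centred `K`-th
coronas, and which is not isohedral. -/
theorem Pool.Agent.Lib.MP_6d95fe_co.hyperbolicUnbounded (K : ℕ) :
    ∃ T : Set (Set ℍ), IsPolygonTiling T ∧ CoronasCongruent T K ∧ ¬ IsIsohedral T := by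
  obtain ⟨D⟩ := exists_datum (2 * K)
  exact ⟨D.tiling, D.tiling_isPolygonTiling, D.coronasCongruent le_rfl, D.not_isohedral⟩
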